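import Pool.Agent.H467.GK.Spec
import Mathlib.RingTheory.DedekindDomain.FiniteAdeleRing
import Mathlib.RingTheory.DedekindDomain.IntegralClosure

/-!
# The decomposition `K = K ^ 2 + t K ^ 2` for finite separable extensions of `k(t)`

Project GK (helper467), part BAS (helper860).
-/

set_option autoImplicit false
set_option linter.all false

open Polynomial IsDedekindDomain WithZero
open Pool.Agent.H467.CT (AS Bas bas_X poly_dec charK)
open scoped Classical

namespace Pool.Agent.H467.GK.Bas

section field

variable {K Ω : Type} [Field K] [Field Ω] [Algebra K Ω] [Algebra.IsSeparable K Ω] [CharP Ω 2]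

/-- An element whose square lies in an intermediate field lies in this field. -/
theorem mem_of_sq (M : IntermediateField K Ω) (x : Ω) (h : x ^ 2 ∈ M) : x ∈ M := by
  have hM : x ∈ perfectClosure M Ω := by
    rw [mem_perfectClosure_iff]
    haveI : CharP M 2 := (algebraMap M Ω).charP_iff_charP 2 |>.2 inferInstance
    haveI : ExpChar M 2 := ExpChar.prime Nat.prime_two
    refine ⟨1, ?_⟩
    rw [ringExpChar.eq M 2, pow_one]
    exact ⟨⟨x ^ 2, h⟩, rfl⟩
  haveI : Algebra.IsSeparable M Ω := Algebra.isSeparable_tower_top_of_isSeparable K M Ω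
  rw [perfectClosure.eq_bot_of_isSeparable] at hM
  obtain ⟨y, hy⟩ := IntermediateField.mem_bot.1 hM
  rw [← hy]
  exact y.2

/-- The elements `u ^ 2 + t w ^ 2`. -/
def MS (t : K) (h : Bas t) : IntermediateField K Ω where
  carrier := {x | ∃ u w : Ω, x = u ^ 2 + algebraMap K Ω t * w ^ 2}
  mul_mem' := by
    rintro x y ⟨u, w, rfl⟩ ⟨u', w', rfl⟩
    refine ⟨u * u' + algebraMap K Ω t * w * w', u * w' + w * u', ?_⟩
    have c2 : (2 : Ω) = 0 := CharTwo.two_eq_zero
    linear_combination (-2 * algebraMap K Ω t * u * u' * w * w') * c2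
  add_mem' := by
    rintro x y ⟨u, w, rfl⟩ ⟨u', w', rfl⟩
    refine ⟨u + u', w + w', ?_⟩
    have c2 : (2 : Ω) = 0 := CharTwo.two_eq_zero
    linear_combination (-(u * u') - algebraMap K Ω t * w * w') * c2
  algebraMap_mem' := by
    intro x
    obtain ⟨u, w, e⟩ := h.dec x
    exact ⟨algebraMap K Ω u, algebraMap K Ω w, by rw [e]; simp⟩
  inv_mem' := by
    rintro x ⟨u, w, hx⟩
    by_cases h0 : x = 0
    · exact ⟨0, 0, by rw [h0]; simp⟩
    · refine ⟨u / x, w / x, ?_⟩
      field_simp
      rw [← hx]

/-- The decomposition passes to separable extensions. -/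
theorem bas_up {t : K} (h : Bas t) : Bas (algebraMap K Ω t) := by
  refine ⟨?_, ?_⟩
  · rintro ⟨s, hs⟩
    have h1 : s ∈ (⊥ : IntermediateField K Ω) := by
      apply mem_of_sq
      rw [sq, ← hs]
      exact IntermediateField.mem_bot.2 ⟨t, rfl⟩
    obtain ⟨r, hr⟩ := IntermediateField.mem_bot.1 h1
    apply h.ns
    refine ⟨r, (algebraMap K Ω).injective ?_⟩
    rw [hs, ← hr, map_mul]
  · intro x
    have h1 : x ∈ MS (Ω := Ω) t h := by
      apply mem_of_sq
      exact ⟨x, 0, by ring⟩
    exact h1

end field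

/-- Uniqueness of the decomposition. -/
theorem uniq {K : Type} [Field K] [CharP K 2] {t : K} (h : Bas t) {u w u' w' : K}
    (e : u ^ 2 + t * w ^ 2 = u' ^ 2 + t * w' ^ 2) : w = w' := by
  have c2 : (2 : K) = 0 := CharTwo.two_eq_zero
  by_contra hne
  apply h.ns
  have hs : w + w' ≠ 0 := fun e2 => hne (by linear_combination e2 - w' * c2)
  refine ⟨(u + u') / (w + w'), ?_⟩
  field_simp
  grind

theorem bas : S_BAS := by
  intro k K₀ K O _ _ _ _ _ _ _ _ _ _ _ _ _ _ _ _ _ _ _
  haveI : CharP K₀ 2 := charK k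
  haveI : CharP K 2 := charP_of_injective_algebraMap (algebraMap K₀ K).injective 2
  have c2 : (2 : K) = 0 := CharTwo.two_eq_zero
  have hB : Bas (algebraMap k[X] K X) := by
    rw [IsScalarTower.algebraMap_apply k[X] K₀ K]
    exact bas_up (bas_X (k := k) K₀)
  refine ⟨hB, ?_⟩
  set t := algebraMap k[X] K X with ht
  haveI : Module.Finite k[X] O := IsIntegralClosure.finite k[X] K₀ K O
  obtain ⟨S, hS⟩ := (Module.Finite.fg_top (R := k[X]) (M := O))
  choose P Q hPQ using hB.dec
  refine ⟨S.biUnion fun ω =>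
    (HeightOneSpectrum.Support.finite O (P (algebraMap O K ω))).toFinset ∪
      (HeightOneSpectrum.Support.finite O (Q (algebraMap O K ω))).toFinset, ?_⟩
  intro v hv
  have hgen : ∀ y : O, ∃ p q : K, algebraMap O K y = p ^ 2 + t * q ^ 2 ∧
      v.valuation K p ≤ 1 ∧ v.valuation K q ≤ 1 := by
    intro y
    have hy : y ∈ Submodule.span k[X] (S : Set O) := by rw [hS]; trivial
    induction hy using Submodule.span_induction with
    | mem ω hω =>
      refine ⟨P (algebraMap O K ω), Q (algebraMap O K ω), hPQ _, ?_, ?_⟩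
      · by_contra h0
        apply hv
        rw [Finset.mem_biUnion]
        refine ⟨ω, hω, Finset.mem_union_left _ ?_⟩
        rw [Set.Finite.mem_toFinset]
        exact not_le.1 h0
      · by_contra h0
        apply hv
        rw [Finset.mem_biUnion]
        refine ⟨ω, hω, Finset.mem_union_right _ ?_⟩
        rw [Set.Finite.mem_toFinset]
        exact not_le.1 h0
    | zero => exact ⟨0, 0, by simp, by simp, by simp⟩
    | add x y _ _ hx hy =>
      obtain ⟨p, q, h1, h2, h3⟩ := hx
      obtain ⟨p', q', h1', h2', h3'⟩ := hy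
      refine ⟨p + p', q + q', ?_, ?_, ?_⟩
      · rw [map_add, h1, h1']
        linear_combination (-(p * p') - t * q * q') * c2
      · exact (Valuation.map_add _ _ _).trans (max_le h2 h2')
      · exact (Valuation.map_add _ _ _).trans (max_le h3 h3')
    | smul f x _ hx =>
      obtain ⟨p, q, h1, h2, h3⟩ := hx
      obtain ⟨g, h, hf, -⟩ := poly_dec f
      have hle : ∀ a : k[X], v.valuation K (algebraMap k[X] K a) ≤ 1 := by
        intro a
        rw [IsScalarTower.algebraMap_apply k[X] O K]
        exact v.valuation_le_one _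
      have hml : ∀ a b : K, v.valuation K a ≤ 1 → v.valuation K b ≤ 1 →
          v.valuation K (a * b) ≤ 1 := by
        intro a b ha hb
        rw [map_mul]
        exact mul_le_one' ha hb
      refine ⟨algebraMap k[X] K g * p + t * algebraMap k[X] K h * q,
        algebraMap k[X] K g * q + algebraMap k[X] K h * p, ?_, ?_, ?_⟩
      · rw [Algebra.smul_def, map_mul, ← IsScalarTower.algebraMap_apply k[X] O K, h1, hf, map_add,
          map_mul, map_pow, map_pow, ← ht]
        linear_combination (-2 * t * algebraMap k[X] K g * p * algebraMap k[X] K h * q) * c2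
      · refine (Valuation.map_add _ _ _).trans (max_le (hml _ _ (hle _) h2) ?_)
        exact hml _ _ (hml _ _ (hle _) (hle _)) h3
      · exact (Valuation.map_add _ _ _).trans (max_le (hml _ _ (hle _) h3) (hml _ _ (hle _) h2))
  intro p q hpq
  obtain ⟨n, d, hnd⟩ := HeightOneSpectrum.exists_primeCompl_mul_eq_of_integer v _ hpq
  have hd : v.valuation K (algebraMap O K d) = 1 := by
    rw [v.valuation_of_algebraMap]
    exact (v.intValuation_eq_one_iff_mem_primeCompl d).2 d.2
  obtain ⟨p', q', h1, h2, h3⟩ := hgen (n * d)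
  have h4 : (algebraMap O K d * p) ^ 2 + t * (algebraMap O K d * q) ^ 2 =
      p' ^ 2 + t * q' ^ 2 := by
    rw [← h1, map_mul, ← hnd]
    ring
  have h5 := uniq hB h4
  have h6 : v.valuation K (algebraMap O K d * q) ≤ 1 := by rw [h5]; exact h3
  rwa [map_mul, hd, one_mul] at h6

end Pool.Agent.H467.GK.Bas
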