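import Pool.Agent.H467.GK.Spec
import Pool.Agent.H467.CT.Big
import Pool.Agent.H467.CT.Intg

/-!
# Project GK, part Bgk (helper218): most elements of `VK` have large poles modulo `z ^ 2 + z`
-/

set_option autoImplicit false
set_option linter.all false

open Polynomial IsDedekindDomain WithZero
open Pool.Agent.TH115.GD
open scoped Classical

namespace Pool.Agent.H467.GK.Bgk

section abs

variable {K : Type} [Field K] [CharP K 2] (w : Valuation K (WithZero (Multiplicative ℤ)))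

theorem tend (V : ℕ → Set K) (hfin : ∀ N, (V N).Finite)
    (hadd : ∀ N a b, a ∈ V N → b ∈ V N → a + b ∈ V N) (h0 : ∀ N, 0 ∈ V N) (x : ℕ → K)
    (hx : ∀ j, w (x j) = exp ((2 * j + 1 : ℕ) : ℤ)) (m₀ : ℕ)
    (hxV : ∀ j, m₀ ≤ j → ∃ M : ℕ, ∀ N, M ≤ N → x j ∈ V N)
    (γ : WithZero (Multiplicative ℤ)) :
    Filter.Tendsto (fun N : ℕ => ({a ∈ V N | ∃ z : K, w (a + z ^ 2 + z) ≤ γ}.ncard : ℝ) /
      ((V N).ncard : ℝ)) Filter.atTop (nhds 0) := by
  obtain ⟨n₀, hn₀⟩ : ∃ n₀ : ℕ, γ ≤ exp (n₀ : ℤ) := by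
    by_cases hγ : γ = 0
    · exact ⟨0, by rw [hγ]; exact zero_le'⟩
    · refine ⟨(log γ).toNat, ?_⟩
      rw [← exp_log hγ, exp_le_exp, log_exp]
      exact Int.self_le_toNat _
  have hx' : ∀ j, ∃ M : ℕ, m₀ ≤ j → ∀ N, M ≤ N → x j ∈ V N := by
    intro j
    by_cases h : m₀ ≤ j
    · obtain ⟨M, hM⟩ := hxV j h
      exact ⟨M, fun _ => hM⟩
    · exact ⟨0, fun h' => absurd h' h⟩
  choose M hM using hx'
  have key : ∀ L : ℕ, ∀ᶠ N : ℕ in Filter.atTop,
      ({a ∈ V N | ∃ z : K, w (a + z ^ 2 + z) ≤ γ}.ncard : ℝ) / ((V N).ncard : ℝ) ≤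
        (1 / 2 : ℝ) ^ L := by
    intro L
    set S : Finset ℕ := Finset.Ico (m₀ + n₀) (m₀ + n₀ + L) with hS
    filter_upwards [Filter.eventually_ge_atTop (∑ j ∈ S, M j)] with N hN
    have hVpos : 0 < (V N).ncard := by
      rw [Set.ncard_pos (hfin N)]
      exact ⟨0, h0 N⟩
    have hVpos' : (0 : ℝ) < ((V N).ncard : ℝ) := by exact_mod_cast hVpos
    have h2 := CT.Big.card_le w (V N) (hfin N) (hadd N) x hx (h0 N) γ S (by
      intro j hj
      have hMj : M j ≤ N := (Finset.single_le_sum (fun i _ => Nat.zero_le (M i)) hj).trans hN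
      rw [hS, Finset.mem_Ico] at hj
      refine ⟨hM j (by omega) N hMj, lt_of_le_of_lt hn₀ ?_⟩
      rw [exp_lt_exp]
      exact_mod_cast (by omega : n₀ < 2 * j + 1))
    have hc : S.card = L := by
      rw [hS, Nat.card_Ico]
      omega
    rw [hc] at h2
    have h3 : (({a ∈ V N | ∃ z : K, w (a + z ^ 2 + z) ≤ γ}.ncard : ℝ)) * 2 ^ L ≤
      ((V N).ncard : ℝ) := by exact_mod_cast h2
    rw [div_le_iff₀ hVpos', one_div, inv_pow]
    have h4 : (0 : ℝ) < 2 ^ L := by positivity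
    rw [inv_mul_eq_div, le_div_iff₀ h4]
    exact h3
  rw [Metric.tendsto_atTop]
  intro ε hε
  obtain ⟨L, hL⟩ := exists_pow_lt_of_lt_one hε (by norm_num : (1 / 2 : ℝ) < 1)
  obtain ⟨N₁, hN₁⟩ := Filter.eventually_atTop.1 (key L)
  refine ⟨N₁, fun N hN => ?_⟩
  rw [Real.dist_eq, sub_zero, abs_of_nonneg (by positivity)]
  exact (hN₁ N hN).trans_lt hL

end abs

section conc

variable {K O : Type} [Field K] [CommRing O] [IsDedekindDomain O] [Algebra O K]
  [IsFractionRing O K]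

theorem one_le_expN (N : ℕ) : (1 : WithZero (Multiplicative ℤ)) ≤ exp (N : ℤ) := by
  rw [← exp_zero, exp_le_exp]
  exact Int.natCast_nonneg N

theorem VK_zero (w : Vl K) (s : Finset (HeightOneSpectrum O)) (N : ℕ) : (0 : K) ∈ VK w s N := by
  refine ⟨?_, fun v _ => ?_, fun v _ => ?_⟩ <;> rw [map_zero] <;> exact zero_le'

theorem VK_add (w : Vl K) (s : Finset (HeightOneSpectrum O)) (N : ℕ) (a b : K)
    (ha : a ∈ VK w s N) (hb : b ∈ VK w s N) : a + b ∈ VK w s N :=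
  ⟨Valuation.map_add_le _ ha.1 hb.1,
    fun v hv => Valuation.map_add_le _ (ha.2.1 v hv) (hb.2.1 v hv),
    fun v hv => Valuation.map_add_le _ (ha.2.2 v hv) (hb.2.2 v hv)⟩

theorem exists_le_exp (γ : WithZero (Multiplicative ℤ)) : ∃ n : ℕ, γ ≤ exp (n : ℤ) := by
  by_cases hγ : γ = 0
  · exact ⟨0, by rw [hγ]; exact zero_le'⟩
  · refine ⟨(log γ).toNat, ?_⟩
    rw [← exp_log hγ, exp_le_exp, log_exp]
    exact Int.self_le_toNat _

theorem exp_mono {m n : ℕ} (h : m ≤ n) :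
    (exp (m : ℤ) : WithZero (Multiplicative ℤ)) ≤ exp (n : ℤ) := by
  rw [exp_le_exp]
  exact_mod_cast h

theorem sur_w {w : Vl K} (hw : Function.Surjective w) (hnear : ∃ N : ℤ, ∀ z : K, ∃ g : O,
    w (z - algebraMap O K g) ≤ exp N) :
    ∃ m₀ : ℕ, ∀ j : ℕ, ∃ x : K, w x = exp ((2 * j + 1 : ℕ) : ℤ) ∧
      (m₀ ≤ j → ∃ g : O, x = algebraMap O K g) := by
  obtain ⟨N, hN⟩ := hnear
  refine ⟨N.toNat, fun j => ?_⟩
  obtain ⟨x, hx⟩ := hw (exp ((2 * j + 1 : ℕ) : ℤ))
  by_cases hj : N.toNat ≤ j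
  · obtain ⟨g, hg⟩ := hN x
    refine ⟨algebraMap O K g, ?_, fun _ => ⟨g, rfl⟩⟩
    rw [← hx]
    have h1 : w (x - algebraMap O K g) < w x := by
      rw [hx]
      refine hg.trans_lt ?_
      rw [exp_lt_exp]
      have := Int.self_le_toNat N
      push_cast
      omega
    have e : algebraMap O K g = x - (x - algebraMap O K g) := by ring
    rw [e]
    exact Valuation.map_sub_eq_of_lt_left w h1
  · exact ⟨x, hx, fun h => absurd h hj⟩

theorem sur_v (v : HeightOneSpectrum O) (γ : WithZero (Multiplicative ℤ)) (hγ : γ ≠ 0) :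
    ∃ x : K, v.valuation K x = γ := by
  obtain ⟨π, hπ⟩ := v.valuation_exists_uniformizer K
  refine ⟨π ^ (-(log γ)), ?_⟩
  rw [map_zpow₀, hπ, ← exp_zsmul]
  conv_rhs => rw [← exp_log hγ]
  congr 1
  simp

theorem sep_v (v : HeightOneSpectrum O) (n : ℕ) :
    ∃ x : K, v.valuation K x = exp ((2 * n + 1 : ℕ) : ℤ) ∧
      ∀ v' : HeightOneSpectrum O, v' ≠ v → v'.valuation K x ≤ 1 := by
  obtain ⟨y, hy⟩ := sur_v (K := K) v (exp ((2 * n + 1 : ℕ) : ℤ)) exp_ne_zero
  obtain ⟨g, hg⟩ := CT.Intg.cousin (R := O) (K := K) (fun v' => if v' = v then y else 0)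
    ((Set.finite_singleton v).subset (by
      intro v' hv'
      by_contra h
      apply hv'
      exact if_neg h))
  refine ⟨g, ?_, fun v' hv' => ?_⟩
  · have h1 := hg v
    rw [if_pos rfl] at h1
    rw [← hy]
    have e : g = y + (g - y) := by ring
    rw [e]
    apply Valuation.map_add_eq_of_lt_left
    refine h1.trans_lt ?_
    rw [hy, ← exp_zero, exp_lt_exp]
    exact_mod_cast (by omega : 0 < 2 * n + 1)
  · have h1 := hg v'
    rw [if_neg hv', sub_zero] at h1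
    exact h1

end conc

theorem bgk : S_BGK := by
  intro k K₀ K O _ _ _ _ _ _ _ _ _ _ _ _ _ _ _ _ _ _ _ w hw hF s hfin γ j
  haveI : CharP K 2 := by
    have h2 : (2 : k) = 0 := CharTwo.two_eq_zero
    have h3 : (2 : K) = 0 := by
      have h4 : algebraMap k[X] K (C (2 : k)) = 2 := by
        rw [map_ofNat C 2, map_ofNat (algebraMap k[X] K) 2]
      rw [← h4, h2, map_zero, map_zero]
    exact CharTwo.of_one_ne_zero_of_two_eq_zero one_ne_zero h3
  rcases j with _ | ⟨v, hv⟩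
  · obtain ⟨m₀, hm⟩ := sur_w (O := O) hw.surj hF.near
    choose x hx hx' using hm
    refine tend w (VK w s) hfin (VK_add w s) (VK_zero w s) x hx m₀ (fun j hj => ?_) γ
    obtain ⟨g, hg⟩ := hx' j hj
    refine ⟨2 * j + 1, fun N hN => ⟨?_, fun v _ => ?_, fun v _ => ?_⟩⟩
    · rw [hx]
      exact exp_mono hN
    · rw [hg]
      exact (v.valuation_le_one g).trans (one_le_expN N)
    · rw [hg]
      exact v.valuation_le_one g
  · have hs := sep_v (K := K) v
    choose x hx hx' using hs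
    refine tend (v.valuation K) (VK w s) hfin (VK_add w s) (VK_zero w s) x hx 0
      (fun j _ => ?_) γ
    obtain ⟨n, hn⟩ := exists_le_exp (w (x j))
    refine ⟨max n (2 * j + 1), fun N hN => ⟨?_, fun v' _ => ?_, fun v' hv' => ?_⟩⟩
    · exact hn.trans (exp_mono ((le_max_left _ _).trans hN))
    · by_cases h : v' = v
      · rw [h, hx]
        exact exp_mono ((le_max_right _ _).trans hN)
      · exact (hx' j v' h).trans (one_le_expN N)
    · refine hx' j v' ?_
      rintro rfl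
      exact hv' hv

end Pool.Agent.H467.GK.Bgk
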