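import Pool.Agent.H467.GK.Spec

/-!
# Classification of the places of a global function field
-/

set_option autoImplicit false

open Polynomial IsDedekindDomain WithZero
open Pool.Agent.H467.CT (vinf)
open scoped Classical

namespace Pool.Agent.H467.GK.Cls

/-- Two surjective valuations, one of which is at most one where the other one is, are equal. -/
theorem val_eq {K : Type} [Field K] (u v : Vl K) (hu : Function.Surjective u)
    (hv : Function.Surjective v) (h : ∀ x, v x ≤ 1 → u x ≤ 1) : u = v := by
  have h1 : ∀ y, v y = 1 → u y = 1 := by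
    intro y hy
    have hy0 : y ≠ 0 := by
      rintro rfl
      rw [map_zero] at hy
      exact zero_ne_one hy
    apply le_antisymm (h y hy.le)
    have h2 := h y⁻¹ (by rw [map_inv₀, hy, inv_one])
    rw [map_inv₀] at h2
    exact (inv_le_one₀ (zero_lt_iff.2 ((Valuation.ne_zero_iff u).2 hy0))).1 h2
  obtain ⟨π, hπ⟩ := hv (exp (-1))
  have hπ0 : π ≠ 0 := by
    rintro rfl
    rw [map_zero] at hπ
    exact (exp_ne_zero hπ.symm)
  have huπ0 : u π ≠ 0 := (Valuation.ne_zero_iff u).2 hπ0
  -- the values of `u` are powers of `u π`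
  have h3 : ∀ x, x ≠ 0 → ∃ n : ℤ, v x = exp (-n) ∧ u x = (u π) ^ n := by
    intro x hx
    have hvx : v x ≠ 0 := (Valuation.ne_zero_iff v).2 hx
    refine ⟨-log (v x), by rw [neg_neg, exp_log hvx], ?_⟩
    have h4 : v (x / π ^ (-log (v x))) = 1 := by
      rw [map_div₀, map_zpow₀, hπ, ← exp_zsmul]
      rw [smul_eq_mul, mul_neg_one, neg_neg, exp_log hvx, div_self hvx]
    have h5 := h1 _ h4
    rw [map_div₀, map_zpow₀, div_eq_one_iff_eq] at h5
    · exact h5
    · exact zpow_ne_zero _ huπ0
  have huπ1 : u π ≤ 1 := h π (by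
    rw [hπ, ← exp_zero, exp_le_exp]; norm_num)
  have h6 : u π = exp (-1) := by
    obtain ⟨x, hx⟩ := hu (exp (-1))
    have hx0 : x ≠ 0 := by
      rintro rfl
      rw [map_zero] at hx
      exact (exp_ne_zero hx.symm)
    obtain ⟨n, -, h7⟩ := h3 x hx0
    obtain ⟨a, ha⟩ : ∃ a : ℤ, u π = exp a := ⟨log (u π), (exp_log huπ0).symm⟩
    rw [ha] at h7 huπ1 ⊢
    rw [hx, ← exp_zsmul, exp_inj, smul_eq_mul] at h7
    rw [← exp_zero, exp_le_exp] at huπ1
    have h8 : IsUnit a := by
      refine IsUnit.of_mul_eq_one (-n) ?_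
      linear_combination h7
    rcases Int.isUnit_iff.1 h8 with h9 | h9
    · omega
    · rw [h9]
  ext x
  by_cases hx : x = 0
  · rw [hx, map_zero, map_zero]
  · obtain ⟨n, h7, h8⟩ := h3 x hx
    rw [h7, h8, h6, ← exp_zsmul, smul_eq_mul, mul_neg_one]

/-- roots of monic polynomials with integral coefficients are integral -/
theorem int_le {K R : Type} [Field K] [CommRing R] [Algebra R K] (u : Vl K) (x : K) (p : R[X])
    (hp : p.Monic) (h0 : aeval x p = 0) (h : ∀ i, u (algebraMap R K (p.coeff i)) ≤ 1) :
    u x ≤ 1 := by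
  by_contra hc
  have hc' := not_le.1 hc
  rw [aeval_eq_sum_range, Finset.sum_range_succ, hp.coeff_natDegree, one_smul] at h0
  have h1 : x ^ p.natDegree = -∑ i ∈ Finset.range p.natDegree, p.coeff i • x ^ i := by
    linear_combination h0
  have hx0 : u x ≠ 0 := (zero_lt_one.trans hc').ne'
  have h2 : u (∑ i ∈ Finset.range p.natDegree, p.coeff i • x ^ i) < u x ^ p.natDegree := by
    refine Valuation.map_sum_lt u (pow_ne_zero _ hx0) ?_
    intro i hi
    rw [Finset.mem_range] at hi
    rw [Algebra.smul_def, map_mul, map_pow]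
    calc u (algebraMap R K (p.coeff i)) * u x ^ i ≤ 1 * u x ^ i :=
          mul_le_mul_left (h i) _
      _ = u x ^ i := one_mul _
      _ < u x ^ p.natDegree := pow_lt_pow_right₀ hc' hi
  rw [← map_pow, h1, Valuation.map_neg] at h2
  exact lt_irrefl _ h2

section

variable {k K : Type} [Field k] [Finite k] [Field K] [Algebra k[X] K]

/-- constants have value one -/
theorem const_one (u : Vl K) {c : k} (hc : c ≠ 0) :
    u (algebraMap k[X] K (C c)) = 1 := by
  have := Fintype.ofFinite k
  have h1 : c ^ (Fintype.card k - 1) = 1 := FiniteField.pow_card_sub_one_eq_one c hc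
  have h2 : u (algebraMap k[X] K (C c)) ^ (Fintype.card k - 1) = 1 := by
    rw [← map_pow, ← map_pow, ← C_pow, h1, C_1, map_one, map_one]
  have h3 : Fintype.card k - 1 ≠ 0 := by
    have := Fintype.one_lt_card (α := k)
    omega
  exact (pow_eq_one_iff_of_nonneg zero_le h3).1 h2

theorem const_le (u : Vl K) (c : k) :
    u (algebraMap k[X] K (C c)) ≤ 1 := by
  by_cases hc : c = 0
  · rw [hc, C_0, map_zero, map_zero]; exact zero_le
  · exact (const_one u hc).le

/-- `u t ≤ 1`: polynomials are integral -/
theorem poly_le (u : Vl K)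
    (ht : u (algebraMap k[X] K X) ≤ 1) (p : k[X]) : u (algebraMap k[X] K p) ≤ 1 := by
  rw [p.as_sum_support_C_mul_X_pow, map_sum]
  refine Valuation.map_sum_le u fun i _ => ?_
  rw [map_mul, map_mul, map_pow, map_pow]
  exact mul_le_one' (const_le u _) (pow_le_one' ht i)

/-- `u t > 1`: small polynomials -/
theorem poly_lt (u : Vl K)
    (ht : 1 < u (algebraMap k[X] K X)) (p : k[X]) (n : ℕ) (hp : ∀ i, n ≤ i → p.coeff i = 0) :
    u (algebraMap k[X] K p) < u (algebraMap k[X] K X) ^ n := by
  rw [p.as_sum_support_C_mul_X_pow, map_sum]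
  refine Valuation.map_sum_lt u (pow_ne_zero _ (zero_lt_one.trans ht).ne') fun i hi => ?_
  rw [map_mul, map_mul, map_pow, map_pow]
  have hin : i < n := by
    by_contra h
    exact (mem_support_iff.1 hi) (hp i (not_lt.1 h))
  calc _ ≤ 1 * u (algebraMap k[X] K X) ^ i := mul_le_mul_left (const_le u _) _
    _ = u (algebraMap k[X] K X) ^ i := one_mul _
    _ < _ := pow_lt_pow_right₀ ht hin

/-- `u t > 1`: the value of a polynomial -/
theorem poly_deg (u : Vl K)
    (ht : 1 < u (algebraMap k[X] K X)) {p : k[X]} (hp : p ≠ 0) :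
    u (algebraMap k[X] K p) = u (algebraMap k[X] K X) ^ p.natDegree := by
  have h1 : u (algebraMap k[X] K p.eraseLead) < u (algebraMap k[X] K X) ^ p.natDegree := by
    apply poly_lt u ht
    intro i hi
    rcases hi.lt_or_eq with h | h
    · rw [eraseLead_coeff_of_ne _ h.ne']
      exact coeff_eq_zero_of_natDegree_lt h
    · rw [← h]; exact eraseLead_coeff_natDegree
  have h2 : u (algebraMap k[X] K (C p.leadingCoeff * X ^ p.natDegree)) =
      u (algebraMap k[X] K X) ^ p.natDegree := by
    rw [map_mul, map_mul, map_pow, map_pow, const_one u (leadingCoeff_ne_zero.2 hp), one_mul]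
  conv_lhs => rw [← eraseLead_add_C_mul_X_pow p, map_add]
  rw [Valuation.map_add_eq_of_lt_right u (by rw [h2]; exact h1), h2]

end

section

variable {k K₀ K : Type} [Field k] [Finite k] [Field K₀] [Algebra k[X] K₀] [IsFractionRing k[X] K₀]
  [Field K] [Algebra K₀ K] [Algebra k[X] K] [IsScalarTower k[X] K₀ K]

/-- `u t > 1`: elements of `K₀` that are integral at infinity -/
theorem base_le (u : Vl K) (ht : 1 < u (algebraMap k[X] K X)) (f : K₀) (hf : vinf k f ≤ 1) :
    u (algebraMap K₀ K f) ≤ 1 := by
  obtain ⟨g, h, hh, rfl⟩ := IsFractionRing.div_surjective (A := k[X]) f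
  have hh0 : h ≠ 0 := nonZeroDivisors.ne_zero hh
  by_cases hg0 : g = 0
  · rw [hg0, map_zero, zero_div, map_zero, map_zero]; exact zero_le
  rw [CT.vinf_eq, map_div₀, map_div₀] at hf
  have e1 : ∀ p : k[X], p ≠ 0 → CT.Infg.w k K₀ (CT.Infg.jj k K₀ (algebraMap k[X] K₀ p)) =
      exp (p.natDegree : ℤ) := fun p hp => CT.Infg.w_s k K₀ hp
  rw [e1 g hg0, e1 h hh0, ← exp_sub, ← exp_zero, exp_le_exp] at hf
  have hd : g.natDegree ≤ h.natDegree := by omega
  rw [map_div₀, map_div₀, ← IsScalarTower.algebraMap_apply k[X] K₀ K,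
    ← IsScalarTower.algebraMap_apply k[X] K₀ K, poly_deg u ht hg0, poly_deg u ht hh0]
  apply div_le_one_of_le₀
  · exact pow_le_pow_right₀ ht.le hd
  · exact zero_le

end

theorem cls : S_CLS := by
  intro k K₀ K O _ _ _ _ _ _ _ _ _ _ _ _ _ _ _ _ _ _ _ w hw u hu
  rcases le_or_gt (u (algebraMap k[X] K X)) 1 with ht | ht
  · right
    -- `u ≤ 1` on `O`
    have hO : ∀ x : O, u (algebraMap O K x) ≤ 1 := by
      intro x
      have hx : IsIntegral k[X] (algebraMap O K x) :=
        (IsIntegralClosure.isIntegral_iff (A := O)).2 ⟨x, rfl⟩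
      obtain ⟨p, hp, h0⟩ := hx
      exact int_le u _ p hp h0 fun i => poly_le u ht _
    -- the prime ideal
    set I : Ideal O :=
      { carrier := {x | u (algebraMap O K x) < 1}
        add_mem' := by
          intro a b ha hb
          change u (algebraMap O K (a + b)) < 1
          rw [map_add]
          exact Valuation.map_add_lt u ha hb
        zero_mem' := by
          change u (algebraMap O K 0) < 1
          rw [map_zero, map_zero]
          exact zero_lt_one
        smul_mem' := by
          intro c x hx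
          change u (algebraMap O K (c • x)) < 1
          rw [smul_eq_mul, map_mul, map_mul]
          exact lt_of_le_of_lt ((mul_le_mul_left (hO c) _).trans (one_mul _).le) hx } with hI
    have memI : ∀ x : O, x ∈ I ↔ u (algebraMap O K x) < 1 := fun x => Iff.rfl
    have hprime : I.IsPrime := by
      refine ⟨?_, ?_⟩
      · intro h
        have h1 : (1 : O) ∈ I := by rw [h]; trivial
        rw [memI, map_one, map_one] at h1
        exact lt_irrefl _ h1
      · intro x y hxy
        rw [memI, map_mul, map_mul] at hxy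
        by_contra hc
        rw [not_or, memI, memI, not_lt, not_lt] at hc
        exact absurd hxy (not_lt.2 (one_le_mul hc.1 hc.2))
    have hne : I ≠ ⊥ := by
      intro h
      have h1 : ∀ x : O, x ≠ 0 → u (algebraMap O K x) = 1 := by
        intro x hx
        apply le_antisymm (hO x)
        by_contra hc
        have h2 : x ∈ I := (memI x).2 (not_le.1 hc)
        rw [h] at h2
        exact hx h2
      obtain ⟨x, hx⟩ := hu (exp (-1))
      obtain ⟨a, b, hb, rfl⟩ := IsFractionRing.div_surjective (A := O) x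
      have hb0 : b ≠ 0 := nonZeroDivisors.ne_zero hb
      have ha0 : a ≠ 0 := by
        rintro rfl
        rw [map_zero, zero_div, map_zero] at hx
        exact exp_ne_zero hx.symm
      rw [map_div₀, h1 a ha0, h1 b hb0, div_one, ← exp_zero, exp_inj] at hx
      norm_num at hx
    refine ⟨⟨I, hprime, hne⟩, val_eq u _ hu (HeightOneSpectrum.valuation_surjective K _) ?_⟩
    intro x hx
    obtain ⟨n, d, h⟩ := HeightOneSpectrum.exists_primeCompl_mul_eq_of_integer _ x hx
    have hd : u (algebraMap O K d) = 1 := by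
      apply le_antisymm (hO d)
      rw [← not_lt, ← memI]
      exact d.2
    have h1 : u x = u (algebraMap O K n) := by
      rw [← h, map_mul, hd, mul_one]
    rw [h1]
    exact hO n
  · left
    refine val_eq u w hu hw.surj ?_
    intro x hx
    have hx' := (hw.iff x).1 hx
    have hint : IsIntegral K₀ x := IsIntegral.of_finite K₀ x
    exact int_le u x (minpoly K₀ x) (minpoly.monic hint) (minpoly.aeval K₀ x)
      fun i => base_le u ht _ (hx' i)

end Pool.Agent.H467.GK.Cls
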