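import Pool.Agent.H467.GK.Spec
import Pool.Agent.H467.CT.Eqd

/-!
# Equidistribution of the matrices of residues over `K` (task GK EQK, helper253)

Project GK (helper467). Adapted from `Pool.Agent.H467.CT.Eqd` (helper955).
-/

set_option autoImplicit false
set_option linter.all false

open Polynomial IsDedekindDomain WithZero
open Pool.Agent.TH115.GD
open Pool.Agent.H467.CT (AS Bas vinf Res IsTau Good Std Ev)
open scoped Classical

namespace Pool.Agent.H467.GK.Eqk

/-! ### strong approximation -/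

/-- Strong approximation for Dedekind domains. -/
theorem approx {R K : Type} [CommRing R] [IsDedekindDomain R] [Field K] [Algebra R K]
    [IsFractionRing R K] (z : HeightOneSpectrum R → K) (hz : {v | z v ≠ 0}.Finite)
    (s : Finset (HeightOneSpectrum R)) (N : ℕ) :
    ∃ g : K, (∀ v : HeightOneSpectrum R, v.valuation K (g - z v) ≤ 1) ∧
      ∀ v ∈ s, v.valuation K (g - z v) ≤ exp (-(N : ℤ)) := by
  obtain ⟨b, hb⟩ := IsLocalization.exist_integer_multiples (nonZeroDivisors R) hz.toFinset z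
  set D : R := (b : R) with hD
  have hD0 : D ≠ 0 := nonZeroDivisors.coe_ne_zero b
  have hint : ∀ v, ∃ a : R, algebraMap R K a = algebraMap R K D * z v := by
    intro v
    by_cases hv : z v = 0
    · exact ⟨0, by rw [hv, mul_zero, map_zero]⟩
    · obtain ⟨a, ha⟩ := hb v (by simpa using hv)
      exact ⟨a, by rw [ha, Algebra.smul_def]⟩
  choose a ha using hint
  have hn : ∀ v : HeightOneSpectrum R, ∃ n : ℕ, v.intValuation D = WithZero.exp (-(n : ℤ)) :=
    fun v => ⟨_, v.intValuation_if_neg hD0⟩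
  choose n hn using hn
  have hfin : {v : HeightOneSpectrum R | v.intValuation D < 1}.Finite := by
    have h1 := HeightOneSpectrum.Support.finite R ((algebraMap R K D)⁻¹)
    refine h1.subset fun v hv => ?_
    show 1 < v.valuation K (algebraMap R K D)⁻¹
    have hv' : v.intValuation D < 1 := hv
    rw [map_inv₀, HeightOneSpectrum.valuation_of_algebraMap]
    exact (one_lt_inv₀ (zero_lt_iff.2 (v.intValuation_ne_zero D hD0))).2 hv'
  set S : Finset (HeightOneSpectrum R) := (hz.toFinset ∪ hfin.toFinset) ∪ s with hS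
  obtain ⟨y, hy⟩ := IsDedekindDomain.exists_forall_sub_mem_ideal (s := S)
    (fun v : HeightOneSpectrum R => v.asIdeal) (fun v => n v + N) (fun v _ => v.prime)
    (fun v _ w _ hvw h => hvw (HeightOneSpectrum.ext h)) (fun v => a v.1)
  have hDK : algebraMap R K D ≠ 0 := by
    rw [Ne, IsFractionRing.to_map_eq_zero_iff]; exact hD0
  have e : ∀ v, algebraMap R K y / algebraMap R K D - z v =
      algebraMap R K (y - a v) / algebraMap R K D := by
    intro v
    rw [map_sub, ha v]
    field_simp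
  have key : ∀ v ∈ S, v.valuation K (algebraMap R K y / algebraMap R K D - z v) ≤
      exp (-(N : ℤ)) := by
    intro v hv
    rw [e, map_div₀, HeightOneSpectrum.valuation_of_algebraMap,
      HeightOneSpectrum.valuation_of_algebraMap]
    have hDv : 0 < v.intValuation D := zero_lt_iff.2 (v.intValuation_ne_zero D hD0)
    have h1 := hy v hv
    rw [← HeightOneSpectrum.intValuation_le_pow_iff_mem] at h1
    rw [div_le_iff₀ hDv, hn v, ← exp_add]
    refine h1.trans (le_of_eq ?_)
    congr 1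
    push_cast
    ring
  refine ⟨algebraMap R K y / algebraMap R K D, fun v => ?_, fun v hv =>
    key v (Finset.mem_union_right _ hv)⟩
  by_cases hv : v ∈ S
  · refine (key v hv).trans ?_
    rw [← exp_zero, exp_le_exp]
    omega
  · rw [e, map_div₀, HeightOneSpectrum.valuation_of_algebraMap,
      HeightOneSpectrum.valuation_of_algebraMap]
    have h2 : ¬ v.intValuation D < 1 := by
      intro h2
      exact hv (Finset.mem_union_left _ (Finset.mem_union_right _ (by simpa using h2)))
    have h3 : v.intValuation D = 1 := le_antisymm (v.intValuation_le_one D) (not_lt.1 h2)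
    rw [h3, div_one]
    exact v.intValuation_le_one _

/-! ### the derivation -/

section der

variable {K : Type} [Field K] [CharP K 2] {t : K}

theorem uniq (ht : ¬ IsSquare t) {p q p' q' : K} (h : p ^ 2 + t * q ^ 2 = p' ^ 2 + t * q' ^ 2) :
    q = q' := by
  have h2 : (2 : K) = 0 := CharTwo.two_eq_zero
  by_contra hne
  apply ht
  have h3 : q + q' ≠ 0 := by
    intro h4
    apply hne
    linear_combination h4 - q' * h2
  refine ⟨(p + p') / (q + q'), ?_⟩
  field_simp
  linear_combination (-1 : K) * h + (t * q ^ 2 - p' ^ 2 + t * q * q' - p * p') * h2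

theorem qq_eq (ht : ¬ IsSquare t) {x p q : K} (h : x = p ^ 2 + t * q ^ 2) : qq t x = q := by
  have hex : ∃ q p : K, x = p ^ 2 + t * q ^ 2 := ⟨q, p, h⟩
  unfold qq
  rw [dif_pos hex]
  obtain ⟨p', hp'⟩ := hex.choose_spec
  exact (uniq ht (h.symm.trans hp')).symm

theorem dl_one (ht : ¬ IsSquare t) : dl t 1 = 0 := by
  unfold dl
  rw [qq_eq ht (x := 1) (p := 1) (q := 0) (by ring)]
  ring

theorem dl_mul (ht : Bas t) {x y : K} (hx : x ≠ 0) (hy : y ≠ 0) :
    dl t (x * y) = dl t x + dl t y := by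
  have h2 : (2 : K) = 0 := CharTwo.two_eq_zero
  obtain ⟨p, q, h⟩ := ht.dec x
  obtain ⟨p', q', h'⟩ := ht.dec y
  unfold dl
  rw [qq_eq ht.ns h, qq_eq ht.ns h', qq_eq ht.ns (x := x * y) (p := p * p' + t * q * q')
    (q := p * q' + p' * q) (by
      rw [h, h']
      linear_combination (- (p * p' * t * q * q') - t * (p * q' * p' * q)) * h2 )]
  field_simp
  rw [h, h']
  linear_combination (p * q' * p' * q - t * q ^ 2 * q' ^ 2) * h2

theorem dl_prod (ht : Bas t) {ι : Type*} (u : Finset ι) (f : ι → K) (h : ∀ i ∈ u, f i ≠ 0) :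
    dl t (∏ i ∈ u, f i) = ∑ i ∈ u, dl t (f i) := by
  induction u using Finset.induction_on with
  | empty => rw [Finset.prod_empty, Finset.sum_empty, dl_one ht.ns]
  | insert a s ha ih =>
    rw [Finset.prod_insert ha, Finset.sum_insert ha, dl_mul ht (h a (Finset.mem_insert_self _ _))
      (Finset.prod_ne_zero_iff.2 fun i hi => h i (Finset.mem_insert_of_mem hi)),
      ih fun i hi => h i (Finset.mem_insert_of_mem hi)]

theorem dl_ne (ht : Bas t) {x : K} (hx : ¬ IsSquare x) : dl t x ≠ 0 := by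
  obtain ⟨p, q, h⟩ := ht.dec x
  have hx0 : x ≠ 0 := by
    rintro rfl
    exact hx ⟨0, by ring⟩
  unfold dl
  rw [qq_eq ht.ns h]
  refine div_ne_zero (pow_ne_zero 2 ?_) hx0
  rintro rfl
  exact hx ⟨p, by rw [h]; ring⟩

end der

/-! ### the sets `VK` -/

section vk

variable {K O : Type} [Field K] [CommRing O] [IsDedekindDomain O] [Algebra O K]
  [IsFractionRing O K] {w : Vl K} {s : Finset (HeightOneSpectrum O)}

theorem ex_exp (x : WithZero (Multiplicative ℤ)) : ∃ n : ℕ, x ≤ exp (n : ℤ) := by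
  by_cases hx : x = 0
  · exact ⟨0, hx ▸ zero_le'⟩
  · refine ⟨(log x).toNat, ?_⟩
    rw [← exp_log hx, exp_le_exp]
    exact (Int.self_le_toNat _)

theorem exp_mono {n m : ℕ} (h : n ≤ m) : (exp (n : ℤ) : WithZero (Multiplicative ℤ)) ≤
    exp (m : ℤ) := by
  rw [exp_le_exp]
  exact_mod_cast h

theorem VK_mono {a : K} {n m : ℕ} (hnm : n ≤ m) (h : a ∈ VK w s n) : a ∈ VK w s m :=
  ⟨h.1.trans (exp_mono hnm), fun v hv => (h.2.1 v hv).trans (exp_mono hnm), h.2.2⟩

theorem VK_zero {n : ℕ} : (0 : K) ∈ VK w s n := by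
  refine ⟨?_, fun v _ => ?_, fun v _ => ?_⟩
  · rw [map_zero]; exact zero_le'
  · rw [map_zero]; exact zero_le'
  · rw [map_zero]; exact zero_le'

theorem VK_add {a b : K} {n : ℕ} (ha : a ∈ VK w s n) (hb : b ∈ VK w s n) :
    a + b ∈ VK w s n :=
  ⟨Valuation.map_add_le _ ha.1 hb.1, fun v hv => Valuation.map_add_le _ (ha.2.1 v hv)
    (hb.2.1 v hv), fun v hv => Valuation.map_add_le _ (ha.2.2 v hv) (hb.2.2 v hv)⟩

theorem VK_neg {a : K} {n : ℕ} (ha : a ∈ VK w s n) : -a ∈ VK w s n := by
  refine ⟨?_, fun v hv => ?_, fun v hv => ?_⟩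
  · rw [Valuation.map_neg]; exact ha.1
  · rw [Valuation.map_neg]; exact ha.2.1 v hv
  · rw [Valuation.map_neg]; exact ha.2.2 v hv

theorem mem_VK (a : K) (h : ∀ v : HeightOneSpectrum O, v ∉ s → v.valuation K a ≤ 1) :
    ∃ N : ℕ, a ∈ VK w s N := by
  obtain ⟨n, hn⟩ := ex_exp (w a)
  choose f hf using fun v : HeightOneSpectrum O => ex_exp (v.valuation K a)
  refine ⟨max n (s.sup f), hn.trans (exp_mono (le_max_left _ _)), fun v hv =>
    (hf v).trans (exp_mono ((Finset.le_sup hv).trans (le_max_right _ _))), h⟩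

/-- an element with large valuations -/
theorem ex_g (s : Finset (HeightOneSpectrum O)) (N : ℕ) : ∃ g : O, g ≠ 0 ∧
    ∀ v ∈ s, v.valuation K (algebraMap O K g) ≤ exp (-(N : ℤ)) := by
  have h1 : ∏ v ∈ s, v.asIdeal ^ N ≠ ⊥ :=
    Finset.prod_ne_zero_iff.2 fun v _ => pow_ne_zero N v.ne_bot
  obtain ⟨g, hg, hg0⟩ := Submodule.exists_mem_ne_zero_of_ne_bot h1
  refine ⟨g, hg0, fun v hv => ?_⟩
  rw [HeightOneSpectrum.valuation_of_algebraMap, HeightOneSpectrum.intValuation_le_pow_iff_mem]
  exact Ideal.le_of_dvd (Finset.dvd_prod_of_mem (fun v : HeightOneSpectrum O => v.asIdeal ^ N) hv)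
    hg

theorem VK_finite (hfin : ∀ N : ℤ, {x : O | w (algebraMap O K x) ≤ exp N}.Finite) (N : ℕ) :
    (VK w s N).Finite := by
  obtain ⟨g, hg0, hg⟩ := ex_g (K := K) s N
  have hgK : algebraMap O K g ≠ 0 := by
    rw [Ne, IsFractionRing.to_map_eq_zero_iff]; exact hg0
  obtain ⟨M, hM⟩ := ex_exp (w (algebraMap O K g))
  refine ((hfin ((N : ℤ) + M)).image fun x => algebraMap O K x / algebraMap O K g).subset ?_
  rintro a ⟨h1, h2, h3⟩
  obtain ⟨x, hx⟩ := HeightOneSpectrum.mem_integers_of_valuation_le_one K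
    (a * algebraMap O K g) (R := O) (fun v => by
      rw [map_mul]
      by_cases hv : v ∈ s
      · have h4 := mul_le_mul' (h2 v hv) (hg v hv)
        rwa [← exp_add, add_neg_cancel, exp_zero] at h4
      · exact mul_le_one' (h3 v hv) (v.valuation_le_one g))
  refine ⟨x, ?_, ?_⟩
  · show w (algebraMap O K x) ≤ exp ((N : ℤ) + M)
    rw [hx, map_mul, exp_add]
    exact mul_le_mul' h1 hM
  · show algebraMap O K x / algebraMap O K g = a
    rw [hx, mul_div_cancel_right₀ _ hgK]

end vk

/-! ### the matrices -/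

section matr

variable {k : Type} [Field k] [Finite k] [CharP k 2] {K O : Type} [Field K] [Algebra k[X] K]
  [CommRing O] [IsDedekindDomain O] [Algebra O K] [IsFractionRing O K] {w : Vl K}
  {s : Finset (HeightOneSpectrum O)}

omit [Finite k] in
include k in
theorem charK : CharP K 2 :=
  charP_of_injective_ringHom (f := (algebraMap k[X] K).comp C) (RingHom.injective _) 2

lemma tau_zero {τ : k → ZMod 2} (hτ : IsTau τ) : τ 0 = 0 := (hτ.zero 0).2 ⟨0, by ring⟩

lemma tau_sum {τ : k → ZMod 2} (hτ : IsTau τ) {ι : Type*} (t : Finset ι) (f : ι → k) :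
    τ (∑ i ∈ t, f i) = ∑ i ∈ t, τ (f i) := by
  induction t using Finset.induction_on with
  | empty => rw [Finset.sum_empty, Finset.sum_empty, tau_zero hτ]
  | insert a s ha ih => rw [Finset.sum_insert ha, Finset.sum_insert ha, hτ.add, ih]

lemma r_zero (ρ : ResK k O w) (v : Option (HeightOneSpectrum O)) : ρ.r v 0 = 0 := by
  have := ρ.sq v 0
  rwa [zero_pow two_ne_zero] at this

lemma r_sum (ρ : ResK k O w) (v : Option (HeightOneSpectrum O)) {ι : Type*} (t : Finset ι)
    (f : ι → K) : ρ.r v (∑ i ∈ t, f i) = ∑ i ∈ t, ρ.r v (f i) := by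
  induction t using Finset.induction_on with
  | empty => rw [Finset.sum_empty, Finset.sum_empty, r_zero]
  | insert a s ha ih => rw [Finset.sum_insert ha, Finset.sum_insert ha, ρ.add, ih]

/-- the rows of the matrix have sum zero -/
lemma mat_row (hB : Bas (algebraMap k[X] K X)) (ρ : ResK k O w) {τ : k → ZMod 2} (hτ : IsTau τ)
    (hs : ∀ v, v ∉ s → ∀ p q : K,
      v.valuation K (p ^ 2 + algebraMap k[X] K X * q ^ 2) ≤ 1 → v.valuation K q ≤ 1)
    {u : s → K} (hu : Unb s u) {N : ℕ} {a : K} (ha : a ∈ VK w s N)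
    (i : s) : ∑ j, matK ρ τ u a i j = 0 := by
  have : CharP K 2 := charK (k := k)
  have h1 : ρ.r none (a * dl (algebraMap k[X] K X) (u i)) =
      ∑ j : s, ρ.r (some j.1) (a * dl (algebraMap k[X] K X) (u i)) := by
    rw [ρ.sum (a * dl (algebraMap k[X] K X) (u i)) s]
    · exact (Finset.sum_coe_sort s fun v => ρ.r (some v) (a * dl (algebraMap k[X] K X) (u i))).symm
    intro v hv
    obtain ⟨p, q, h⟩ := hB.dec (u i)
    have h2 : v.valuation K q ≤ 1 := by
      apply hs v hv p q
      rw [← h, hu.unit i v hv]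
    have h3 : v.valuation K (dl (algebraMap k[X] K X) (u i)) ≤ 1 := by
      unfold dl
      rw [qq_eq hB.ns h, map_div₀, map_pow, hu.unit i v hv, div_one]
      exact pow_le_one' h2 2
    rw [map_mul]
    exact mul_le_one' (ha.2.2 v hv) h3
  rw [Fintype.sum_option]
  show τ (ρ.r none (a * dl (algebraMap k[X] K X) (u i))) +
    ∑ j : s, τ (ρ.r (some j.1) (a * dl (algebraMap k[X] K X) (u i))) = 0
  rw [h1, tau_sum hτ]
  exact CharTwo.add_self_eq_zero _

lemma mat_add (ρ : ResK k O w) {τ : k → ZMod 2} (hτ : IsTau τ) (u : s → K) (a b : K) (i : s)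
    (j : Option s) : matK ρ τ u (a + b) i j = matK ρ τ u a i j + matK ρ τ u b i j := by
  unfold matK
  rw [add_mul, ρ.add, hτ.add]

lemma mat_zero (ρ : ResK k O w) {τ : k → ZMod 2} (hτ : IsTau τ) (u : s → K) (i : s)
    (j : Option s) : matK ρ τ u 0 i j = 0 := by
  have h := mat_add ρ hτ u 0 0 i j
  rw [add_zero] at h
  exact left_eq_add.1 h

lemma z2 (x : ZMod 2) (h : x ≠ 0) : x = 1 := by
  revert x
  decide

lemma z2' (x : ZMod 2) : x = 0 ∨ x = 1 := by
  revert x
  decide

/-- no linear relation holds between the entries of all matrices -/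
lemma exists_a (hB : Bas (algebraMap k[X] K X)) (ρ : ResK k O w) {τ : k → ZMod 2}
    (hτ : IsTau τ) {u : s → K} (hu : Unb s u) (c : s → s → ZMod 2)
    (hc : ∃ i j, c i j ≠ 0) :
    ∃ (N : ℕ) (a : K), a ∈ VK w s N ∧ ∑ j, ∑ i, c i j * matK ρ τ u a i (some j) ≠ 0 := by
  have : CharP K 2 := charK (k := k)
  set t : K := algebraMap k[X] K X with ht
  obtain ⟨i₀, j₀, hij⟩ := hc
  -- a constant
  obtain ⟨c0, hc0⟩ : ∃ c0 : k, τ c0 ≠ 0 := by
    by_contra hcon
    push Not at hcon
    have h1 : (CT.Eqd.asm k).range = ⊤ := by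
      rw [eq_top_iff]
      intro x _
      rw [CT.Eqd.mem_range]
      exact (hτ.zero x).1 (hcon x)
    have h2 := CT.Eqd.index_as k
    rw [h1, AddSubgroup.index_top] at h2
    norm_num at h2
  set d : s → K := fun j => ∏ i, u i ^ (c i j).val with hd
  have hdne : ∀ j, d j ≠ 0 := fun j => Finset.prod_ne_zero_iff.2 fun i _ => pow_ne_zero _ (hu.ne i)
  -- the sums
  have hsum : ∀ (a : K) (j : s), ∑ i, c i j * matK ρ τ u a i (some j) =
      τ (ρ.r (some j.1) (a * dl t (d j))) := by
    intro a j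
    rw [hd]
    simp only
    rw [dl_prod hB _ _ fun i _ => pow_ne_zero _ (hu.ne i), Finset.mul_sum, r_sum, tau_sum hτ]
    apply Finset.sum_congr rfl
    intro i _
    rcases z2' (c i j) with h | h
    · rw [h, ZMod.val_zero, pow_zero, dl_one hB.ns, mul_zero, r_zero, tau_zero hτ, zero_mul]
    · rw [h, ZMod.val_one, pow_one, one_mul]
      rfl
  -- the element
  have hdl : dl t (d j₀) ≠ 0 := by
    apply dl_ne hB
    intro hsq
    have h1 := hu.ind (fun i => c i j₀) hsq
    exact hij (congrFun h1 i₀)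
  obtain ⟨f, hf⟩ := ρ.nd j₀.1
  set g : K := algebraMap k[X] K (C (c0 / ρ.r (some j₀.1) f)) * f with hg
  have hrg : ρ.r (some j₀.1) g = c0 := by
    rw [hg, ρ.smul, div_mul_cancel₀ _ hf]
  set a1 : K := g / dl t (d j₀) with ha1
  choose n hn using fun j : s => ex_exp (j.1.valuation K (dl t (d j)))
  set M : ℕ := Finset.univ.sup n with hM
  have hsmall : ∀ (j : s) (x : K), j.1.valuation K x ≤ exp (-(M : ℤ)) →
      ρ.r (some j.1) (x * dl t (d j)) = 0 := by
    intro j x hx
    apply ρ.int
    rw [map_mul]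
    have h1 : j.1.valuation K (dl t (d j)) ≤ exp (M : ℤ) :=
      (hn j).trans (exp_mono (Finset.le_sup (Finset.mem_univ j)))
    have h2 := mul_le_mul' hx h1
    rwa [← exp_add, neg_add_cancel, exp_zero] at h2
  obtain ⟨a, ha, ha'⟩ := approx (R := O) (K := K) (fun v => if v = j₀.1 then a1 else 0)
    ((Set.finite_singleton j₀.1).subset fun v hv => by
      by_contra hne
      exact hv (if_neg hne)) s M
  obtain ⟨N, hN⟩ := mem_VK (w := w) (s := s) a (fun v hv => by
    have h1 := ha v
    have h2 : v ≠ j₀.1 := fun h => hv (h ▸ j₀.2)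
    rwa [if_neg h2, sub_zero] at h1)
  refine ⟨N, a, hN, ?_⟩
  have hsum2 : ∑ j, ∑ i, c i j * matK ρ τ u a i (some j) = τ c0 := by
    rw [Finset.sum_congr rfl fun j _ => hsum a j, Finset.sum_eq_single j₀]
    · have e1 : a * dl t (d j₀) = g + (a - a1) * dl t (d j₀) := by
        rw [ha1, sub_mul, div_mul_cancel₀ _ hdl]
        ring
      rw [e1, ρ.add, hrg, hsmall j₀ (a - a1), add_zero]
      have h1 := ha' j₀.1 j₀.2
      rwa [if_pos rfl] at h1
    · intro j _ hj
      rw [hsmall j a, tau_zero hτ]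
      have h1 := ha' j.1 j.2
      have h2 : j.1 ≠ j₀.1 := fun h => hj (Subtype.ext h)
      rwa [if_neg h2, sub_zero] at h1
    · intro h
      exact absurd (Finset.mem_univ _) h
  rw [hsum2]
  exact hc0

/-- the matrices without the column at infinity are arbitrary -/
lemma surj (hB : Bas (algebraMap k[X] K X)) (ρ : ResK k O w) {τ : k → ZMod 2}
    (hτ : IsTau τ) {u : s → K} (hu : Unb s u) :
    ∃ N₀ : ℕ, ∀ T : s × s → ZMod 2, ∃ a ∈ VK w s N₀, ∀ i j,
      matK ρ τ u a i (some j) = T (i, j) := by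
  let H : Submodule (ZMod 2) (s × s → ZMod 2) :=
    { carrier := {T | ∃ (N : ℕ) (a : K), a ∈ VK w s N ∧ ∀ i j,
        matK ρ τ u a i (some j) = T (i, j)}
      add_mem' := by
        rintro T T' ⟨N, a, ha, h⟩ ⟨N', a', ha', h'⟩
        refine ⟨max N N', a + a', VK_add (VK_mono (le_max_left _ _) ha)
          (VK_mono (le_max_right _ _) ha'), fun i j => ?_⟩
        rw [mat_add ρ hτ, h, h']
        rfl
      zero_mem' := ⟨0, 0, VK_zero, fun i j => mat_zero ρ hτ u i _⟩
      smul_mem' := by
        rintro x T ⟨N, a, ha, h⟩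
        rcases z2' x with rfl | rfl
        · refine ⟨0, 0, VK_zero, fun i j => ?_⟩
          rw [mat_zero ρ hτ u i _, zero_smul]
          rfl
        · rw [one_smul]
          exact ⟨N, a, ha, h⟩ }
  have htop : H = ⊤ := by
    by_contra hne
    obtain ⟨f, hf, hle⟩ := Submodule.exists_le_ker_of_lt_top H (lt_top_iff_ne_top.2 hne)
    have hex : ∃ i j, (fun i j : s => f fun p => if (i, j) = p then 1 else 0) i j ≠ 0 := by
      by_contra hcon
      push Not at hcon
      apply hf
      apply LinearMap.ext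
      intro T
      rw [LinearMap.pi_apply_eq_sum_univ f T]
      apply Finset.sum_eq_zero
      rintro ⟨i, j⟩ _
      rw [hcon i j, smul_zero]
    obtain ⟨N, a, ha, hsum⟩ := exists_a hB ρ hτ hu _ hex
    apply hsum
    have h1 : (fun p : s × s => matK ρ τ u a p.1 (some p.2)) ∈ H := ⟨N, a, ha, fun i j => rfl⟩
    have h2 := hle h1
    rw [LinearMap.mem_ker, LinearMap.pi_apply_eq_sum_univ f, Fintype.sum_prod_type_right] at h2
    refine Eq.trans ?_ h2
    apply Finset.sum_congr rfl
    intro j _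
    apply Finset.sum_congr rfl
    intro i _
    rw [smul_eq_mul, mul_comm]
  have h1 : ∀ T : s × s → ZMod 2, ∃ (N : ℕ) (a : K), a ∈ VK w s N ∧ ∀ i j,
      matK ρ τ u a i (some j) = T (i, j) := by
    intro T
    have : T ∈ H := by rw [htop]; exact Submodule.mem_top
    exact this
  choose N a ha h using h1
  refine ⟨Finset.univ.sup N, fun T => ⟨a T, VK_mono (Finset.le_sup (Finset.mem_univ T)) (ha T),
    h T⟩⟩

end matr

theorem eqk : S_EQK := by
  intro k K₀ K O _ _ _ _ _ _ _ _ _ _ _ _ _ _ _ _ _ _ _ w hw hF hB ρ τ hτ s hs u hu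
  refine ⟨fun N => VK_finite hF.fin N, fun a N ha i => mat_row hB ρ hτ hs hu ha i, ?_⟩
  obtain ⟨N₀, hN₀⟩ := surj hB ρ hτ hu
  refine ⟨N₀, fun N hN T hT => ?_⟩
  let A : AddSubgroup K :=
    { carrier := VK w s N
      add_mem' := fun ha hb => VK_add ha hb
      zero_mem' := VK_zero
      neg_mem' := fun ha => VK_neg ha }
  let φ : A →+ (s × s → ZMod 2) :=
    { toFun := fun a p => matK ρ τ u a.1 p.1 (some p.2)
      map_zero' := by
        funext p
        exact mat_zero ρ hτ u _ _
      map_add' := fun a b => by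
        funext p
        exact mat_add ρ hτ u _ _ _ _ }
  have hA : Finite A := (VK_finite (w := w) (s := s) hF.fin N).to_subtype
  letI : Fintype A := Fintype.ofFinite A
  have hφ : Function.Surjective φ := by
    intro T'
    obtain ⟨a, ha, h⟩ := hN₀ T'
    refine ⟨⟨a, VK_mono hN ha⟩, ?_⟩
    funext p
    exact h p.1 p.2
  set T' : s × s → ZMod 2 := fun p => T p.1 (some p.2) with hT'
  -- the fibre
  have e1 : {a ∈ VK w s N | matK ρ τ u a = T} =
      Subtype.val '' ((Finset.univ.filter fun a : A => φ a = T' : Finset A) : Set A) := by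
    ext a
    constructor
    · rintro ⟨ha, h⟩
      refine ⟨⟨a, ha⟩, ?_, rfl⟩
      rw [Finset.mem_coe, Finset.mem_filter]
      refine ⟨Finset.mem_univ _, ?_⟩
      funext p
      show matK ρ τ u a p.1 (some p.2) = T p.1 (some p.2)
      rw [h]
    · rintro ⟨b, hb, rfl⟩
      rw [Finset.mem_coe, Finset.mem_filter] at hb
      refine ⟨b.2, ?_⟩
      have hb2 : ∀ i j, matK ρ τ u b.1 i (some j) = T i (some j) := fun i j =>
        congrFun hb.2 (i, j)
      funext i j
      cases j with
      | some j => exact hb2 i j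
      | none =>
        have h1 := mat_row hB ρ hτ hs hu b.2 i
        have h2 := hT i
        rw [Fintype.sum_option] at h1 h2
        rw [Finset.sum_congr rfl fun j _ => hb2 i j] at h1
        exact add_right_cancel (h1.trans h2.symm)
  rw [e1, Set.ncard_image_of_injective _ Subtype.val_injective, Set.ncard_coe_finset]
  have e2 : (VK w s N).ncard = Fintype.card A := by
    rw [← Nat.card_coe_set_eq, ← Nat.card_eq_fintype_card]
    rfl
  have e3 : Fintype.card A = ∑ y : s × s → ZMod 2,
      (Finset.univ.filter fun a : A => φ a = y).card := by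
    rw [← Finset.card_univ]
    exact Finset.card_eq_sum_card_fiberwise fun _ _ => Finset.mem_coe.2 (Finset.mem_univ _)
  rw [e2, e3, Finset.sum_congr rfl fun y _ =>
    AddMonoidHom.card_fiber_eq_of_mem_range φ (hφ y) (hφ T'), Finset.sum_const, smul_eq_mul,
    Finset.card_univ, Fintype.card_fun, ZMod.card, Fintype.card_prod, Fintype.card_coe, mul_comm,
    sq]

end Pool.Agent.H467.GK.Eqk
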