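import Pool.Agent.H467.GK.Spec

/-!
# Project GK: finitely many points if doubling is bijective
-/

set_option autoImplicit false
set_option linter.all false

open Polynomial IsDedekindDomain WeierstrassCurve WeierstrassCurve.Affine WithZero
open Pool.Agent.H467.CT (Std)
open scoped Classical nonZeroDivisors

namespace Pool.Agent.H467.GK.Fink

section cls

variable {O K : Type} [CommRing O] [IsDedekindDomain O] [Field K] [Algebra O K]
  [IsFractionRing O K]

theorem am_inj : Function.Injective (algebraMap O K) := IsFractionRing.injective O K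

theorem am_ne {p : O} (hp : p ≠ 0) : algebraMap O K p ≠ 0 := by
  intro h
  rw [← map_zero (algebraMap O K)] at h
  exact hp (am_inj h)

/-- Every element is a quotient `A / D` such that a fixed `c` is a combination of `A` and `D`. -/
theorem rep [Finite (ClassGroup O)] : ∃ c : O, c ≠ 0 ∧ ∀ x : K, ∃ A D u v : O, D ≠ 0 ∧
    x * algebraMap O K D = algebraMap O K A ∧ c = u * A + v * D := by
  have h1 : ∀ γ : ClassGroup O, ∃ J : (Ideal O)⁰, ClassGroup.mk0 J = γ :=
    ClassGroup.mk0_surjective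
  choose J hJ using h1
  have h2 : ∀ γ, ∃ c : O, c ∈ (J γ : Ideal O) ∧ c ≠ 0 := by
    intro γ
    have h := nonZeroDivisors.ne_zero (J γ).2
    exact Submodule.exists_mem_ne_zero_of_ne_bot h
  choose c hc hc0 using h2
  haveI := Fintype.ofFinite (ClassGroup O)
  refine ⟨∏ γ, c γ, Finset.prod_ne_zero_iff.2 fun γ _ => hc0 γ, fun x => ?_⟩
  obtain ⟨A0, D0, hD0, hx⟩ := IsFractionRing.div_surjective (A := O) x
  have hD0' : D0 ≠ 0 := nonZeroDivisors.ne_zero hD0
  set I : Ideal O := Ideal.span {A0, D0} with hI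
  have hDI : D0 ∈ I := Ideal.subset_span (by simp)
  have hAI : A0 ∈ I := Ideal.subset_span (by simp)
  have hI0 : I ≠ 0 := by
    intro h
    rw [h] at hDI
    exact hD0' ((Submodule.mem_bot O).1 hDI)
  set I' : (Ideal O)⁰ := ⟨I, mem_nonZeroDivisors_of_ne_zero hI0⟩ with hI'
  set γ := ClassGroup.mk0 I' with hγ
  have h3 : ClassGroup.mk0 I' = ClassGroup.mk0 (J γ) := by rw [hJ]
  obtain ⟨y, z, hy, hz, hyz⟩ := (ClassGroup.mk0_eq_mk0_iff).1 h3
  have hyz' : Ideal.span {y} * I = Ideal.span {z} * (J γ : Ideal O) := hyz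
  have hA : y * A0 ∈ Ideal.span {z} * (J γ : Ideal O) := by
    rw [← hyz']
    exact Ideal.mul_mem_mul (Ideal.mem_span_singleton_self y) hAI
  have hD : y * D0 ∈ Ideal.span {z} * (J γ : Ideal O) := by
    rw [← hyz']
    exact Ideal.mul_mem_mul (Ideal.mem_span_singleton_self y) hDI
  obtain ⟨A, hAJ, hAe⟩ := Ideal.mem_span_singleton_mul.1 hA
  obtain ⟨D, hDJ, hDe⟩ := Ideal.mem_span_singleton_mul.1 hD
  have hcJ : ∏ γ, c γ ∈ (J γ : Ideal O) := by
    rw [← Finset.mul_prod_erase Finset.univ c (Finset.mem_univ γ)]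
    exact Ideal.mul_mem_right _ _ (hc γ)
  have h4 : z * ∏ γ, c γ ∈ Ideal.span {y} * I := by
    rw [hyz']
    exact Ideal.mul_mem_mul (Ideal.mem_span_singleton_self z) hcJ
  obtain ⟨e, heI, hee⟩ := Ideal.mem_span_singleton_mul.1 h4
  rw [hI, Ideal.mem_span_pair] at heI
  obtain ⟨u, v, huv⟩ := heI
  refine ⟨A, D, u, v, ?_, ?_, ?_⟩
  · rintro rfl
    rw [mul_zero] at hDe
    exact (mul_ne_zero hy hD0') hDe.symm
  · apply mul_left_cancel₀ (am_ne (K := K) hz)
    have e1 : algebraMap O K z * (x * algebraMap O K D) = x * algebraMap O K (z * D) := by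
      rw [map_mul]; ring
    rw [e1, hDe, ← map_mul, hAe, map_mul, map_mul, ← hx]
    have := am_ne (K := K) hD0'
    field_simp
  · apply mul_left_cancel₀ hz
    have e2 : z * (u * A + v * D) = u * (z * A) + v * (z * D) := by ring
    rw [e2, hAe, hDe, ← hee, ← huv]
    ring

end cls

section height

variable {O K : Type} [CommRing O] [IsDedekindDomain O] [Field K] [Algebra O K]
  [IsFractionRing O K] (w : Vl K)

/-- logarithmic size -/
noncomputable def lw (x : O) : ℕ := (log (w (algebraMap O K x))).toNat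

theorem lw_zero : lw w (0 : O) = 0 := by
  unfold lw
  simp

theorem lw_eq (hge : ∀ x : O, x ≠ 0 → 1 ≤ w (algebraMap O K x)) {x : O} (hx : x ≠ 0) :
    w (algebraMap O K x) = exp (lw w x : ℤ) := by
  have h0 : w (algebraMap O K x) ≠ 0 := (Valuation.ne_zero_iff _).2 (am_ne hx)
  have h1 : 0 ≤ log (w (algebraMap O K x)) := by
    have h2 := hge x hx
    rw [← exp_log h0, ← exp_zero, exp_le_exp] at h2
    exact h2
  unfold lw
  rw [Int.toNat_of_nonneg h1, exp_log h0]

theorem le_lw (hge : ∀ x : O, x ≠ 0 → 1 ≤ w (algebraMap O K x)) (x : O) :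
    w (algebraMap O K x) ≤ exp (lw w x : ℤ) := by
  by_cases hx : x = 0
  · subst hx
    simp
  · exact (lw_eq w hge hx).le

theorem lw_le (hge : ∀ x : O, x ≠ 0 → 1 ≤ w (algebraMap O K x)) {x : O} {n : ℕ}
    (h : w (algebraMap O K x) ≤ exp (n : ℤ)) : lw w x ≤ n := by
  by_cases hx : x = 0
  · subst hx
    rw [lw_zero]
    exact Nat.zero_le _
  · rw [lw_eq w hge hx, exp_le_exp] at h
    exact_mod_cast h

theorem lw_mul (hge : ∀ x : O, x ≠ 0 → 1 ≤ w (algebraMap O K x)) {x y : O} (hx : x ≠ 0)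
    (hy : y ≠ 0) : lw w (x * y) = lw w x + lw w y := by
  have h1 := lw_eq w hge (mul_ne_zero hx hy)
  rw [map_mul, map_mul, lw_eq w hge hx, lw_eq w hge hy, ← exp_add] at h1
  have h2 := exp_injective h1
  omega

theorem lw_mul_le (hge : ∀ x : O, x ≠ 0 → 1 ≤ w (algebraMap O K x)) (x y : O) :
    lw w (x * y) ≤ lw w x + lw w y := by
  apply lw_le w hge
  rw [map_mul, map_mul]
  have h1 := le_lw w hge x
  have h2 := le_lw w hge y
  have h3 := mul_le_mul' h1 h2
  rw [← exp_add] at h3
  exact_mod_cast h3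

theorem lw_pow (hge : ∀ x : O, x ≠ 0 → 1 ≤ w (algebraMap O K x)) {x : O} (hx : x ≠ 0) (n : ℕ) :
    lw w (x ^ n) = n * lw w x := by
  induction n with
  | zero =>
    have h1 := lw_eq w hge (one_ne_zero (α := O))
    rw [map_one, map_one, ← exp_zero] at h1
    have h2 := exp_injective h1
    rw [pow_zero]
    omega
  | succ n ih =>
    rw [pow_succ, lw_mul w hge (pow_ne_zero n hx) hx, ih]
    ring

theorem lw_sub (hge : ∀ x : O, x ≠ 0 → 1 ≤ w (algebraMap O K x)) (x y : O) :
    lw w (x - y) ≤ max (lw w x) (lw w y) := by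
  apply lw_le w hge
  rw [map_sub]
  refine (Valuation.map_sub w _ _).trans ?_
  apply max_le
  · refine (le_lw w hge x).trans ?_
    rw [exp_le_exp]
    push_cast
    exact le_max_left _ _
  · refine (le_lw w hge y).trans ?_
    rw [exp_le_exp]
    push_cast
    exact le_max_right _ _

theorem fin_lw (hge : ∀ x : O, x ≠ 0 → 1 ≤ w (algebraMap O K x))
    (hfin : ∀ N : ℤ, {x : O | w (algebraMap O K x) ≤ exp N}.Finite) (n : ℕ) :
    {x : O | lw w x ≤ n}.Finite := by
  refine (hfin (n : ℤ)).subset fun x hx => ?_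
  have hx' : lw w x ≤ n := hx
  show w (algebraMap O K x) ≤ exp (n : ℤ)
  refine (le_lw w hge x).trans ?_
  rw [exp_le_exp]
  exact_mod_cast hx'

variable (O) in
/-- the height -/
noncomputable def hh (x : K) : ℕ :=
  sInf {n : ℕ | ∃ A D : O, D ≠ 0 ∧ x * algebraMap O K D = algebraMap O K A ∧
    lw w A ≤ n ∧ lw w D ≤ n}

theorem hh_spec (x : K) : ∃ A D : O, D ≠ 0 ∧ x * algebraMap O K D = algebraMap O K A ∧
    lw w A ≤ hh O w x ∧ lw w D ≤ hh O w x := by
  have hne : {n : ℕ | ∃ A D : O, D ≠ 0 ∧ x * algebraMap O K D = algebraMap O K A ∧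
    lw w A ≤ n ∧ lw w D ≤ n}.Nonempty := by
    obtain ⟨A, D, hD, hx⟩ := IsFractionRing.div_surjective (A := O) x
    have hD' : D ≠ 0 := nonZeroDivisors.ne_zero hD
    refine ⟨max (lw w A) (lw w D), A, D, hD', ?_, le_max_left _ _, le_max_right _ _⟩
    rw [← hx]
    exact div_mul_cancel₀ _ (am_ne hD')
  exact Nat.sInf_mem hne

theorem hh_le {x : K} {A D : O} (hD : D ≠ 0) (hx : x * algebraMap O K D = algebraMap O K A) :
    hh O w x ≤ max (lw w A) (lw w D) :=
  Nat.sInf_le ⟨A, D, hD, hx, le_max_left _ _, le_max_right _ _⟩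

theorem fin_hh (hge : ∀ x : O, x ≠ 0 → 1 ≤ w (algebraMap O K x))
    (hfin : ∀ N : ℤ, {x : O | w (algebraMap O K x) ≤ exp N}.Finite) (n : ℕ) :
    {x : K | hh O w x ≤ n}.Finite := by
  have h := hh_spec (O := O) w
  choose A D hD hx hA hD' using h
  refine Set.Finite.of_finite_image (f := fun x : K => (A x, D x))
    (((fin_lw w hge hfin n).prod (fin_lw w hge hfin n)).subset ?_) ?_
  · rintro _ ⟨x, hxn, rfl⟩
    have hx' : hh O w x ≤ n := hxn
    exact ⟨show lw w (A x) ≤ n from (hA x).trans hx', show lw w (D x) ≤ n from (hD' x).trans hx'⟩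
  · intro x _ y _ hxy
    have h1 := congrArg Prod.fst hxy
    have h2 := congrArg Prod.snd hxy
    dsimp only at h1 h2
    have h3 := hx x
    have h4 := hx y
    rw [h1, h2, ← h4] at h3
    exact mul_right_cancel₀ (am_ne (hD y)) h3

/-- the key estimate -/
theorem key [Finite (ClassGroup O)] (hge : ∀ x : O, x ≠ 0 → 1 ≤ w (algebraMap O K x)) (b : K)
    (hb : b ≠ 0) : ∃ C : ℕ, ∀ x X : K, x ≠ 0 →
    X * x ^ 2 = x ^ 4 + b → 4 * hh O w x ≤ hh O w X + C := by
  obtain ⟨c, hc0, hc⟩ := rep (O := O) (K := K)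
  obtain ⟨B, G, hG, hbG'⟩ := IsFractionRing.div_surjective (A := O) b
  have hG0 : G ≠ 0 := nonZeroDivisors.ne_zero hG
  have hbG : b * algebraMap O K G = algebraMap O K B := by
    rw [← hbG']
    exact div_mul_cancel₀ _ (am_ne hG0)
  have hB0 : B ≠ 0 := by
    rintro rfl
    rw [map_zero] at hbG
    rcases mul_eq_zero.1 hbG with h | h
    · exact hb h
    · exact am_ne hG0 h
  set c' : O := B * G ^ 2 * c ^ 11 with hc'
  have hc'0 : c' ≠ 0 := mul_ne_zero (mul_ne_zero hB0 (pow_ne_zero 2 hG0)) (pow_ne_zero 11 hc0)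
  refine ⟨lw w c' + lw w B + lw w G, fun x X hx hX => ?_⟩
  obtain ⟨f, g, u, v, hg0, hxg, huv⟩ := hc x
  have hf0 : f ≠ 0 := by
    rintro rfl
    rw [map_zero] at hxg
    rcases mul_eq_zero.1 hxg with h | h
    · exact hx h
    · exact am_ne hg0 h
  set A : O := G * f ^ 4 + B * g ^ 4 with hA
  set D : O := G * f ^ 2 * g ^ 2 with hD
  have hD0 : D ≠ 0 := mul_ne_zero (mul_ne_zero hG0 (pow_ne_zero 2 hf0)) (pow_ne_zero 2 hg0)
  have hXA : X * algebraMap O K D = algebraMap O K A := by
    rw [hD, hA]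
    simp only [map_mul, map_add, map_pow]
    rw [← hxg, ← hbG]
    linear_combination (algebraMap O K G) * (algebraMap O K g) ^ 4 * hX
  have i1 : G * f ^ 2 * A - B * g ^ 2 * D = G ^ 2 * f ^ 6 := by
    rw [hA, hD]
    ring
  have i2 : g ^ 2 * A - f ^ 2 * D = B * g ^ 6 := by
    rw [hA, hD]
    ring
  -- `c'` is a combination of `A` and `D`
  have h1 : c ^ 11 ∈ Ideal.span {f ^ 6, g ^ 6} := by
    rw [huv]
    refine Ideal.add_pow_mem_of_pow_mem_of_le _ (m := 6) (n := 6) ?_ ?_ (by norm_num)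
    · rw [mul_pow]
      exact Ideal.mul_mem_left _ _ (Ideal.subset_span (by simp))
    · rw [mul_pow]
      exact Ideal.mul_mem_left _ _ (Ideal.subset_span (by simp))
  rw [Ideal.mem_span_pair] at h1
  obtain ⟨p, q, hpq⟩ := h1
  obtain ⟨r, s, hrs⟩ : ∃ r s : O, c' = r * A + s * D := by
    refine ⟨p * B * (G * f ^ 2) + q * G ^ 2 * g ^ 2, -(p * B * (B * g ^ 2)) - q * G ^ 2 * f ^ 2, ?_⟩
    rw [hc', ← hpq]
    linear_combination (-(p * B)) * i1 - q * G ^ 2 * i2
  obtain ⟨N, M, hM0, hXM, hN, hM⟩ := hh_spec (O := O) w X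
  have e1 : N * D = A * M := by
    apply am_inj (K := K)
    rw [map_mul (algebraMap O K) N D, map_mul (algebraMap O K) A M, ← hXM, ← hXA]
    ring
  set e : O := r * N + s * M with he
  have e2 : c' * M = D * e := by
    rw [hrs, he]
    linear_combination (-r) * e1
  have e3 : c' * N = A * e := by
    rw [hrs, he]
    linear_combination (s) * e1
  have he0 : e ≠ 0 := by
    intro h
    rw [h, mul_zero] at e2
    exact mul_ne_zero hc'0 hM0 e2
  have b2 : lw w D ≤ lw w c' + hh O w X := by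
    have h2 : lw w D + lw w e = lw w c' + lw w M := by
      rw [← lw_mul w hge hD0 he0, ← lw_mul w hge hc'0 hM0, e2]
    omega
  have b3 : lw w A ≤ lw w c' + hh O w X := by
    by_cases hA0 : A = 0
    · rw [hA0, lw_zero]
      exact Nat.zero_le _
    · have hN0 : N ≠ 0 := by
        rintro h
        rw [h, mul_zero] at e3
        exact mul_ne_zero hA0 he0 e3.symm
      have h2 : lw w A + lw w e = lw w c' + lw w N := by
        rw [← lw_mul w hge hA0 he0, ← lw_mul w hge hc'0 hN0, e3]
      omega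
  have h4 : hh O w x ≤ max (lw w f) (lw w g) := hh_le w hg0 hxg
  rcases le_total (lw w g) (lw w f) with hle | hle
  · rw [max_eq_left hle] at h4
    have e4 : lw w (G ^ 2 * f ^ 6) = 2 * lw w G + 6 * lw w f := by
      rw [lw_mul w hge (pow_ne_zero 2 hG0) (pow_ne_zero 6 hf0), lw_pow w hge hG0,
        lw_pow w hge hf0]
    have e5 : lw w (G * f ^ 2 * A - B * g ^ 2 * D) ≤
        max (lw w G + 2 * lw w f + lw w A) (lw w B + 2 * lw w g + lw w D) := by
      refine (lw_sub w hge _ _).trans (max_le_max ?_ ?_)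
      · refine (lw_mul_le w hge _ _).trans (Nat.add_le_add_right ((lw_mul_le w hge _ _).trans ?_) _)
        rw [lw_pow w hge hf0]
      · refine (lw_mul_le w hge _ _).trans (Nat.add_le_add_right ((lw_mul_le w hge _ _).trans ?_) _)
        rw [lw_pow w hge hg0]
    rw [i1, e4] at e5
    rcases max_cases (lw w G + 2 * lw w f + lw w A) (lw w B + 2 * lw w g + lw w D) with
      ⟨e6, -⟩ | ⟨e6, -⟩ <;> rw [e6] at e5 <;> omega
  · rw [max_eq_right hle] at h4
    have e4 : lw w (B * g ^ 6) = lw w B + 6 * lw w g := by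
      rw [lw_mul w hge hB0 (pow_ne_zero 6 hg0), lw_pow w hge hg0]
    have e5 : lw w (g ^ 2 * A - f ^ 2 * D) ≤
        max (2 * lw w g + lw w A) (2 * lw w f + lw w D) := by
      refine (lw_sub w hge _ _).trans (max_le_max ?_ ?_)
      · refine (lw_mul_le w hge _ _).trans (Nat.add_le_add_right ?_ _)
        rw [lw_pow w hge hg0]
      · refine (lw_mul_le w hge _ _).trans (Nat.add_le_add_right ?_ _)
        rw [lw_pow w hge hf0]
    rw [i2, e4] at e5
    rcases max_cases (2 * lw w g + lw w A) (2 * lw w f + lw w D) with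
      ⟨e6, -⟩ | ⟨e6, -⟩ <;> rw [e6] at e5 <;> omega

end height

section pts

variable {O K : Type} [CommRing O] [IsDedekindDomain O] [Field K] [CharP K 2] [Algebra O K]
  [IsFractionRing O K] (w : Vl K) {W : Affine K} {a b : K}

variable (O) in
/-- the height of a point -/
noncomputable def ht : W.Point → ℕ
  | .zero => 0
  | .some x _ _ => hh O w x

theorem fin_ht (hge : ∀ x : O, x ≠ 0 → 1 ≤ w (algebraMap O K x))
    (hfin : ∀ N : ℤ, {x : O | w (algebraMap O K x) ≤ exp N}.Finite) (h : Std W a b) (n : ℕ) :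
    {P : W.Point | ht O w P ≤ n}.Finite := by
  -- for every abscissa finitely many points
  have h1 : ∀ x : K, {P : W.Point | ∃ y hn, P = Point.some x y hn}.Finite := by
    intro x
    by_cases hne : ∃ y, W.Nonsingular x y
    · obtain ⟨y0, hy0⟩ := hne
      have h2 : {y : K | W.Nonsingular x y} ⊆ {y0, y0 + x} := by
        intro y hy
        rcases h.cases_x hy hy0 with e | e
        · exact Or.inl e
        · exact Or.inr e
      have h3 : {y : K | W.Nonsingular x y}.Finite := (Set.toFinite {y0, y0 + x}).subset h2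
      refine Set.Finite.of_finite_image (f := fun P : W.Point => match P with
        | .zero => (0 : K)
        | .some _ y _ => y) (h3.subset ?_) ?_
      · rintro _ ⟨P, ⟨y, hn, rfl⟩, rfl⟩
        exact hn
      · rintro P ⟨y, hn, rfl⟩ Q ⟨y', hn', rfl⟩ hPQ
        dsimp only at hPQ
        subst hPQ
        rfl
    · have h0 : {P : W.Point | ∃ y hn, P = Point.some x y hn} = ∅ := by
        rw [Set.eq_empty_iff_forall_notMem]
        rintro P ⟨y, hn, rfl⟩
        exact hne ⟨y, hn⟩
      rw [h0]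
      exact Set.finite_empty
  have h2 : {P : W.Point | ht O w P ≤ n} ⊆
      {0} ∪ ⋃ x ∈ {x : K | hh O w x ≤ n}, {P : W.Point | ∃ y hn, P = Point.some x y hn} := by
    intro P hP
    rcases P with _ | ⟨x, y, hn⟩
    · left
      rfl
    · right
      rw [Set.mem_iUnion₂]
      exact ⟨x, hP, y, hn, rfl⟩
  refine Set.Finite.subset ?_ h2
  exact (Set.finite_singleton _).union ((fin_hh w hge hfin n).biUnion fun x _ => h1 x)

theorem main [Finite (ClassGroup O)] (hge : ∀ x : O, x ≠ 0 → 1 ≤ w (algebraMap O K x))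
    (hfin : ∀ N : ℤ, {x : O | w (algebraMap O K x) ≤ exp N}.Finite) (h : Std W a b)
    (hsurj : ∀ P : W.Point, ∃ Q, Q + Q = P) (hker : ∀ P : W.Point, P + P = 0 → P = 0) :
    Finite W.Point := by
  have h2 : (2 : K) = 0 := CharTwo.two_eq_zero
  obtain ⟨C, hC⟩ := key (O := O) w hge b h.b0
  -- the abscissa of an affine point is not zero
  have hx0 : ∀ x y (hn : W.Nonsingular x y), x ≠ 0 := by
    rintro x y hn rfl
    have h3 := h.opp (x := 0) (y := y) (by rw [add_zero]; exact hn) hn
    have h4 : (Point.some 0 (y + 0) (by rw [add_zero]; exact hn) : W.Point) =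
        Point.some 0 y hn := by
      congr 1
      rw [add_zero]
    rw [h4] at h3
    have h5 := hker _ h3
    exact Point.some_ne_zero hn h5
  -- the height inequality
  have hkey : ∀ P : W.Point, 4 * ht O w P ≤ ht O w (P + P) + C := by
    intro P
    rcases P with _ | ⟨x, y, hn⟩
    · show 4 * 0 ≤ _
      omega
    · have hx := hx0 x y hn
      have hl : (x ^ 2 + y) / x * x = x ^ 2 + y := div_mul_cancel₀ _ hx
      set l := (x ^ 2 + y) / x with hldef
      obtain ⟨n1, e1⟩ := h.tang hn hx hl rfl rfl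
      rw [e1]
      show 4 * hh O w x ≤ hh O w _ + C
      apply hC x _ hx
      have e := h.eq_of hn
      linear_combination (l * x + x ^ 2 + y + x) * hl + e + (x ^ 2 * y + a * x ^ 2 + x ^ 3) * h2
  have hinj : Function.Injective fun P : W.Point => P + P := by
    intro P Q hPQ
    dsimp only at hPQ
    have h3 : (P - Q) + (P - Q) = 0 := by
      rw [sub_add_sub_comm, hPQ, sub_self]
    exact sub_eq_zero.1 (hker _ h3)
  set B0 : Set W.Point := {P | ht O w P ≤ C} with hB0
  have hfin : B0.Finite := fin_ht w hge hfin h C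
  have hsub : (fun P : W.Point => P + P) ⁻¹' B0 ⊆ B0 := by
    intro P hP
    have h3 := hkey P
    have h4 : ht O w (P + P) ≤ C := hP
    show ht O w P ≤ C
    omega
  have heq : (fun P : W.Point => P + P) ⁻¹' B0 = B0 := by
    refine Set.eq_of_subset_of_ncard_le hsub ?_ hfin
    rw [Set.ncard_preimage_of_injective_subset_range hinj]
    intro P _
    obtain ⟨Q, hQ⟩ := hsurj P
    exact ⟨Q, hQ⟩
  have hall : ∀ n : ℕ, ∀ P : W.Point, ht O w P = n → P ∈ B0 := by
    intro n
    induction n using Nat.strong_induction_on with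
    | _ n ih =>
      intro P hP
      by_cases hc : ht O w P ≤ C
      · exact hc
      · obtain ⟨Q, hQ⟩ := hsurj P
        have h3 := hkey Q
        rw [hQ] at h3
        have h4 : Q ∈ B0 := ih (ht O w Q) (by omega) Q rfl
        rw [← heq] at h4
        have h5 : Q + Q ∈ B0 := h4
        rwa [hQ] at h5
  have huniv : B0 = Set.univ := Set.eq_univ_of_forall fun P => hall _ P rfl
  rw [huniv] at hfin
  exact Set.finite_univ_iff.1 hfin

end pts

theorem fink : S_FINK := by
  intro k K₀ K O _ _ _ _ _ _ _ _ _ _ _ _ _ _ _ _ _ _ _ w hw hF hch W a b h hsurj hker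
  haveI := hch
  haveI : Fintype k := Fintype.ofFinite k
  haveI : Finite (ClassGroup O) := by
    haveI := ClassGroup.fintypeOfAdmissibleOfFinite (S := O) K₀ K
      (Polynomial.cardPowDegreeIsAdmissible :
        AbsoluteValue.IsAdmissible (Polynomial.cardPowDegree : AbsoluteValue k[X] ℤ))
    exact Finite.of_fintype _
  exact main w hF.ge_one hF.fin h hsurj hker

end Pool.Agent.H467.GK.Fink
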