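import Pool.Agent.H467.GK.Spec

/-!
# Completions of a field with a discrete valuation (project GK of helper467)
-/

set_option autoImplicit false
set_option linter.all false

open Polynomial IsDedekindDomain WithZero Filter Topology
open Pool.Agent.H467.CT (AS)

namespace Pool.Agent.H467.GK.Hen

section gen

variable {L : Type} [Field L] [hv : Valued L (WithZero (Multiplicative ℤ))]

theorem nonarch (L : Type) [Field L] [hv : Valued L (WithZero (Multiplicative ℤ))] :
    NonarchimedeanAddGroup L where
  is_nonarchimedean := by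
    intro U hU
    obtain ⟨γ, hγ⟩ := Valued.mem_nhds_zero.1 hU
    exact ⟨⟨(Valued.v (R := L)).restrict.ltAddSubgroup γ, Valued.isOpen_ball L γ.1⟩, hγ⟩

/-- In characteristic two the series `∑ x ^ (2 ^ i)` converges. -/
theorem as_lim [CompleteSpace L] [CharP L 2] (x : L) (hx : Valued.v x < 1) :
    ∃ z : L, x = z ^ 2 + z := by
  have hna := nonarch L
  have hT2 : T2Space L := by infer_instance
  have h1 : Tendsto (fun i : ℕ => x ^ (2 ^ i)) cofinite (𝓝 0) := by
    rw [Nat.cofinite_eq_atTop]
    exact (Valued.tendsto_zero_pow_of_v_lt_one hx).comp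
      (tendsto_pow_atTop_atTop_of_one_lt (by norm_num))
  have h2 : Summable (fun i : ℕ => x ^ (2 ^ i)) :=
    NonarchimedeanAddGroup.summable_of_tendsto_cofinite_zero h1
  have h3 := h2.tsum_eq_zero_add
  have hfr : Continuous (frobenius L 2) := continuous_pow 2
  have h4 := h2.map_tsum (frobenius L 2) hfr
  have h5 : (∑' i : ℕ, x ^ (2 ^ i)) ^ 2 = ∑' i : ℕ, x ^ (2 ^ (i + 1)) := by
    rw [frobenius_def] at h4
    rw [h4]
    refine tsum_congr fun i => ?_
    rw [frobenius_def, ← pow_mul, pow_succ]
  rw [pow_zero, pow_one, ← h5] at h3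
  refine ⟨∑' i : ℕ, x ^ (2 ^ i), ?_⟩
  have h6 := CharTwo.add_self_eq_zero ((∑' i : ℕ, x ^ (2 ^ i)) ^ 2)
  linear_combination -h3 - h6

end gen

variable {K : Type} [Field K]

theorem vc_alg (u : Vl K) (x : K) : vc u (algebraMap K (Cm u) x) = u x :=
  Valued.valuedCompletion_apply (K := WithVal u) ((WithVal.equiv u).symm x)

theorem dense_vc (u : Vl K) (x : Cm u) {g : K} (hg : g ≠ 0) :
    ∃ f : K, vc u (x - algebraMap K (Cm u) f) < vc u (algebraMap K (Cm u) g) := by
  let x' : u.Completion := x
  let g' : u.Completion := algebraMap K (Cm u) g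
  have hg' : g' ≠ 0 := (_root_.map_ne_zero (algebraMap K (Cm u))).2 hg
  have h1 : {y : u.Completion | (Valued.v (R := u.Completion)).restrict (y - x') <
      (Units.mk0 ((Valued.v (R := u.Completion)).restrict g') (by simpa using hg')).1} ∈
      𝓝 x' := by
    rw [Valued.mem_nhds]
    exact ⟨_, subset_rfl⟩
  obtain ⟨f, hf⟩ := UniformSpace.Completion.denseRange_coe.mem_nhds h1
  refine ⟨WithVal.equiv u f, ?_⟩
  have h2 : (Valued.v (R := u.Completion)).restrict ((f : u.Completion) - x') <
    (Valued.v (R := u.Completion)).restrict g' := hf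
  rw [Valuation.restrict_lt_iff, Valuation.map_sub_swap] at h2
  exact h2

theorem hen : S_HEN := by
  intro K _ _ u _
  refine ⟨vc_alg u, ?_, fun x g hg => dense_vc u x hg⟩
  intro x hx
  have hc : CharP (Cm u) 2 := charP_of_injective_algebraMap (algebraMap K (Cm u)).injective 2
  have hc' : CharP u.Completion 2 := hc
  exact as_lim (L := u.Completion) x hx

end Pool.Agent.H467.GK.Hen
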