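import Pool.Agent.H467.GK.Spec
import Pool.Agent.H467.CT.Nrm

/-!
# Project GK: the part `S_INFB`, basic facts on the place at infinity
-/

set_option autoImplicit false
set_option linter.all false

open Polynomial WithZero
open scoped Classical

namespace Pool.Agent.H467.GK.Infb

section abs

variable {k K₀ K : Type} [Field k] [Finite k] [Field K₀]
  [Algebra k[X] K₀] [IsFractionRing k[X] K₀] [Field K] [Algebra K₀ K] [FiniteDimensional K₀ K]

/-- scaling and minimal polynomials -/
theorem minpoly_scale {c : K₀} (hc : c ≠ 0) (y : K) :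
    minpoly K₀ (algebraMap K₀ K c * y) = (minpoly K₀ y).scaleRoots c := by
  have h1 : ∀ (c : K₀) (y : K), c ≠ 0 →
      (minpoly K₀ (algebraMap K₀ K c * y)).natDegree ≤ (minpoly K₀ y).natDegree := by
    intro c y hc
    have hm : ((minpoly K₀ y).scaleRoots c).Monic :=
      (monic_scaleRoots_iff c).2 (minpoly.monic (Algebra.IsIntegral.isIntegral y))
    have h := minpoly.min K₀ (algebraMap K₀ K c * y) hm
      (scaleRoots_aeval_eq_zero (minpoly.aeval K₀ y))
    have h2 := natDegree_le_natDegree h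
    rwa [natDegree_scaleRoots] at h2
  have hm : ((minpoly K₀ y).scaleRoots c).Monic :=
    (monic_scaleRoots_iff c).2 (minpoly.monic (Algebra.IsIntegral.isIntegral y))
  symm
  apply eq_of_monic_of_dvd_of_natDegree_le
    (minpoly.monic (Algebra.IsIntegral.isIntegral (algebraMap K₀ K c * y))) hm
    (minpoly.dvd K₀ _ (scaleRoots_aeval_eq_zero (minpoly.aeval K₀ y)))
  rw [natDegree_scaleRoots]
  have h3 := h1 c⁻¹ (algebraMap K₀ K c * y) (inv_ne_zero hc)
  rwa [← mul_assoc, ← map_mul, inv_mul_cancel₀ hc, map_one, one_mul] at h3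

theorem finite_deg (D : ℕ) : {p : k[X] | p.natDegree ≤ D}.Finite := by
  have h : {p : k[X] | p.natDegree ≤ D} ⊆
      Set.range (fun c : Fin (D + 1) → k => ∑ i : Fin (D + 1), monomial (i : ℕ) (c i)) := by
    intro p hp
    refine ⟨fun i => p.coeff i, ?_⟩
    have hp' : p.natDegree < D + 1 := Nat.lt_succ_of_le hp
    show ∑ i : Fin (D + 1), monomial (i : ℕ) (p.coeff i) = p
    rw [Fin.sum_univ_eq_sum_range (fun i => monomial i (p.coeff i)) (D + 1)]
    exact (p.as_sum_range' (D + 1) hp').symm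
  exact (Set.finite_range _).subset h

variable (v : Valuation K₀ (WithZero (Multiplicative ℤ)))
  (hv : ∀ p : k[X], p ≠ 0 → v (algebraMap k[X] K₀ p) = exp (p.natDegree : ℤ))
  (w : Valuation K (WithZero (Multiplicative ℤ)))
  (hw : ∀ x : K, w x ≤ 1 ↔ ∀ i : ℕ, v ((minpoly K₀ x).coeff i) ≤ 1)

include hw in
theorem base_abs (f : K₀) : w (algebraMap K₀ K f) ≤ 1 ↔ v f ≤ 1 := by
  rw [hw, minpoly.eq_X_sub_C]
  constructor
  · intro h
    have := h 0
    simpa using this
  · intro h i
    rw [coeff_sub, coeff_X, coeff_C]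
    refine (Valuation.map_sub _ _ _).trans (max_le ?_ ?_)
    · split_ifs <;> simp
    · split_ifs
      · exact h
      · simp

theorem nat_le (n : ℕ) : v (n : K₀) ≤ 1 := by
  induction n with
  | zero => simp
  | succ n ih =>
    push_cast
    exact (Valuation.map_add _ _ _).trans (max_le ih (by simp))

include hw in
theorem tr_abs (x : K) (hx : w x ≤ 1) : v (Algebra.trace K₀ K x) ≤ 1 := by
  rw [trace_eq_finrank_mul_minpoly_nextCoeff, map_mul]
  refine mul_le_one' (nat_le v _) ?_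
  rw [Valuation.map_neg, nextCoeff]
  split_ifs
  · simp
  · exact (hw x).1 hx _

include hv hw in
theorem t_gt_abs [Algebra k[X] K] [IsScalarTower k[X] K₀ K] : 1 < w (algebraMap k[X] K X) := by
  rw [← not_le, IsScalarTower.algebraMap_apply k[X] K₀ K, base_abs v w hw, hv X X_ne_zero, not_le,
    ← exp_zero, exp_lt_exp]
  simp

include hv hw in
theorem fin_abs [Algebra k[X] K] [IsScalarTower k[X] K₀ K] (N : ℤ) :
    {x : K | IsIntegral k[X] x ∧ w x ≤ exp N}.Finite := by
  have ht := t_gt_abs v hv w hw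
  have ht0 : w (algebraMap k[X] K X) ≠ 0 := (zero_lt_one.trans ht).ne'
  -- choose the exponent
  obtain ⟨M, hM⟩ : ∃ M : ℕ, exp N ≤ w (algebraMap k[X] K X) ^ M := by
    refine ⟨N.toNat, ?_⟩
    have h1 : exp (1 : ℤ) ≤ w (algebraMap k[X] K X) := by
      rw [← exp_log ht0, exp_le_exp]
      have : (0 : ℤ) < log (w (algebraMap k[X] K X)) := by
        rw [← exp_lt_exp, exp_log ht0, exp_zero]
        exact ht
      omega
    calc exp N ≤ exp ((N.toNat : ℕ) : ℤ) := by rw [exp_le_exp]; exact Int.self_le_toNat N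
      _ = exp (1 : ℤ) ^ N.toNat := by rw [← exp_nsmul]; simp
      _ ≤ _ := pow_le_pow_left₀ zero_le' h1 _
  set n := Module.finrank K₀ K with hn
  refine (bUnion_roots_finite (algebraMap k[X] K) n (finite_deg (k := k) (M * n))).subset ?_
  rintro x ⟨hxi, hx⟩
  rw [Set.mem_iUnion₂]
  have hXne : (algebraMap k[X] K₀ X) ≠ 0 := by
    rw [Ne, map_eq_zero_iff _ (IsFractionRing.injective k[X] K₀)]
    exact X_ne_zero
  set t : K₀ := algebraMap k[X] K₀ X with ht
  have hXK : algebraMap k[X] K X = algebraMap K₀ K t := IsScalarTower.algebraMap_apply k[X] K₀ K X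
  have htK : algebraMap K₀ K t ≠ 0 := by
    rwa [Ne, map_eq_zero_iff _ (algebraMap K₀ K).injective]
  set y : K := (algebraMap K₀ K (t ^ M))⁻¹ * x with hy
  have hxy : x = algebraMap K₀ K (t ^ M) * y := by
    rw [hy, ← mul_assoc, mul_inv_cancel₀, one_mul]
    rw [map_pow]
    exact pow_ne_zero _ htK
  have hwy : w y ≤ 1 := by
    rw [hy, map_mul, map_inv₀, map_pow, map_pow, ← hXK]
    calc _ ≤ (w (algebraMap k[X] K X) ^ M)⁻¹ * w (algebraMap k[X] K X) ^ M :=
          mul_le_mul_right (hx.trans hM) _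
      _ = 1 := inv_mul_cancel₀ (pow_ne_zero _ ht0)
  have hmin : minpoly K₀ x = (minpoly K₀ y).scaleRoots (t ^ M) := by
    conv_lhs => rw [hxy]
    exact minpoly_scale (pow_ne_zero _ hXne) y
  have hfr : minpoly K₀ x = (minpoly k[X] x).map (algebraMap k[X] K₀) :=
    minpoly.isIntegrallyClosed_eq_field_fractions' K₀ hxi
  have hdeg : (minpoly K₀ x).natDegree ≤ n := minpoly.natDegree_le x
  have hnd : (minpoly k[X] x).natDegree = (minpoly K₀ x).natDegree := by
    rw [hfr, natDegree_map_eq_of_injective (IsFractionRing.injective k[X] K₀)]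
  refine ⟨minpoly k[X] x, ⟨hnd.trans_le hdeg, ?_⟩, ?_⟩
  · intro i
    show ((minpoly k[X] x).coeff i).natDegree ≤ M * n
    by_cases h0 : (minpoly k[X] x).coeff i = 0
    · rw [h0]; simp
    have h1 := hv _ h0
    rw [← coeff_map, ← hfr, hmin, coeff_scaleRoots, map_mul] at h1
    have h2 : v ((minpoly K₀ y).coeff i) ≤ 1 := (hw y).1 hwy i
    have h3 : v ((t ^ M) ^ ((minpoly K₀ y).natDegree - i)) ≤ exp ((M * n : ℕ) : ℤ) := by
      rw [map_pow, map_pow, ht, hv X X_ne_zero, natDegree_X, ← pow_mul, ← exp_nsmul, exp_le_exp]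
      have : (minpoly K₀ y).natDegree - i ≤ n := by
        rw [hmin, natDegree_scaleRoots] at hdeg
        omega
      simp only [Nat.cast_one, nsmul_eq_mul, mul_one]
      exact_mod_cast Nat.mul_le_mul_left M this
    have h4 : exp (((minpoly k[X] x).coeff i).natDegree : ℤ) ≤ exp ((M * n : ℕ) : ℤ) := by
      rw [← h1]
      exact (mul_le_mul' h2 h3).trans_eq (one_mul _)
    rw [exp_le_exp] at h4
    exact_mod_cast h4
  · rw [Finset.mem_coe, Multiset.mem_toFinset, mem_roots', IsRoot.def, eval_map_algebraMap]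
    exact ⟨(minpoly.monic hxi).map _ |>.ne_zero, minpoly.aeval _ _⟩

include hv hw in
theorem ge_one_abs [Algebra k[X] K] [IsScalarTower k[X] K₀ K] (x : K) (hx : IsIntegral k[X] x)
    (h0 : x ≠ 0) : 1 ≤ w x := by
  by_contra hlt
  rw [not_le] at hlt
  have hwx : w x ≠ 0 := by rwa [Ne, Valuation.zero_iff]
  have hinj : Function.Injective (fun j : ℕ => x ^ j) := by
    have h1 : Function.Injective (fun j : ℕ => w x ^ j) := by
      apply StrictAnti.injective
      exact pow_right_strictAnti₀ (zero_lt_iff.2 hwx) hlt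
    intro i j hij
    apply h1
    show w x ^ i = w x ^ j
    rw [← map_pow, ← map_pow]
    exact congrArg w hij
  have hfin := fin_abs v hv w hw 0
  refine Set.infinite_range_of_injective hinj (hfin.subset ?_)
  rintro _ ⟨j, rfl⟩
  refine ⟨hx.pow j, ?_⟩
  show w (x ^ j) ≤ exp 0
  rw [map_pow, exp_zero]
  exact pow_le_one₀ zero_le' hlt.le

include hv in
theorem split_abs (z : K₀) : ∃ p : k[X], v (z - algebraMap k[X] K₀ p) ≤ 1 := by
  obtain ⟨a, b, hb, rfl⟩ := IsFractionRing.div_surjective (A := k[X]) z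
  have hb0 : b ≠ 0 := nonZeroDivisors.ne_zero hb
  have hbK : algebraMap k[X] K₀ b ≠ 0 := by
    rwa [Ne, map_eq_zero_iff _ (IsFractionRing.injective k[X] K₀)]
  refine ⟨a / b, ?_⟩
  have h1 : algebraMap k[X] K₀ a / algebraMap k[X] K₀ b - algebraMap k[X] K₀ (a / b) =
      algebraMap k[X] K₀ (a % b) / algebraMap k[X] K₀ b := by
    have h2 : algebraMap k[X] K₀ a = algebraMap k[X] K₀ b * algebraMap k[X] K₀ (a / b) +
        algebraMap k[X] K₀ (a % b) := by
      rw [← map_mul, ← map_add, EuclideanDomain.div_add_mod]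
    rw [div_sub' hbK, h2]
    ring
  rw [h1, map_div₀]
  by_cases hr : a % b = 0
  · rw [hr]; simp
  rw [hv _ hr, hv _ hb0, div_le_one₀ (by simp)]
  rw [exp_le_exp]
  exact_mod_cast natDegree_le_natDegree (EuclideanDomain.mod_lt a hb0).le

include hv hw in
theorem near_abs [Algebra.IsSeparable K₀ K] [Algebra k[X] K] [IsScalarTower k[X] K₀ K] :
    ∃ N : ℤ, ∀ z : K, ∃ g : K, IsIntegral k[X] g ∧ w (z - g) ≤ exp N := by
  obtain ⟨s, b, hb⟩ := FiniteDimensional.exists_is_basis_integral k[X] K₀ K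
  obtain ⟨N, hN⟩ : ∃ N : ℤ, ∀ i, w (b i) ≤ exp N := by
    obtain ⟨N, hN⟩ := (Set.finite_range (fun i => log (w (b i)))).bddAbove
    refine ⟨N, fun i => ?_⟩
    have hne : w (b i) ≠ 0 := by
      rw [Ne, Valuation.zero_iff]
      exact b.ne_zero i
    rw [← exp_log hne, exp_le_exp]
    exact hN ⟨i, rfl⟩
  refine ⟨N, fun z => ?_⟩
  choose p hp using split_abs (k := k) v hv
  refine ⟨∑ i, algebraMap k[X] K (p (b.repr z i)) * b i, ?_, ?_⟩
  · exact IsIntegral.sum _ fun i _ => (isIntegral_algebraMap).mul (hb i)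
  · have h1 : z - ∑ i, algebraMap k[X] K (p (b.repr z i)) * b i =
        ∑ i, algebraMap K₀ K (b.repr z i - algebraMap k[X] K₀ (p (b.repr z i))) * b i := by
      conv_lhs => rw [← b.sum_repr z]
      rw [← Finset.sum_sub_distrib]
      refine Finset.sum_congr rfl fun i _ => ?_
      rw [b.sum_repr z, map_sub, sub_mul, Algebra.smul_def, IsScalarTower.algebraMap_apply k[X] K₀ K]
    rw [h1]
    refine Valuation.map_sum_le _ fun i _ => ?_
    rw [map_mul]
    exact (mul_le_mul' ((base_abs v w hw _).2 (hp _)) (hN i)).trans_eq (one_mul _)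

end abs


open Pool.Agent.H467.CT (vinf)

theorem infb : S_INFB := by
  intro k K₀ K O _ _ _ _ _ _ _ _ _ _ _ _ _ _ _ _ _ _ _ w hw
  set v : Valuation K₀ (WithZero (Multiplicative ℤ)) :=
    (Pool.Agent.H467.CT.Infg.w k K₀).comap (Pool.Agent.H467.CT.Infg.jj k K₀) with hvdef
  have hv : ∀ p : k[X], p ≠ 0 → v (algebraMap k[X] K₀ p) = exp (p.natDegree : ℤ) :=
    fun p hp => Pool.Agent.H467.CT.Infg.w_s k K₀ hp
  have hvi : ∀ f : K₀, vinf k f = v f := fun f => Pool.Agent.H467.CT.vinf_eq f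
  have hww : ∀ x : K, w x ≤ 1 ↔ ∀ i : ℕ, v ((minpoly K₀ x).coeff i) ≤ 1 := by
    intro x
    rw [hw.iff]
    simp only [hvi]
  have hO : ∀ x : O, IsIntegral k[X] (algebraMap O K x) := fun x =>
    (IsIntegralClosure.isIntegral_iff (A := O)).2 ⟨x, rfl⟩
  refine ⟨?_, ?_, ?_, ?_, ?_, ?_⟩
  · intro f
    rw [hvi]
    exact base_abs v w hww f
  · intro x hx
    rw [hvi]
    exact tr_abs v w hww x hx
  · exact t_gt_abs v hv w hww
  · intro N
    have h := (fin_abs v hv w hww N).preimage (f := algebraMap O K)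
      ((IsFractionRing.injective O K).injOn)
    refine h.subset ?_
    intro x hx
    exact ⟨hO x, hx⟩
  · intro x hx
    refine ge_one_abs v hv w hww _ (hO x) ?_
    rwa [Ne, map_eq_zero_iff _ (IsFractionRing.injective O K)]
  · obtain ⟨N, hN⟩ := near_abs v hv w hww
    refine ⟨N, fun z => ?_⟩
    obtain ⟨g, hg, hz⟩ := hN z
    obtain ⟨g', rfl⟩ := (IsIntegralClosure.isIntegral_iff (A := O)).1 hg
    exact ⟨g', hz⟩

end Pool.Agent.H467.GK.Infb
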