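import Pool.Agent.H467.GK.Spec

/-!
# Residues at the places of `K`

Project GK (helper467), part RESK.
-/

set_option autoImplicit false
set_option linter.all false

open Polynomial IsDedekindDomain WithZero
open Pool.Agent.H467.CT (AS Bas vinf Res IsTau Good Std Ev)
open scoped Classical

namespace Pool.Agent.H467.GK.Resk

section ded

variable {K O : Type} [Field K] [CommRing O] [IsDedekindDomain O] [Algebra O K]
  [IsFractionRing O K]

/-- `g` has the polar part of `f` at `v` and no other pole. -/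
def Ad (v : HeightOneSpectrum O) (f g : K) : Prop :=
  v.valuation K (f - g) ≤ 1 ∧ ∀ v' : HeightOneSpectrum O, v' ≠ v → v'.valuation K g ≤ 1

theorem le_exp (x : WithZero (Multiplicative ℤ)) : ∃ n : ℕ, x ≤ exp (n : ℤ) := by
  rcases eq_or_ne x 0 with rfl | hx
  · exact ⟨0, zero_le'⟩
  · refine ⟨(log x).toNat, ?_⟩
    rw [← exp_log hx, log_exp]
    exact exp_le_exp.2 (Int.self_le_toNat _)

theorem mul_le_one_of {x y : WithZero (Multiplicative ℤ)} {n : ℕ} (hx : x ≤ exp (-(n : ℤ)))
    (hy : y ≤ exp (n : ℤ)) : x * y ≤ 1 := by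
  calc x * y ≤ exp (-(n : ℤ)) * exp (n : ℤ) := mul_le_mul' hx hy
    _ = 1 := by rw [← exp_add]; simp

theorem exists_ad (v : HeightOneSpectrum O) (f : K) : ∃ g, Ad v f g := by
  have hfin : {v' : HeightOneSpectrum O | ¬ v'.valuation K f ≤ 1}.Finite := by
    have := HeightOneSpectrum.Support.finite O f
    refine this.subset ?_
    intro v' hv'
    simpa [HeightOneSpectrum.Support] using hv'
  choose n hn using fun v' : HeightOneSpectrum O => le_exp (v'.valuation K f)
  have hcrt := IsDedekindDomain.exists_forall_sub_mem_ideal (R := O)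
    (s := insert v hfin.toFinset) (fun i => i.asIdeal) n (fun i _ => i.prime)
    (fun i _ j _ hij h => hij (HeightOneSpectrum.ext h))
    (fun i => if i.1 = v then 1 else 0)
  obtain ⟨e, he⟩ := hcrt
  refine ⟨algebraMap O K e * f, ?_, ?_⟩
  · have h1 := he v (Finset.mem_insert_self _ _)
    simp only [if_true] at h1
    rw [← HeightOneSpectrum.intValuation_le_pow_iff_mem] at h1
    have h2 : f - algebraMap O K e * f = - (algebraMap O K (e - 1) * f) := by
      rw [map_sub, map_one]; ring
    rw [h2, Valuation.map_neg, map_mul, HeightOneSpectrum.valuation_of_algebraMap]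
    exact mul_le_one_of h1 (hn v)
  · intro v' hv'
    by_cases h : v'.valuation K f ≤ 1
    · rw [map_mul]
      exact mul_le_one' (v'.valuation_le_one e) h
    · have h1 := he v' (Finset.mem_insert_of_mem (hfin.mem_toFinset.2 h))
      simp only [hv', if_false, sub_zero] at h1
      rw [← HeightOneSpectrum.intValuation_le_pow_iff_mem] at h1
      rw [map_mul, HeightOneSpectrum.valuation_of_algebraMap]
      exact mul_le_one_of h1 (hn v')

/-- A choice of `g`. -/
noncomputable def adp (v : HeightOneSpectrum O) (f : K) : K := (exists_ad v f).choose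

theorem adp_spec (v : HeightOneSpectrum O) (f : K) : Ad v f (adp v f) := (exists_ad v f).choose_spec

theorem Ad.add {v : HeightOneSpectrum O} {f g f' g' : K} (h : Ad v f g) (h' : Ad v f' g') :
    Ad v (f + f') (g + g') := by
  refine ⟨?_, fun v' hv' => ?_⟩
  · have : f + f' - (g + g') = (f - g) + (f' - g') := by ring
    rw [this]
    exact (Valuation.map_add _ _ _).trans (max_le h.1 h'.1)
  · exact (Valuation.map_add _ _ _).trans (max_le (h.2 v' hv') (h'.2 v' hv'))

theorem Ad.smul {v : HeightOneSpectrum O} {f g : K} (h : Ad v f g) (c : O) :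
    Ad v (algebraMap O K c * f) (algebraMap O K c * g) := by
  refine ⟨?_, fun v' hv' => ?_⟩
  · rw [← mul_sub, map_mul]
    exact mul_le_one' (v.valuation_le_one c) h.1
  · rw [map_mul]
    exact mul_le_one' (v'.valuation_le_one c) (h.2 v' hv')

theorem Ad.sq [CharP K 2] {v : HeightOneSpectrum O} {f g : K} (h : Ad v f g) :
    Ad v (f ^ 2) (g ^ 2) := by
  refine ⟨?_, fun v' hv' => ?_⟩
  · have : f ^ 2 - g ^ 2 = (f - g) ^ 2 := by
      rw [sub_pow_char_of_commute]
      exact Commute.all _ _
    rw [this, map_pow]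
    exact pow_le_one' h.1 2
  · rw [map_pow]
    exact pow_le_one' (h.2 v' hv') 2

theorem Ad.zero {v : HeightOneSpectrum O} {f : K} (h : v.valuation K f ≤ 1) : Ad v f 0 := by
  refine ⟨by rwa [sub_zero], fun v' _ => ?_⟩
  rw [map_zero]
  exact zero_le'

end ded

section tower

variable {k K₀ K O : Type} [Field k] [Finite k] [CharP k 2] [Field K₀]
  [Algebra k[X] K₀] [IsFractionRing k[X] K₀] [Field K] [Algebra K₀ K] [FiniteDimensional K₀ K]
  [Algebra.IsSeparable K₀ K] [Algebra k[X] K] [IsScalarTower k[X] K₀ K] [CommRing O]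
  [IsDedekindDomain O] [Algebra O K] [IsFractionRing O K] [Algebra k[X] O]
  [IsScalarTower k[X] O K] [IsIntegralClosure O k[X] K]

theorem trace_int (y : O) : ∃ p : k[X],
    algebraMap k[X] K₀ p = Algebra.trace K₀ K (algebraMap O K y) := by
  have h1 : IsIntegral k[X] (algebraMap O K y) :=
    (IsIntegralClosure.isIntegral k[X] K y).algebraMap
  have h2 : IsIntegral k[X] (Algebra.trace K₀ K (algebraMap O K y)) := Algebra.isIntegral_trace h1
  exact IsIntegrallyClosed.isIntegral_iff.1 h2

omit [FiniteDimensional K₀ K] [Algebra.IsSeparable K₀ K] in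
theorem ri_zero (R : Res k K₀) : R.ri 0 = 0 := by
  have := R.ri_add 0 0
  rw [add_zero] at this
  exact left_eq_add.1 this

theorem ri_poly (R : Res k K₀) (p : k[X]) : R.ri (algebraMap k[X] K₀ p) = 0 := by
  have := R.sum (algebraMap k[X] K₀ p) ∅ (fun v _ => v.valuation_le_one p)
  rw [this, Finset.sum_empty]

theorem ri_trace_int (R : Res k K₀) (x : K) (h : ∀ v : HeightOneSpectrum O, v.valuation K x ≤ 1) :
    R.ri (Algebra.trace K₀ K x) = 0 := by
  obtain ⟨y, hy⟩ := HeightOneSpectrum.mem_integers_of_valuation_le_one K x h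
  obtain ⟨p, hp⟩ := trace_int (K₀ := K₀) (k := k) (K := K) y
  rw [← hy, ← hp, ri_poly]

/-- The residues. -/
noncomputable def rr (R : Res k K₀) : Option (HeightOneSpectrum O) → K → k
  | none, f => R.ri (Algebra.trace K₀ K f)
  | some v, f => R.ri (Algebra.trace K₀ K (adp v f))

theorem rr_eq (R : Res k K₀) {v : HeightOneSpectrum O} {f g : K} (h : Ad v f g) :
    rr R (some v) f = R.ri (Algebra.trace K₀ K g) := by
  have h' := adp_spec v f
  have h1 : R.ri (Algebra.trace K₀ K (adp v f - g)) = 0 := by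
    apply ri_trace_int (O := O)
    intro v'
    by_cases hv' : v' = v
    · subst hv'
      have : adp v' f - g = (f - g) - (f - adp v' f) := by ring
      rw [this]
      exact (Valuation.map_sub _ _ _).trans (max_le h.1 h'.1)
    · exact (Valuation.map_sub _ _ _).trans (max_le (h'.2 v' hv') (h.2 v' hv'))
  have h2 : adp v f = (adp v f - g) + g := by ring
  show R.ri (Algebra.trace K₀ K (adp v f)) = _
  rw [h2, map_add, R.ri_add, h1, zero_add]

theorem rr_sum (R : Res k K₀) (f : K) (s : Finset (HeightOneSpectrum O))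
    (hs : ∀ v, v ∉ s → v.valuation K f ≤ 1) :
    R.ri (Algebra.trace K₀ K f) = ∑ v ∈ s, rr R (some v) f := by
  have h1 : R.ri (Algebra.trace K₀ K (f - ∑ v ∈ s, adp v f)) = 0 := by
    apply ri_trace_int (O := O)
    intro v'
    by_cases hv' : v' ∈ s
    · rw [← Finset.add_sum_erase s _ hv', ← sub_sub]
      refine (Valuation.map_sub _ _ _).trans (max_le (adp_spec v' f).1 ?_)
      refine Valuation.map_sum_le _ (fun v hv => (adp_spec v f).2 v' ?_)
      exact (Finset.ne_of_mem_erase hv).symm
    · refine (Valuation.map_sub _ _ _).trans (max_le (hs v' hv') ?_)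
      refine Valuation.map_sum_le _ (fun v hv => (adp_spec v f).2 v' ?_)
      rintro rfl
      exact hv' hv
  have h3 : ∀ t : Finset (HeightOneSpectrum O), R.ri (Algebra.trace K₀ K (∑ v ∈ t, adp v f)) =
      ∑ v ∈ t, rr R (some v) f := by
    intro t
    induction t using Finset.induction_on with
    | empty => simp [ri_zero]
    | insert a t ha ih =>
      rw [Finset.sum_insert ha, Finset.sum_insert ha, map_add, R.ri_add, ih]
      rfl
  have h2 : f = (f - ∑ v ∈ s, adp v f) + ∑ v ∈ s, adp v f := by ring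
  conv_lhs => rw [h2]
  rw [map_add, R.ri_add, h1, zero_add, h3]

theorem charP_K₀ (k K₀ : Type) [Field k] [CharP k 2] [Field K₀]
    [Algebra k[X] K₀] [IsFractionRing k[X] K₀] : CharP K₀ 2 :=
  charP_of_injective_ringHom (f := (algebraMap k[X] K₀).comp C) (RingHom.injective _) 2

theorem trace_sq [CharP K₀ 2] (x : K) :
    Algebra.trace K₀ K (x ^ 2) = Algebra.trace K₀ K x ^ 2 := by
  haveI : CharP (AlgebraicClosure K₀) 2 :=
    charP_of_injective_ringHom (f := algebraMap K₀ (AlgebraicClosure K₀)) (RingHom.injective _) 2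
  apply (algebraMap K₀ (AlgebraicClosure K₀)).injective
  rw [RingHom.map_pow, trace_eq_sum_embeddings (AlgebraicClosure K₀),
    trace_eq_sum_embeddings (AlgebraicClosure K₀), sum_pow_char]
  exact Finset.sum_congr rfl fun σ _ => map_pow _ _ _

theorem trace_mul_base (x : K) (p : k[X]) : Algebra.trace K₀ K (x * algebraMap k[X] K p) =
    Algebra.trace K₀ K x * algebraMap k[X] K₀ p := by
  rw [IsScalarTower.algebraMap_apply k[X] K₀ K, mul_comm, ← Algebra.smul_def, map_smul,
    smul_eq_mul, mul_comm]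

theorem vinf_mul (f g : K₀) : vinf k (f * g) = vinf k f * vinf k g :=
  map_mul ((Pool.Agent.TH115.GD.pl (0 : k)).valuation (Pool.Agent.TH115.GD.AtInf K₀)) f g

/-- The elements whose only poles are at `v`. -/
def Mv (K : Type) [Field K] [Algebra O K] [IsFractionRing O K] (v : HeightOneSpectrum O) : Set K :=
  {g | ∀ v' : HeightOneSpectrum O, v' ≠ v → v'.valuation K g ≤ 1}

/-- There is an element of `Mv` whose trace is not a polynomial. -/
theorem exists_trace (v : HeightOneSpectrum O) : ∃ g ∈ Mv K v,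
    ¬ ∃ p : k[X], algebraMap k[X] K₀ p = Algebra.trace K₀ K g := by
  by_contra hcon
  push Not at hcon
  obtain ⟨s, b, hb⟩ := FiniteDimensional.exists_is_basis_integral k[X] K₀ K
  have hb' : ∀ i, ∃ y : O, algebraMap O K y = b i := fun i =>
    IsIntegralClosure.isIntegral_iff.1 (hb i)
  choose y hy using hb'
  have hnd := traceForm_nondegenerate K₀ K
  obtain ⟨N, hN⟩ : ∃ N : ℕ, ∀ i, v.valuation K (b.traceDual i) ≤ exp (N : ℤ) := by
    choose n hn using fun i => le_exp (v.valuation K (b.traceDual i))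
    refine ⟨Finset.univ.sup n, fun i => (hn i).trans ?_⟩
    rw [exp_le_exp]
    exact_mod_cast Finset.le_sup (Finset.mem_univ i)
  have hM : ∀ g ∈ Mv K v, v.valuation K g ≤ exp (N : ℤ) := by
    intro g hg
    have h1 : g = ∑ i, (b.traceDual.repr g i) • b.traceDual i := (b.traceDual.sum_repr g).symm
    rw [h1]
    refine Valuation.map_sum_le _ (fun i _ => ?_)
    have h2 : b i * g ∈ Mv K v := by
      intro v' hv'
      rw [← hy i, map_mul]
      exact mul_le_one' (v'.valuation_le_one _) (hg v' hv')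
    obtain ⟨p, hp⟩ := hcon _ h2
    rw [Module.Basis.traceDual_repr_apply, Algebra.traceForm_apply, mul_comm g, ← hp,
      Algebra.smul_def, ← IsScalarTower.algebraMap_apply k[X] K₀ K,
      IsScalarTower.algebraMap_apply k[X] O K, map_mul]
    calc _ ≤ 1 * exp (N : ℤ) := mul_le_mul' (v.valuation_le_one _) (hN i)
      _ = _ := one_mul _
  obtain ⟨π, hπ⟩ := v.valuation_exists_uniformizer K
  have hbig : v.valuation K ((π⁻¹) ^ (N + 1)) = exp ((N : ℤ) + 1) := by
    rw [map_pow, map_inv₀, hπ, ← exp_neg, ← exp_nsmul]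
    simp
  obtain ⟨g, hg1, hg2⟩ := exists_ad v ((π⁻¹) ^ (N + 1))
  have h3 := hM g hg2
  have h4 : v.valuation K ((π⁻¹) ^ (N + 1)) ≤ exp (N : ℤ) := by
    have : (π⁻¹) ^ (N + 1) = ((π⁻¹) ^ (N + 1) - g) + g := by ring
    rw [this]
    refine (Valuation.map_add _ _ _).trans (max_le (hg1.trans ?_) h3)
    rw [← exp_zero, exp_le_exp]
    exact Int.natCast_nonneg N
  rw [hbig, exp_le_exp] at h4
  omega

/-- The prime of `k[X]` below `v`. -/
theorem exists_below [Algebra.IsIntegral k[X] O] (v : HeightOneSpectrum O) : ∃ (v₀ : HeightOneSpectrum k[X]) (P : k[X]),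
    P.Monic ∧ Irreducible P ∧ v₀.asIdeal = Ideal.span {P} ∧ algebraMap k[X] O P ∈ v.asIdeal := by
  set I : Ideal k[X] := v.asIdeal.comap (algebraMap k[X] O) with hI
  haveI hprime : I.IsPrime := Ideal.comap_isPrime _ _
  have hne : I ≠ ⊥ := by
    intro h0
    exact v.ne_bot (Ideal.eq_bot_of_comap_eq_bot h0)
  obtain ⟨Q, hQ⟩ := (IsPrincipalIdealRing.principal I).principal
  have hQ' : I = Ideal.span {Q} := hQ
  have hQ0 : Q ≠ 0 := by
    rintro rfl
    apply hne
    rw [hQ']
    simp
  have hP : (normalize Q).Monic := Polynomial.monic_normalize hQ0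
  have hIP : I = Ideal.span {normalize Q} := by
    rw [hQ']
    exact Ideal.span_singleton_eq_span_singleton.2 (associated_normalize Q)
  have hP0 : normalize Q ≠ 0 := hP.ne_zero
  have hPp : Prime (normalize Q) := by
    rw [← Ideal.span_singleton_prime hP0, ← hIP]
    exact hprime
  refine ⟨⟨I, hprime, hne⟩, normalize Q, hP, hPp.irreducible, hIP, ?_⟩
  have : normalize Q ∈ I := by
    rw [hIP]
    exact Ideal.mem_span_singleton_self _
  exact this

theorem rr_nd (R : Res k K₀) (v : HeightOneSpectrum O) : ∃ f : K, rr R (some v) f ≠ 0 := by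
  haveI : Algebra.IsIntegral k[X] O := IsIntegralClosure.isIntegral_algebra k[X] K
  obtain ⟨v₀, P, hPm, hPi, hv₀, hPv⟩ := exists_below (k := k) v
  obtain ⟨g, hg, htr⟩ := exists_trace (k := k) (K₀ := K₀) (K := K) v
  have hpow : ∃ n : ℕ, ∃ p : k[X], algebraMap k[X] K₀ p =
      Algebra.trace K₀ K (g * algebraMap k[X] K (P ^ n)) := by
    obtain ⟨n, hn⟩ := le_exp (v.valuation K g)
    have hint : ∀ v' : HeightOneSpectrum O,
        v'.valuation K (g * algebraMap k[X] K (P ^ n)) ≤ 1 := by
      intro v'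
      rw [IsScalarTower.algebraMap_apply k[X] O K, map_mul, mul_comm]
      by_cases hv' : v' = v
      · subst hv'
        refine mul_le_one_of ?_ hn
        rw [HeightOneSpectrum.valuation_of_algebraMap,
          HeightOneSpectrum.intValuation_le_pow_iff_mem, map_pow]
        exact Ideal.pow_mem_pow hPv n
      · exact mul_le_one' (v'.valuation_le_one _) (hg v' hv')
    obtain ⟨y, hy⟩ := HeightOneSpectrum.mem_integers_of_valuation_le_one K _ hint
    obtain ⟨p, hp⟩ := trace_int (K₀ := K₀) (k := k) (K := K) y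
    exact ⟨n, p, by rw [hp, hy]⟩
  set n := Nat.find hpow with hn
  obtain ⟨a, ha⟩ := Nat.find_spec hpow
  have hn0 : n ≠ 0 := by
    intro h0
    apply htr
    refine ⟨a, ?_⟩
    rw [ha, ← hn, h0, pow_zero, map_one, mul_one]
  obtain ⟨m, hm⟩ := Nat.exists_eq_succ_of_ne_zero hn0
  have hmin : ¬ ∃ p : k[X], algebraMap k[X] K₀ p =
      Algebra.trace K₀ K (g * algebraMap k[X] K (P ^ m)) := by
    apply Nat.find_min hpow
    rw [← hn, hm]
    exact Nat.lt_succ_self m
  have hP0 : algebraMap k[X] K₀ P ≠ 0 := by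
    simpa using hPm.ne_zero
  have hy : Algebra.trace K₀ K (g * algebraMap k[X] K (P ^ m)) =
      algebraMap k[X] K₀ a / algebraMap k[X] K₀ P := by
    have e1 : g * algebraMap k[X] K (P ^ m.succ) =
        g * algebraMap k[X] K (P ^ m) * algebraMap k[X] K P := by
      rw [pow_succ, RingHom.map_mul, mul_assoc]
    rw [eq_div_iff hP0, ha, ← hn, hm, ← trace_mul_base, e1]
  have hcop : ¬ P ∣ a := by
    rintro ⟨c, hc⟩
    apply hmin
    refine ⟨c, ?_⟩
    rw [hy, eq_div_iff hP0, hc, map_mul, mul_comm]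
  obtain ⟨b, hb⟩ : ∃ b : k[X], P ∣ a * b - X ^ (P.natDegree - 1) := by
    have h1 : IsCoprime P a := (hPi.coprime_iff_not_dvd).2 hcop
    obtain ⟨c, d, hcd⟩ := h1
    refine ⟨d * X ^ (P.natDegree - 1), -c * X ^ (P.natDegree - 1), ?_⟩
    linear_combination (X ^ (P.natDegree - 1)) * hcd
  refine ⟨g * algebraMap k[X] K (P ^ m) * algebraMap k[X] K b, ?_⟩
  have hAd : Ad v (g * algebraMap k[X] K (P ^ m) * algebraMap k[X] K b)
      (g * algebraMap k[X] K (P ^ m) * algebraMap k[X] K b) := by
    refine ⟨by rw [sub_self, map_zero]; exact zero_le', fun v' hv' => ?_⟩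
    rw [IsScalarTower.algebraMap_apply k[X] O K, IsScalarTower.algebraMap_apply k[X] O K, map_mul,
      map_mul]
    exact mul_le_one' (mul_le_one' (hg v' hv') (v'.valuation_le_one _)) (v'.valuation_le_one _)
  rw [rr_eq R hAd, trace_mul_base, hy, div_mul_eq_mul_div, ← map_mul]
  have hsum := R.sum (algebraMap k[X] K₀ (a * b) / algebraMap k[X] K₀ P) {v₀} (by
    intro v' hv'
    have hv1 : v' ≠ v₀ := by simpa using hv'
    have hPn : P ∉ v'.asIdeal := by
      intro hmem
      apply hv1
      apply HeightOneSpectrum.ext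
      have h1 : v₀.asIdeal ≤ v'.asIdeal := by
        rw [hv₀, Ideal.span_singleton_le_iff_mem]
        exact hmem
      haveI := v₀.isMaximal
      exact (this.eq_of_le v'.isPrime.ne_top h1).symm
    have hval : v'.valuation K₀ (algebraMap k[X] K₀ P) = 1 :=
      v'.valuation_eq_one_iff_notMem.2 hPn
    rw [map_div₀, hval, div_one]
    exact v'.valuation_le_one _)
  rw [hsum, Finset.sum_singleton, R.simple v₀ P _ hPm hPi hv₀]
  have hmod : (a * b) %ₘ P = X ^ (P.natDegree - 1) := by
    have hdeg : 0 < P.natDegree := hPi.natDegree_pos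
    obtain ⟨c, hc⟩ := hb
    refine (Polynomial.div_modByMonic_unique c (X ^ (P.natDegree - 1)) hPm ⟨?_, ?_⟩).2
    · rw [← hc]; ring
    · rw [degree_X_pow, degree_eq_natDegree hPm.ne_zero]
      exact_mod_cast Nat.sub_lt hdeg one_pos
  rw [hmod, coeff_X_pow, if_pos rfl]
  exact one_ne_zero

end tower

theorem resk : S_RESK := by
  intro k K₀ K O _ _ _ _ _ _ _ _ _ _ _ _ _ _ _ _ _ _ _ w hw hF ⟨R⟩
  haveI hK₀ : CharP K₀ 2 := charP_K₀ k K₀
  haveI hK : CharP K 2 :=
    charP_of_injective_ringHom (f := algebraMap K₀ K) (RingHom.injective _) 2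
  have hC : ∀ c : k, algebraMap k[X] K (C c) = algebraMap O K (algebraMap k[X] O (C c)) := fun c =>
    IsScalarTower.algebraMap_apply k[X] O K _
  have hX : algebraMap k[X] K X = algebraMap O K (algebraMap k[X] O X) :=
    IsScalarTower.algebraMap_apply k[X] O K _
  have hX0 : algebraMap k[X] K X ≠ 0 := by
    intro h0
    have := hF.t_gt
    rw [h0, map_zero] at this
    exact absurd this (not_lt.2 zero_le')
  refine ⟨⟨rr R, ?_, ?_, ?_, ?_, ?_, ?_, ?_, ?_⟩⟩
  · rintro (_ | v) f g
    · show R.ri _ = R.ri _ + R.ri _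
      rw [map_add, R.ri_add]
    · rw [rr_eq R ((adp_spec v f).add (adp_spec v g)), map_add, R.ri_add]
      rfl
  · rintro (_ | v) c f
    · show R.ri _ = c * R.ri _
      rw [mul_comm, trace_mul_base, mul_comm, R.ri_smul]
    · have h := (adp_spec v f).smul (algebraMap k[X] O (C c))
      rw [← hC] at h
      rw [rr_eq R h, mul_comm, trace_mul_base, mul_comm, R.ri_smul]
      rfl
  · intro v f hf
    rw [rr_eq R (Ad.zero hf), map_zero, ri_zero]
  · refine ⟨(algebraMap k[X] K X ^ 2)⁻¹, inv_ne_zero (pow_ne_zero 2 hX0), fun f hf => ?_⟩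
    have h1 : w (f * algebraMap k[X] K (X ^ 2)) ≤ 1 := by
      rw [map_mul, map_pow, map_pow]
      rw [map_inv₀, map_pow] at hf
      have h0 : w (algebraMap k[X] K X) ≠ 0 := (Valuation.ne_zero_iff w).2 hX0
      calc w f * w (algebraMap k[X] K X) ^ 2
          ≤ (w (algebraMap k[X] K X) ^ 2)⁻¹ * w (algebraMap k[X] K X) ^ 2 := mul_le_mul_left hf _
        _ = 1 := inv_mul_cancel₀ (pow_ne_zero 2 h0)
    have h2 := hF.tr _ h1
    rw [trace_mul_base] at h2
    have hT : 1 < vinf k (algebraMap k[X] K₀ X) := by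
      rw [← not_le, ← hF.base, ← IsScalarTower.algebraMap_apply k[X] K₀ K]
      exact not_le.2 hF.t_gt
    have h3 : vinf k (Algebra.trace K₀ K f * algebraMap k[X] K₀ X) < 1 := by
      rw [map_pow, pow_two, ← mul_assoc, vinf_mul] at h2
      by_contra hcon
      rw [not_lt] at hcon
      have h4 : (1 : WithZero (Multiplicative ℤ)) <
          vinf k (Algebra.trace K₀ K f * algebraMap k[X] K₀ X) * vinf k (algebraMap k[X] K₀ X) :=
        lt_of_lt_of_le hT (le_mul_of_one_le_left' hcon)
      exact absurd h2 (not_le.2 h4)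
    exact R.ri_int _ h3
  · rintro (_ | v) h
    · show R.ri _ = 0
      rw [trace_sq, R.ri_sq]
    · rw [rr_eq R (adp_spec v h).sq, trace_sq, R.ri_sq]
  · rintro (_ | v) h
    · show R.ri _ = R.ri _ ^ 2
      rw [trace_mul_base, trace_sq, R.ri_sqt]
    · have h' := (adp_spec v h).sq.smul (algebraMap k[X] O X)
      rw [← hX, mul_comm, mul_comm _ (adp v h ^ 2)] at h'
      rw [rr_eq R h', trace_mul_base, trace_sq, R.ri_sqt]
      rfl
  · intro f s hs
    exact rr_sum R f s hs
  · intro v
    exact rr_nd R v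

end Pool.Agent.H467.GK.Resk
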