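import Pool.Agent.H467.GK.Spec

/-!
# The `s`-units modulo squares
-/

set_option autoImplicit false
set_option linter.all false

open Polynomial IsDedekindDomain WithZero
open scoped nonZeroDivisors
open scoped Classical

namespace Pool.Agent.H467.GK.Uni

theorem aux_comm {M : Type} [CommMonoid M] (z A B Y : M) :
    z * (A * B) * Y = A * (z * (Y * B)) := by
  rw [mul_left_comm z A B, mul_assoc, mul_assoc, mul_comm Y B]

section ded

variable {K O : Type} [Field K] [CommRing O] [IsDedekindDomain O] [Algebra O K]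
  [IsFractionRing O K]

theorem eq_of_dvd {v u : HeightOneSpectrum O} (h : u.asIdeal ∣ v.asIdeal) : u = v := by
  apply HeightOneSpectrum.ext
  have h1 : v.asIdeal ≤ u.asIdeal := Ideal.dvd_iff_le.1 h
  exact (v.isMaximal.eq_of_le u.isPrime.ne_top h1).symm

/-- The valuations of a generator of `v ^ n * I`. -/
theorem val_gen (K : Type) [Field K] [Algebra O K] [IsFractionRing O K] {x : O}
    (v u : HeightOneSpectrum O) {n : ℕ} {I : Ideal O}
    (h : v.asIdeal ^ n * I = Ideal.span {x}) (hu : ¬ u.asIdeal ∣ I) :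
    u.valuation K (algebraMap O K x) = if u = v then exp (-(n : ℤ)) else 1 := by
  rw [HeightOneSpectrum.valuation_of_algebraMap]
  split_ifs with huv
  · subst huv
    have hv0 : u.asIdeal ^ n ≠ 0 := pow_ne_zero _ u.ne_bot
    have h1 : u.intValuation x ≤ exp (-(n : ℤ)) := by
      rw [HeightOneSpectrum.intValuation_le_pow_iff_dvd, ← h]
      exact dvd_mul_right _ _
    have h2 : ¬ u.intValuation x ≤ exp (-((n + 1 : ℕ) : ℤ)) := by
      rw [HeightOneSpectrum.intValuation_le_pow_iff_dvd, ← h, pow_succ]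
      intro h3
      exact hu ((mul_dvd_mul_iff_left hv0).1 h3)
    have hx : x ≠ 0 := by
      rintro rfl
      apply h2
      rw [map_zero]
      exact zero_le
    have h3 : u.intValuation x ≠ 0 := u.intValuation_ne_zero x hx
    rw [← exp_log h3] at h1 h2 ⊢
    rw [exp_le_exp] at h1 h2
    rw [exp_inj]
    push_cast at h2
    omega
  · have h1 : ¬ u.intValuation x < 1 := by
      rw [HeightOneSpectrum.intValuation_lt_one_iff_dvd, ← h]
      intro h2
      rcases u.prime.dvd_or_dvd h2 with h3 | h3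
      · exact huv (eq_of_dvd (u.prime.dvd_of_dvd_pow h3))
      · exact hu h3
    exact le_antisymm (u.intValuation_le_one x) (not_lt.1 h1)

theorem gen_ne_zero {x : O} {J : Ideal O} (hJ : J ≠ 0) (h : J = Ideal.span {x}) : x ≠ 0 := by
  rintro rfl
  apply hJ
  rw [h, Ideal.zero_eq_bot, Ideal.span_singleton_eq_bot]

/-- Uniformizers without other zeros and poles outside a finite set. -/
theorem exists_gen (K : Type) [Field K] [Algebra O K] [IsFractionRing O K]
    [Finite (ClassGroup O)] : ∃ s₁ : Finset (HeightOneSpectrum O), ∀ v ∉ s₁,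
      ∃ y : Kˣ, v.valuation K (y : K) = exp (-1) ∧
        ∀ u ∉ s₁, u ≠ v → u.valuation K (y : K) = 1 := by
  haveI := Fintype.ofFinite (ClassGroup O)
  choose rep hrep using (ClassGroup.mk0_surjective (R := O))
  let F : ClassGroup O → Finset (HeightOneSpectrum O) := fun c =>
    (Ideal.finite_factors (nonZeroDivisors.coe_ne_zero (rep c))).toFinset
  refine ⟨Finset.univ.biUnion F, fun v hv => ?_⟩
  have hnot : ∀ u ∉ Finset.univ.biUnion F, ∀ c, ¬ u.asIdeal ∣ ((rep c : (Ideal O)⁰) : Ideal O) := by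
    intro u hu c hc
    apply hu
    refine Finset.mem_biUnion.2 ⟨c, Finset.mem_univ _, ?_⟩
    exact (Set.Finite.mem_toFinset _).2 hc
  have hv0 : v.asIdeal ∈ (Ideal O)⁰ := mem_nonZeroDivisors_of_ne_zero v.ne_bot
  let V : (Ideal O)⁰ := ⟨v.asIdeal, hv0⟩
  let c : ClassGroup O := (ClassGroup.mk0 V)⁻¹
  have h1 : ClassGroup.mk0 (V * rep c) = 1 := by
    rw [map_mul, hrep c, mul_inv_cancel]
  have h2 : ((V * rep c : (Ideal O)⁰) : Ideal O).IsPrincipal :=
    (ClassGroup.mk0_eq_one_iff (V * rep c).2).1 h1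
  obtain ⟨x, hx⟩ := h2
  have hx' : v.asIdeal * ((rep c : (Ideal O)⁰) : Ideal O) = Ideal.span {x} := hx
  have hx'' : v.asIdeal ^ 1 * ((rep c : (Ideal O)⁰) : Ideal O) = Ideal.span {x} := by
    rw [pow_one, hx']
  have hx0 : x ≠ 0 := gen_ne_zero (nonZeroDivisors.coe_ne_zero (V * rep c)) hx
  have hx0' : algebraMap O K x ≠ 0 := by
    rw [Ne, FaithfulSMul.algebraMap_eq_zero_iff]
    exact hx0
  refine ⟨Units.mk0 _ hx0', ?_, ?_⟩
  · rw [Units.val_mk0, val_gen K v v hx'' (hnot v hv c), if_pos rfl]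
    rfl
  · intro u hu huv
    rw [Units.val_mk0, val_gen K v u hx'' (hnot u hu c), if_neg huv]

/-- A power of each prime is principal. -/
theorem exists_pow (K : Type) [Field K] [Algebra O K] [IsFractionRing O K]
    [Finite (ClassGroup O)] : ∃ h : ℕ, 0 < h ∧ ∀ v : HeightOneSpectrum O,
      ∃ y : Kˣ, v.valuation K (y : K) = exp (-(h : ℤ)) ∧
        ∀ u : HeightOneSpectrum O, u ≠ v → u.valuation K (y : K) = 1 := by
  refine ⟨Nat.card (ClassGroup O), Nat.card_pos, fun v => ?_⟩
  have hv0 : v.asIdeal ∈ (Ideal O)⁰ := mem_nonZeroDivisors_of_ne_zero v.ne_bot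
  let V : (Ideal O)⁰ := ⟨v.asIdeal, hv0⟩
  have h1 : ClassGroup.mk0 (V ^ Nat.card (ClassGroup O)) = 1 := by
    rw [map_pow, pow_card_eq_one']
  have h2 : ((V ^ Nat.card (ClassGroup O) : (Ideal O)⁰) : Ideal O).IsPrincipal :=
    (ClassGroup.mk0_eq_one_iff (V ^ Nat.card (ClassGroup O)).2).1 h1
  obtain ⟨x, hx⟩ := h2
  have hx' : v.asIdeal ^ Nat.card (ClassGroup O) * ⊤ = Ideal.span {x} := by
    rw [Ideal.mul_top]
    exact hx
  have hnot : ∀ u : HeightOneSpectrum O, ¬ u.asIdeal ∣ (⊤ : Ideal O) := by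
    intro u hu
    exact u.isPrime.ne_top (top_le_iff.1 (Ideal.dvd_iff_le.1 hu))
  have hx0 : x ≠ 0 := gen_ne_zero
    (nonZeroDivisors.coe_ne_zero (V ^ Nat.card (ClassGroup O))) hx
  have hx0' : algebraMap O K x ≠ 0 := by
    rw [Ne, FaithfulSMul.algebraMap_eq_zero_iff]
    exact hx0
  refine ⟨Units.mk0 _ hx0', ?_, ?_⟩
  · rw [Units.val_mk0, val_gen K v v hx' (hnot v), if_pos rfl]
  · intro u huv
    rw [Units.val_mk0, val_gen K v u hx' (hnot u), if_neg huv]

/-- the logarithm of the valuation -/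
noncomputable def lv (v : HeightOneSpectrum O) (x : Kˣ) : ℤ := log (v.valuation K (x : K))

theorem val_ne (v : HeightOneSpectrum O) (x : Kˣ) : v.valuation K (x : K) ≠ 0 :=
  (Valuation.ne_zero_iff _).2 x.ne_zero

theorem lv_mul (v : HeightOneSpectrum O) (x y : Kˣ) : lv v (x * y) = lv v x + lv v y := by
  unfold lv
  rw [Units.val_mul, map_mul, log_mul (val_ne v x) (val_ne v y)]

theorem lv_one (v : HeightOneSpectrum O) : lv v (1 : Kˣ) = 0 := by
  unfold lv
  rw [Units.val_one, map_one, log_one]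

theorem lv_inv (v : HeightOneSpectrum O) (x : Kˣ) : lv v x⁻¹ = - lv v x := by
  unfold lv
  rw [Units.val_inv_eq_inv_val, map_inv₀, log_inv]

theorem lv_zpow (v : HeightOneSpectrum O) (x : Kˣ) (n : ℤ) : lv v (x ^ n) = n * lv v x := by
  unfold lv
  rw [Units.val_zpow_eq_zpow_val, map_zpow₀, log_zpow, smul_eq_mul]

theorem lv_pow (v : HeightOneSpectrum O) (x : Kˣ) (n : ℕ) : lv v (x ^ n) = n * lv v x := by
  unfold lv
  rw [Units.val_pow_eq_pow_val, map_pow, log_pow, nsmul_eq_mul]

theorem lv_prod (v : HeightOneSpectrum O) {ι : Type} (t : Finset ι) (x : ι → Kˣ) (n : ι → ℤ) :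
    lv v (∏ i ∈ t, x i ^ n i) = ∑ i ∈ t, n i * lv v (x i) := by
  induction t using Finset.induction_on with
  | empty => rw [Finset.prod_empty, Finset.sum_empty, lv_one]
  | insert i t hi ih =>
    rw [Finset.prod_insert hi, Finset.sum_insert hi, lv_mul, lv_zpow, ih]

theorem val_eq_one {v : HeightOneSpectrum O} {x : Kˣ} : v.valuation K (x : K) = 1 ↔ lv v x = 0 := by
  constructor
  · intro h
    unfold lv
    rw [h, log_one]
  · intro h
    have h1 := exp_log (val_ne v x)
    rw [← h1]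
    change exp (lv v x) = 1
    rw [h, exp_zero]

theorem fin_ne_one (x : Kˣ) : {v : HeightOneSpectrum O | v.valuation K (x : K) ≠ 1}.Finite := by
  refine ((HeightOneSpectrum.Support.finite (R := O) (x : K)).union
    (HeightOneSpectrum.Support.finite (R := O) ((x⁻¹ : Kˣ) : K))).subset ?_
  intro v hv
  rcases lt_or_gt_of_ne hv with h | h
  · right
    change 1 < v.valuation K ((x⁻¹ : Kˣ) : K)
    rw [Units.val_inv_eq_inv_val, map_inv₀]
    exact (one_lt_inv₀ (zero_lt_iff.2 (val_ne v x))).2 h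
  · left
    exact h

/-- the vectors of the `s`-units -/
def Lam (K : Type) [Field K] [Algebra O K] [IsFractionRing O K]
    (s : Finset (HeightOneSpectrum O)) : Submodule ℤ (s → ℤ) :=
  AddSubgroup.toIntSubmodule
    { carrier := {f | ∃ x : Kˣ, (∀ v ∉ s, lv v x = 0) ∧ ∀ v : s, f v = lv v.1 x}
      add_mem' := by
        rintro f g ⟨x, hx, hf⟩ ⟨y, hy, hg⟩
        refine ⟨x * y, fun v hv => ?_, fun v => ?_⟩
        · rw [lv_mul, hx v hv, hy v hv, add_zero]
        · rw [lv_mul, Pi.add_apply, hf, hg]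
      zero_mem' := ⟨1, fun v _ => lv_one v, fun v => (lv_one v.1).symm⟩
      neg_mem' := by
        rintro f ⟨x, hx, hf⟩
        refine ⟨x⁻¹, fun v hv => ?_, fun v => ?_⟩
        · rw [lv_inv, hx v hv, neg_zero]
        · rw [lv_inv, Pi.neg_apply, hf] }

theorem mem_Lam {s : Finset (HeightOneSpectrum O)} {f : s → ℤ} :
    f ∈ Lam K s ↔ ∃ x : Kˣ, (∀ v ∉ s, lv v x = 0) ∧ ∀ v : s, f v = lv v.1 x := Iff.rfl

theorem smul_mem_Lam {h : ℕ} (hh : ∀ v : HeightOneSpectrum O,
      ∃ y : Kˣ, v.valuation K (y : K) = exp (-(h : ℤ)) ∧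
        ∀ u : HeightOneSpectrum O, u ≠ v → u.valuation K (y : K) = 1)
    (s : Finset (HeightOneSpectrum O)) (f : s → ℤ) : (h : ℤ) • f ∈ Lam K s := by
  have h1 : ∀ v : s, (h : ℤ) • (Pi.single v (1 : ℤ) : s → ℤ) ∈ Lam K s := by
    intro v
    obtain ⟨y, hy, hy'⟩ := hh v.1
    refine mem_Lam.2 ⟨y⁻¹, fun u hu => ?_, fun u => ?_⟩
    · rw [lv_inv, val_eq_one.1 (hy' u fun huv => hu (huv ▸ v.2)), neg_zero]
    · rw [lv_inv, Pi.smul_apply, smul_eq_mul]
      by_cases huv : u = v
      · subst huv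
        rw [Pi.single_eq_same, mul_one]
        unfold lv
        rw [hy, log_exp, neg_neg]
      · rw [Pi.single_eq_of_ne huv, mul_zero,
          val_eq_one.1 (hy' u.1 fun h2 => huv (Subtype.ext h2)), neg_zero]
  have h2 : (h : ℤ) • f = ∑ v, f v • ((h : ℤ) • (Pi.single v (1 : ℤ) : s → ℤ)) := by
    funext u
    rw [Finset.sum_apply, Pi.smul_apply, Finset.sum_eq_single u]
    · rw [Pi.smul_apply, Pi.smul_apply, Pi.single_eq_same]
      simp only [smul_eq_mul]
      ring
    · intro v _ hv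
      rw [Pi.smul_apply, Pi.smul_apply, Pi.single_eq_of_ne hv.symm, smul_zero, smul_zero]
    · intro h3
      exact absurd (Finset.mem_univ u) h3
  rw [h2]
  exact Submodule.sum_mem _ fun v _ => Submodule.smul_mem _ _ (h1 v)

theorem exists_basis {h : ℕ} (hpos : 0 < h) (hh : ∀ v : HeightOneSpectrum O,
      ∃ y : Kˣ, v.valuation K (y : K) = exp (-(h : ℤ)) ∧
        ∀ u : HeightOneSpectrum O, u ≠ v → u.valuation K (y : K) = 1)
    (s : Finset (HeightOneSpectrum O)) : Nonempty (Module.Basis s ℤ (Lam K s)) := by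
  have hfr : Module.finrank ℤ (Lam K s) = Fintype.card s := by
    apply le_antisymm
    · have := Submodule.finrank_le (Lam K s)
      rwa [Module.finrank_fintype_fun_eq_card] at this
    · let φ : (s → ℤ) →ₗ[ℤ] Lam K s :=
        LinearMap.codRestrict (Lam K s) ((h : ℤ) • LinearMap.id) fun f => smul_mem_Lam hh s f
      have hφ : Function.Injective φ := by
        intro f g hfg
        have h1 : (h : ℤ) • f = (h : ℤ) • g := congrArg Subtype.val hfg
        funext v
        have h2 := congrFun h1 v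
        simp only [Pi.smul_apply, smul_eq_mul] at h2
        exact mul_left_cancel₀ (by exact_mod_cast hpos.ne') h2
      have := LinearMap.finrank_le_finrank_of_injective hφ
      rwa [Module.finrank_fintype_fun_eq_card] at this
  exact ⟨(Module.finBasisOfFinrankEq ℤ (Lam K s) hfr).reindex (Fintype.equivFin s).symm⟩

/-- units are squares -/
theorem sq_of_unit (h2 : (2 : K) = 0) (w : Vl K)
    (hfin : ∀ N : ℤ, {x : O | w (algebraMap O K x) ≤ exp N}.Finite)
    (hge : ∀ x : O, x ≠ 0 → 1 ≤ w (algebraMap O K x)) {x : Kˣ}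
    (hx : ∀ v : HeightOneSpectrum O, lv v x = 0) : ∃ c : K, (x : K) = c ^ 2 := by
  obtain ⟨a, ha⟩ := HeightOneSpectrum.mem_integers_of_valuation_le_one (R := O) K (x : K)
    fun v => (val_eq_one.2 (hx v)).le
  obtain ⟨b, hb⟩ := HeightOneSpectrum.mem_integers_of_valuation_le_one (R := O) K
    ((x⁻¹ : Kˣ) : K) fun v => (val_eq_one.2 (by rw [lv_inv, hx v, neg_zero])).le
  have ha0 : a ≠ 0 := by
    rintro rfl
    rw [map_zero] at ha
    exact x.ne_zero ha.symm
  have hb0 : b ≠ 0 := by
    rintro rfl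
    rw [map_zero] at hb
    exact (x⁻¹).ne_zero hb.symm
  have w1 := hge a ha0
  have w2 := hge b hb0
  rw [ha] at w1
  rw [hb, Units.val_inv_eq_inv_val, map_inv₀] at w2
  have wx0 : w (x : K) ≠ 0 := (Valuation.ne_zero_iff _).2 x.ne_zero
  have w3 : w (x : K) ≤ 1 := (one_le_inv₀ (zero_lt_iff.2 wx0)).1 w2
  have w4 : w (x : K) = 1 := le_antisymm w3 w1
  -- a power is one
  have hpow : ∃ N : ℕ, 0 < N ∧ (x : K) ^ N = 1 := by
    have hni : ¬ Function.Injective fun n : ℕ => a ^ n := by
      intro hinj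
      refine (Set.infinite_of_injective_forall_mem hinj (s := {y : O | w (algebraMap O K y) ≤
        exp 0}) fun n => ?_) (hfin 0)
      change w (algebraMap O K (a ^ n)) ≤ exp 0
      rw [map_pow, ha, map_pow, w4, one_pow, exp_zero]
    unfold Function.Injective at hni
    push Not at hni
    obtain ⟨m, n, hmn, hne⟩ := hni
    have key : ∀ m n : ℕ, a ^ m = a ^ n → m < n → ∃ N : ℕ, 0 < N ∧ (x : K) ^ N = 1 := by
      intro m n hmn hlt
      refine ⟨n - m, by omega, ?_⟩
      have h3 : (x : K) ^ m = (x : K) ^ n := by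
        rw [← ha, ← map_pow, ← map_pow, hmn]
      have h4 : (x : K) ^ n = (x : K) ^ m * (x : K) ^ (n - m) := by
        rw [← pow_add]
        congr 1
        omega
      rw [h4] at h3
      exact (mul_right_eq_self₀.1 h3.symm).resolve_right (pow_ne_zero _ x.ne_zero)
    rcases lt_or_gt_of_ne hne with h | h
    · exact key m n hmn h
    · exact key n m hmn.symm h
  obtain ⟨N, hN, hxN⟩ := hpow
  have hfo : IsOfFinOrder (x : K) := isOfFinOrder_iff_pow_eq_one.2 ⟨N, hN, hxN⟩
  have hpos := hfo.orderOf_pos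
  set M := orderOf (x : K) with hM
  have hxM : (x : K) ^ M = 1 := pow_orderOf_eq_one _
  rcases Nat.even_or_odd M with ⟨m, hm⟩ | ⟨m, hm⟩
  · exfalso
    have h3 : ((x : K) ^ m) ^ 2 = 1 := by
      rw [← pow_mul, mul_two, ← hm, hxM]
    have h4 : ((x : K) ^ m - 1) ^ 2 = 0 := by
      linear_combination h3 + (1 - (x : K) ^ m) * h2
    have h5 : (x : K) ^ m = 1 := sub_eq_zero.1 (pow_eq_zero_iff (two_ne_zero)|>.1 h4)
    have h6 := orderOf_le_of_pow_eq_one (by omega : 0 < m) h5
    omega
  · refine ⟨(x : K) ^ (m + 1), ?_⟩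
    rw [← pow_mul]
    have : (m + 1) * 2 = M + 1 := by omega
    rw [this, pow_succ, hxM, one_mul]

/-- The basis of the `s`-units modulo squares. -/
theorem exists_unb [Finite (ClassGroup O)] (h2 : (2 : K) = 0) (w : Vl K)
    (hfin : ∀ N : ℤ, {x : O | w (algebraMap O K x) ≤ exp N}.Finite)
    (hge : ∀ x : O, x ≠ 0 → 1 ≤ w (algebraMap O K x)) :
    ∃ s₁ : Finset (HeightOneSpectrum O), ∀ s, s₁ ⊆ s → ∃ u : s → K, Unb s u := by
  obtain ⟨s₁, hs₁⟩ := exists_gen (O := O) K
  obtain ⟨h, hpos, hh⟩ := exists_pow (O := O) K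
  refine ⟨s₁, fun s hs => ?_⟩
  obtain ⟨b⟩ := exists_basis hpos hh s
  choose U hU1 hU2 using fun i : s => mem_Lam.1 (b i).2
  -- the vector of an `s`-unit
  have hvec : ∀ z : Kˣ, (∀ v ∉ s, lv v z = 0) →
      ∃ n : s → ℤ, (∀ v : HeightOneSpectrum O, lv v z = ∑ i, n i * lv v (U i)) ∧
        ∀ m : s → ℤ, (∀ v : s, lv v.1 z = ∑ i, m i * lv v.1 (U i)) → m = n := by
    intro z hz
    let f : Lam K s := ⟨fun v => lv v.1 z, mem_Lam.2 ⟨z, hz, fun v => rfl⟩⟩
    refine ⟨fun i => b.repr f i, fun v => ?_, fun m hm => ?_⟩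
    · by_cases hv : v ∈ s
      · have h3 := b.sum_repr f
        have h4 := congrFun (congrArg Subtype.val h3) ⟨v, hv⟩
        rw [Submodule.coe_sum, Finset.sum_apply] at h4
        have h5 : (f : s → ℤ) ⟨v, hv⟩ = lv v z := rfl
        rw [h5] at h4
        rw [← h4]
        refine Finset.sum_congr rfl fun i _ => ?_
        rw [Submodule.coe_smul, Pi.smul_apply, smul_eq_mul, hU2 i ⟨v, hv⟩]
      · rw [hz v hv]
        symm
        refine Finset.sum_eq_zero fun i _ => ?_
        rw [hU1 i v hv, mul_zero]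
    · have h3 : f = ∑ i, m i • b i := by
        apply Subtype.ext
        funext v
        rw [Submodule.coe_sum, Finset.sum_apply]
        change lv v.1 z = _
        rw [hm v]
        refine Finset.sum_congr rfl fun i _ => ?_
        rw [Submodule.coe_smul, Pi.smul_apply, smul_eq_mul, hU2 i v]
      funext i
      rw [h3, b.repr_sum_self]
  refine ⟨fun i => (U i : K), fun i => (U i).ne_zero, fun i v hv => val_eq_one.2 (hU1 i v hv),
    ?_, ?_⟩
  · -- generation
    intro d0 hd0 hev
    set d : Kˣ := Units.mk0 d0 hd0 with hd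
    have hdev : ∀ v ∉ s, ∃ m : ℤ, lv v d = 2 * m := by
      intro v hv
      obtain ⟨m, hm⟩ := hev v hv
      refine ⟨m, ?_⟩
      unfold lv
      rw [hd, Units.val_mk0, hm, log_exp]
    -- a root of the fractional ideal outside `s`
    choose Y hY1 hY2 using fun v : {v : HeightOneSpectrum O // v ∉ s} =>
      hs₁ v.1 fun hv => v.2 (hs hv)
    let F : Finset {v : HeightOneSpectrum O // v ∉ s} :=
      ((fin_ne_one (O := O) d).preimage (f := Subtype.val)
        (Subtype.val_injective.injOn)).toFinset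
    let y₀ : Kˣ := ∏ v ∈ F, Y v ^ (-(lv v.1 d / 2))
    have hy₀ : ∀ u ∉ s, 2 * lv u y₀ = lv u d := by
      intro u hu
      have hYu : ∀ v : {v : HeightOneSpectrum O // v ∉ s}, u ≠ v.1 → lv u (Y v) = 0 := fun v huv =>
        val_eq_one.1 (hY2 v u (fun h3 => hu (hs h3)) huv)
      have hYuu : lv u (Y ⟨u, hu⟩) = -1 := by
        unfold lv
        rw [hY1 ⟨u, hu⟩, log_exp]
      have hs1 : lv u y₀ = ∑ v ∈ F, -(lv v.1 d / 2) * lv u (Y v) := lv_prod u F Y _
      obtain ⟨m, hm⟩ := hdev u hu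
      by_cases huF : (⟨u, hu⟩ : {v : HeightOneSpectrum O // v ∉ s}) ∈ F
      · rw [hs1, Finset.sum_eq_single (⟨u, hu⟩ : {v : HeightOneSpectrum O // v ∉ s})]
        · rw [hYuu, hm]
          have : 2 * m / 2 = m := by omega
          rw [this]
          ring
        · intro v _ hv
          rw [hYu v fun huv => hv (Subtype.ext huv.symm), mul_zero]
        · intro h3
          exact absurd huF h3
      · have h3 : lv u d = 0 := by
          by_contra h4
          apply huF
          refine (Set.Finite.mem_toFinset _).2 ?_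
          change u.valuation K (d : K) ≠ 1
          intro h5
          exact h4 (val_eq_one.1 h5)
        rw [h3, hs1, Finset.sum_eq_zero, mul_zero]
        intro v hv
        rw [hYu v fun huv => huF (by
          have : (⟨u, hu⟩ : {v : HeightOneSpectrum O // v ∉ s}) = v := Subtype.ext huv
          rw [this]
          exact hv), mul_zero]
    set z₀ : Kˣ := d * (y₀ ^ 2)⁻¹ with hz₀
    have hz₀s : ∀ v ∉ s, lv v z₀ = 0 := by
      intro v hv
      rw [hz₀, lv_mul, lv_inv, lv_pow]
      have := hy₀ v hv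
      push_cast
      omega
    obtain ⟨n, hn, -⟩ := hvec z₀ hz₀s
    set z : Kˣ := z₀ * (∏ i, U i ^ n i)⁻¹ with hz
    have hzv : ∀ v : HeightOneSpectrum O, lv v z = 0 := by
      intro v
      rw [hz, lv_mul, lv_inv, lv_prod, hn v]
      ring
    obtain ⟨c, hc⟩ := sq_of_unit h2 w hfin hge hzv
    have hmod : ∀ i : s, ∃ m : ℤ, n i = (((n i : ℤ) : ZMod 2).val : ℤ) + 2 * m := by
      intro i
      refine ⟨n i / 2, ?_⟩
      have h3 : ((((n i : ℤ) : ZMod 2).val : ℕ) : ℤ) = n i % 2 := by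
        have := ZMod.val_intCast (n := 2) (n i)
        exact_mod_cast this
      rw [h3]
      omega
    choose m hm using hmod
    refine ⟨fun i => ((n i : ℤ) : ZMod 2), c * ((y₀ * ∏ i, U i ^ m i : Kˣ) : K), ?_, ?_⟩
    · apply mul_ne_zero _ (Units.ne_zero _)
      rintro rfl
      rw [zero_pow two_ne_zero] at hc
      exact z.ne_zero hc
    · have h3 : d = (∏ i, U i ^ (((n i : ℤ) : ZMod 2).val)) * (z * (y₀ * ∏ i, U i ^ m i) ^ 2) := by
        have h4 : ∏ i, U i ^ n i = (∏ i, U i ^ (((n i : ℤ) : ZMod 2).val)) *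
            (∏ i, U i ^ m i) ^ 2 := by
          rw [← Finset.prod_pow, ← Finset.prod_mul_distrib]
          refine Finset.prod_congr rfl fun i _ => ?_
          have h5 : U i ^ n i = U i ^ ((((n i : ℤ) : ZMod 2).val : ℤ) + 2 * m i) := by
            rw [← hm i]
          rw [h5, zpow_add, zpow_natCast, mul_comm 2 (m i), zpow_mul]
          rfl
        have h6 : d = z * (∏ i, U i ^ n i) * y₀ ^ 2 := by
          rw [hz, hz₀, inv_mul_cancel_right, inv_mul_cancel_right]
        rw [h6, h4]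
        rw [mul_pow]
        exact aux_comm _ _ _ _
      have h7 := congrArg (fun q : Kˣ => (q : K)) h3
      have h8 : ((d : Kˣ) : K) = d0 := by rw [hd, Units.val_mk0]
      simp only [Units.val_mul, Units.val_pow_eq_pow_val, Units.coe_prod, hc] at h7
      rw [h8] at h7
      rw [h7]
      simp only [Units.val_mul, Units.coe_prod]
      ring
  · -- independence
    intro e he
    obtain ⟨r, hr⟩ := he
    have hP : ((∏ i, U i ^ (e i).val : Kˣ) : K) = r * r := by
      rw [← hr]
      simp only [Units.coe_prod, Units.val_pow_eq_pow_val]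
    have hr0 : r ≠ 0 := by
      rintro rfl
      rw [mul_zero] at hP
      exact Units.ne_zero _ hP
    set g : Kˣ := Units.mk0 r hr0 with hg
    have hP' : ∏ i, U i ^ ((e i).val : ℤ) = g * g := by
      apply Units.ext
      rw [Units.val_mul, hg, Units.val_mk0, ← hP]
      simp only [zpow_natCast]
    have hlv : ∀ v : HeightOneSpectrum O, 2 * lv v g = ∑ i, ((e i).val : ℤ) * lv v (U i) := by
      intro v
      rw [← lv_prod, hP', lv_mul]
      ring
    have hgs : ∀ v ∉ s, lv v g = 0 := by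
      intro v hv
      have h3 := hlv v
      rw [Finset.sum_eq_zero fun i _ => by rw [hU1 i v hv, mul_zero]] at h3
      omega
    obtain ⟨n, hn, -⟩ := hvec g hgs
    obtain ⟨n', hn', hun⟩ := hvec (g * g) fun v hv => by rw [lv_mul, hgs v hv, add_zero]
    have e1 : (fun i => ((e i).val : ℤ)) = n' := hun _ fun v => by
      rw [lv_mul, ← hlv]
      ring
    have e2 : (fun i => 2 * n i) = n' := hun _ fun v => by
      rw [lv_mul, hn, ← two_mul, Finset.mul_sum]
      refine Finset.sum_congr rfl fun i _ => ?_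
      ring
    funext i
    have e3 : ((e i).val : ℤ) = 2 * n i := congrFun (e1.trans e2.symm) i
    have e4 : (e i).val < 2 := ZMod.val_lt (e i)
    have e5 : (e i).val = 0 := by
      omega
    exact (ZMod.val_eq_zero (e i)).1 e5

end ded

theorem uni : S_UNI := by
  intro k K₀ K O _ _ _ _ _ _ _ _ _ _ _ _ _ _ _ _ _ _ _ w _ hw
  haveI := Fintype.ofFinite k
  haveI : Finite (ClassGroup O) := by
    haveI := ClassGroup.fintypeOfAdmissibleOfFinite (R := k[X]) (S := O) K₀ K
      (Polynomial.cardPowDegreeIsAdmissible :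
        AbsoluteValue.IsAdmissible (Polynomial.cardPowDegree : AbsoluteValue k[X] ℤ))
    infer_instance
  have h2 : (2 : K) = 0 := by
    have h3 : (2 : k) = 0 := CharTwo.two_eq_zero
    have h4 : (2 : k[X]) = 0 := by
      have : (2 : k[X]) = C (2 : k) := by rw [map_ofNat]
      rw [this, h3, map_zero]
    have h5 := congrArg (algebraMap k[X] K) h4
    rwa [map_ofNat, map_zero] at h5
  exact exists_unb h2 w hw.fin hw.ge_one

end Pool.Agent.H467.GK.Uni
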