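import Pool.Agent.H467.GK.Spec

/-!
# No unramified quadratic extension in which all places of a large set split (S_UNR)

Project GK (helper467), part by helper215.
-/

set_option autoImplicit false
set_option linter.all false

open Polynomial IsDedekindDomain WithZero
open Pool.Agent.H467.CT (AS)
open Pool.Agent.H467.MR (Pr Kp LogD S_ZETA)
open scoped Classical

namespace Pool.Agent.H467.GK.Unr

/-- The inclusion of the integral elements in the quadratic extension. -/
noncomputable def mp (O K : Type) [CommRing O] [Field K] [Algebra O K] (a : O) :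
    QuadraticAlgebra O a 1 →+* QuadraticAlgebra K (algebraMap O K a) 1 where
  toFun z := ⟨algebraMap O K z.re, algebraMap O K z.im⟩
  map_one' := by ext <;> simp [QuadraticAlgebra.re_one, QuadraticAlgebra.im_one]
  map_mul' z w := by ext <;> simp
  map_zero' := by ext <;> simp
  map_add' z w := by ext <;> simp

/-- The quadratic extension is separable. -/
theorem sep {K : Type} [Field K] [CharP K 2] {a : K} [Fact (∀ r : K, r ^ 2 ≠ a + 1 * r)] :
    Algebra.IsSeparable K (QuadraticAlgebra K a 1) := by
  refine ⟨fun x => ?_⟩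
  by_cases h : x.im = 0
  · have hx : x = algebraMap K (QuadraticAlgebra K a 1) x.re := by
      ext <;> simp [h]
    rw [hx]
    exact isSeparable_algebraMap _
  · have h2 : (2 : K) = 0 := CharTwo.two_eq_zero
    have htr : QuadraticAlgebra.trace x = x.im := by
      rw [QuadraticAlgebra.trace_def, h2]; ring
    have h0 := QuadraticAlgebra.sq_sub_trace_smul_add_norm_eq_zero x
    set p : K[X] := X ^ 2 - C x.im * X + C (QuadraticAlgebra.norm x) with hp
    have hpx : aeval x p = 0 := by
      rw [hp, map_add, map_sub, map_mul, map_pow, aeval_X, aeval_C, aeval_C, ← h0, htr,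
        Algebra.smul_def]
    have hps : p.Separable := by
      rw [separable_def]
      have hd : derivative p = C (-x.im) := by
        rw [hp]
        simp only [derivative_add, derivative_sub, derivative_mul, derivative_C, derivative_X,
          derivative_X_pow, Nat.cast_ofNat, map_neg, zero_mul, mul_one, zero_add, add_zero]
        have h2' : (C (2:K) : K[X]) = 0 := by rw [h2, map_zero]
        rw [h2']; ring
      rw [hd]
      refine ⟨0, C (-x.im)⁻¹, ?_⟩
      rw [zero_mul, zero_add, ← C_mul, inv_mul_cancel₀ (neg_ne_zero.2 h), C_1]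
    exact hps.of_dvd (minpoly.dvd K x hpx)

section intcl

variable {k O K : Type} [Field k] [CommRing O] [Field K] [Algebra O K] [Algebra k[X] K]
  [Algebra k[X] O] [IsScalarTower k[X] O K] [IsIntegralClosure O k[X] K] [CharP K 2] (a : O)
  [Fact (∀ r : K, r ^ 2 ≠ algebraMap O K a + 1 * r)]

theorem tower : @IsScalarTower k[X] (QuadraticAlgebra O a 1)
    (QuadraticAlgebra K (algebraMap O K a) 1) _ (mp O K a).toAlgebra.toSMul _ := by
  letI := (mp O K a).toAlgebra
  refine IsScalarTower.of_algebraMap_eq fun x => ?_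
  rw [RingHom.algebraMap_toAlgebra]
  ext
  · show algebraMap k[X] K x = algebraMap O K (algebraMap k[X] O x)
    exact IsScalarTower.algebraMap_apply k[X] O K x
  · show (0 : K) = algebraMap O K 0
    rw [map_zero]

theorem omega_int : IsIntegral k[X] (⟨0, 1⟩ : QuadraticAlgebra K (algebraMap O K a) 1) := by
  have h1 : IsIntegral k[X] (algebraMap K (QuadraticAlgebra K (algebraMap O K a) 1)
      (algebraMap O K a)) := by
    have h2 : IsIntegral k[X] a := IsIntegralClosure.isIntegral k[X] K a
    exact (h2.algebraMap (B := K)).algebraMap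
  refine IsIntegral.of_aeval_monic (p := X ^ 2 - X) ?_ ?_ ?_
  · exact monic_X_pow_sub (by rw [degree_X]; norm_num)
  · have : (X ^ 2 - X : k[X][X]).natDegree = 2 := by
      rw [natDegree_sub_eq_left_of_natDegree_lt] <;> simp
    rw [this]; norm_num
  · have e : aeval (⟨0, 1⟩ : QuadraticAlgebra K (algebraMap O K a) 1) (X ^ 2 - X : k[X][X]) =
        algebraMap K (QuadraticAlgebra K (algebraMap O K a) 1) (algebraMap O K a) := by
      rw [map_sub, map_pow, aeval_X]
      ext <;> simp [sq]
    rw [e]; exact h1

theorem intcl : @IsIntegralClosure (QuadraticAlgebra O a 1) k[X]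
    (QuadraticAlgebra K (algebraMap O K a) 1) _ _ _ _ (mp O K a).toAlgebra := by
  letI := (mp O K a).toAlgebra
  have h2 : (2 : K) = 0 := CharTwo.two_eq_zero
  have hinj : Function.Injective (algebraMap O K) :=
    IsIntegralClosure.algebraMap_injective O k[X] K
  have hKL : Function.Injective (algebraMap K (QuadraticAlgebra K (algebraMap O K a) 1)) :=
    QuadraticAlgebra.algebraMap_injective
  have hω := omega_int (k := k) (K := K) a
  refine ⟨?_, ?_⟩
  · intro x y hxy
    have h1 : mp O K a x = mp O K a y := hxy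
    ext
    · exact hinj (congrArg QuadraticAlgebra.re h1)
    · exact hinj (congrArg QuadraticAlgebra.im h1)
  · intro x
    constructor
    · intro hx
      -- the conjugate
      have h3 : IsIntegral k[X] (star x) := by
        have := IsIntegral.map_of_comp_eq (RingHom.id k[X])
          (starRingEnd (QuadraticAlgebra K (algebraMap O K a) 1)) (by
            refine RingHom.ext fun c => ?_
            show algebraMap k[X] (QuadraticAlgebra K (algebraMap O K a) 1) c =
              star (algebraMap k[X] (QuadraticAlgebra K (algebraMap O K a) 1) c)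
            ext
            · rw [QuadraticAlgebra.re_star]
              show algebraMap k[X] K c = algebraMap k[X] K c + 1 * 0
              ring
            · rw [QuadraticAlgebra.im_star]
              show (0 : K) = -0
              ring) hx
        exact this
      have h4 : x + star x = algebraMap K (QuadraticAlgebra K (algebraMap O K a) 1) x.im := by
        rw [← QuadraticAlgebra.algebraMap_trace_eq_add_star, QuadraticAlgebra.trace_def, h2]
        congr 1
        ring
      have h5 : IsIntegral k[X] x.im := by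
        rw [← isIntegral_algebraMap_iff (B := QuadraticAlgebra K (algebraMap O K a) 1) hKL, ← h4]
        exact hx.add h3
      have h6 : IsIntegral k[X] x.re := by
        rw [← isIntegral_algebraMap_iff (B := QuadraticAlgebra K (algebraMap O K a) 1) hKL]
        have h7 : algebraMap K (QuadraticAlgebra K (algebraMap O K a) 1) x.re =
            x - algebraMap K (QuadraticAlgebra K (algebraMap O K a) 1) x.im * ⟨0, 1⟩ := by
          ext <;> simp
        rw [h7]
        exact hx.sub (h5.algebraMap.mul hω)
      obtain ⟨u, hu⟩ := (IsIntegralClosure.isIntegral_iff (A := O)).1 h6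
      obtain ⟨v, hv⟩ := (IsIntegralClosure.isIntegral_iff (A := O)).1 h5
      refine ⟨⟨u, v⟩, ?_⟩
      show mp O K a ⟨u, v⟩ = x
      ext
      · exact hu
      · exact hv
    · rintro ⟨y, rfl⟩
      have h8 : algebraMap (QuadraticAlgebra O a 1) (QuadraticAlgebra K (algebraMap O K a) 1) y =
          algebraMap K (QuadraticAlgebra K (algebraMap O K a) 1) (algebraMap O K y.re) +
          algebraMap K (QuadraticAlgebra K (algebraMap O K a) 1) (algebraMap O K y.im) *
            ⟨0, 1⟩ := by
        show mp O K a y = _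
        ext <;> simp [mp]
      rw [h8]
      have h9 : ∀ c : O, IsIntegral k[X]
          (algebraMap K (QuadraticAlgebra K (algebraMap O K a) 1) (algebraMap O K c)) := by
        intro c
        have h2 : IsIntegral k[X] c := IsIntegralClosure.isIntegral k[X] K c
        exact (h2.algebraMap (B := K)).algebraMap
      exact (h9 _).add ((h9 _).mul hω)

end intcl

/-- The extensions of a homomorphism. -/
noncomputable def exh {R O B : Type} [CommRing R] [CommRing O] [CommRing B] [Algebra R O]
    [Algebra R B] (a : O) (φ : O →ₐ[R] B) (y : B) (hy : y * y = φ a + y) :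
    QuadraticAlgebra O a 1 →ₐ[R] B where
  toFun z := φ z.re + φ z.im * y
  map_one' := by simp [QuadraticAlgebra.re_one, QuadraticAlgebra.im_one]
  map_mul' z w := by
    simp only [QuadraticAlgebra.re_mul, QuadraticAlgebra.im_mul, map_add, map_mul, map_one,
      one_mul]
    linear_combination (-(φ z.im * φ w.im)) * hy
  map_zero' := by simp
  map_add' z w := by
    simp only [QuadraticAlgebra.re_add, QuadraticAlgebra.im_add, map_add]; ring
  commutes' r := by
    show φ (algebraMap R O r) + φ 0 * y = algebraMap R B r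
    rw [map_zero, zero_mul, add_zero, AlgHom.commutes]

/-- Twice as many homomorphisms. -/
theorem card_le {R O B : Type} [CommRing R] [CommRing O] [Field B] [Finite B] [Algebra R O]
    [Algebra R B] (h2 : (2 : B) = 0) (a : O) (h : ∀ φ : O →ₐ[R] B, ∃ y : B, y * y = φ a + y) :
    2 * Nat.card (O →ₐ[R] B) ≤ Nat.card (QuadraticAlgebra O a 1 →ₐ[R] B) := by
  rcases finite_or_infinite (O →ₐ[R] B) with hf | hf
  · choose y hy using h
    have hy' : ∀ φ : O →ₐ[R] B, (1 + y φ) * (1 + y φ) = φ a + (1 + y φ) := by
      intro φ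
      linear_combination hy φ + (y φ) * h2
    -- the restriction
    let ι : O →ₐ[R] QuadraticAlgebra O a 1 :=
      { toFun := fun x => ⟨x, 0⟩
        map_one' := by ext <;> simp [QuadraticAlgebra.re_one, QuadraticAlgebra.im_one]
        map_mul' := fun x y => by ext <;> simp
        map_zero' := by ext <;> simp
        map_add' := fun x y => by ext <;> simp
        commutes' := fun r => rfl }
    haveI : Finite (QuadraticAlgebra O a 1 →ₐ[R] B) := by
      refine Finite.of_injective
        (fun ψ : QuadraticAlgebra O a 1 →ₐ[R] B => ((ψ.comp ι, ψ ⟨0, 1⟩) : (O →ₐ[R] B) × B)) ?_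
      intro ψ ψ' hψ
      have h1 : ψ.comp ι = ψ'.comp ι := congrArg Prod.fst hψ
      have h3 : ψ ⟨0, 1⟩ = ψ' ⟨0, 1⟩ := congrArg Prod.snd hψ
      ext z
      have e : z = ι z.re + ι z.im * ⟨0, 1⟩ := by
        ext <;> simp [ι]
      rw [e, map_add, map_add, map_mul, map_mul, h3]
      have h4 : ∀ x, ψ (ι x) = ψ' (ι x) := fun x => DFunLike.congr_fun h1 x
      rw [h4, h4]
    let F : (O →ₐ[R] B) × Bool → (QuadraticAlgebra O a 1 →ₐ[R] B) := fun p =>
      if p.2 = true then exh a p.1 (y p.1) (hy p.1) else exh a p.1 (1 + y p.1) (hy' p.1)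
    have hF1 : ∀ p x, F p (ι x) = p.1 x := by
      rintro ⟨φ, b⟩ x
      cases b
      · show φ x + φ 0 * _ = φ x
        rw [map_zero]; ring
      · show φ x + φ 0 * _ = φ x
        rw [map_zero]; ring
    have hFt : ∀ φ, F (φ, true) ⟨0, 1⟩ = y φ := by
      intro φ
      show φ 0 + φ 1 * y φ = y φ
      rw [map_zero, map_one]; ring
    have hFf : ∀ φ, F (φ, false) ⟨0, 1⟩ = 1 + y φ := by
      intro φ
      show φ 0 + φ 1 * (1 + y φ) = 1 + y φ
      rw [map_zero, map_one]; ring
    have hF : Function.Injective F := by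
      rintro ⟨φ, b⟩ ⟨φ', b'⟩ hp
      have e1 : φ = φ' := by
        ext x
        rw [← hF1 (φ, b) x, hp, hF1]
      subst e1
      have e2 : F (φ, b) ⟨0, 1⟩ = F (φ, b') ⟨0, 1⟩ := by rw [hp]
      cases b <;> cases b'
      · rfl
      · rw [hFf, hFt] at e2
        exact absurd (add_eq_right.1 e2) one_ne_zero
      · rw [hFf, hFt] at e2
        exact absurd (add_eq_right.1 e2.symm) one_ne_zero
      · rfl
    have h5 := Nat.card_le_card_of_injective F hF
    rw [Nat.card_prod, Nat.card_eq_fintype_card (α := Bool), Fintype.card_bool] at h5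
    omega
  · rw [Nat.card_eq_zero_of_infinite (α := O →ₐ[R] B)]
    omega

/-- Reduction: a root of `y ^ 2 + y = a` in the residue field. -/
theorem root {O K B : Type} [CommRing O] [IsDedekindDomain O] [Field K] [Algebra O K]
    [IsFractionRing O K] [Field B] (h2 : (2 : B) = 0) (φ : O →+* B) (hφ : RingHom.ker φ ≠ ⊥)
    (a : O) (h : ∀ v : HeightOneSpectrum O, ∃ z : K,
      v.valuation K (algebraMap O K a + z ^ 2 + z) < 1) : ∃ y : B, y * y = φ a + y := by
  let v : HeightOneSpectrum O := ⟨RingHom.ker φ, RingHom.ker_isPrime φ, hφ⟩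
  obtain ⟨z, hz⟩ := h v
  have ha : v.valuation K (algebraMap O K a) ≤ 1 := v.valuation_le_one a
  have hz1 : v.valuation K z ≤ 1 := by
    by_contra hlt
    rw [not_le] at hlt
    have h3 : v.valuation K (z + 1) = v.valuation K z := by
      rw [Valuation.map_add_eq_of_lt_left]
      rw [map_one]; exact hlt
    have h4 : v.valuation K (z ^ 2 + z) = v.valuation K z * v.valuation K z := by
      have : z ^ 2 + z = z * (z + 1) := by ring
      rw [this, map_mul, h3]
    have h5 : 1 < v.valuation K (z ^ 2 + z) := by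
      rw [h4]; exact one_lt_mul'' hlt hlt
    have h6 : v.valuation K (algebraMap O K a + (z ^ 2 + z)) = v.valuation K (z ^ 2 + z) :=
      Valuation.map_add_eq_of_lt_right _ (lt_of_le_of_lt ha h5)
    rw [add_assoc, h6] at hz
    exact absurd hz (not_lt.2 h5.le)
  obtain ⟨y₀, hy₀⟩ : ∃ y₀ : O, v.valuation K (z - algebraMap O K y₀) < 1 := by
    obtain ⟨n, d, hd, rfl⟩ := IsFractionRing.div_surjective (A := O) z
    have hd0 : d ≠ 0 := nonZeroDivisors.ne_zero hd
    have hdK : algebraMap O K d ≠ 0 := by
      rw [Ne, IsFractionRing.to_map_eq_zero_iff]; exact hd0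
    obtain ⟨i, hi⟩ : ∃ i : ℕ, v.intValuation d = exp (-(i : ℤ)) := ⟨_, v.intValuation_if_neg hd0⟩
    have hdi : d ∈ v.asIdeal ^ i := by
      rw [← HeightOneSpectrum.intValuation_le_pow_iff_mem, hi]
    have hdi' : d ∉ v.asIdeal ^ (i + 1) := by
      rw [← HeightOneSpectrum.intValuation_le_pow_iff_mem, hi, not_le, exp_lt_exp]
      push_cast; linarith
    have hdv : 0 < v.valuation K (algebraMap O K d) := zero_lt_iff.2 ((_root_.map_ne_zero _).2 hdK)
    have hn : n ∈ v.asIdeal ^ i := by
      rw [map_div₀] at hz1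
      have h7 := (div_le_one₀ hdv).1 hz1
      rw [HeightOneSpectrum.valuation_of_algebraMap, HeightOneSpectrum.valuation_of_algebraMap,
        hi] at h7
      rw [← HeightOneSpectrum.intValuation_le_pow_iff_mem]
      exact h7
    haveI := v.isPrime
    obtain ⟨y₀, e, he, hye⟩ := Ideal.exists_mul_add_mem_pow_succ v.ne_bot d n hdi hdi' hn
    refine ⟨y₀, ?_⟩
    have h8 : algebraMap O K n / algebraMap O K d - algebraMap O K y₀ =
        algebraMap O K e / algebraMap O K d := by
      rw [← hye, map_add, map_mul]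
      field_simp
      ring
    rw [h8, map_div₀, div_lt_one₀ hdv, HeightOneSpectrum.valuation_of_algebraMap,
      HeightOneSpectrum.valuation_of_algebraMap, hi]
    rw [← HeightOneSpectrum.intValuation_le_pow_iff_mem] at he
    refine lt_of_le_of_lt he ?_
    rw [exp_lt_exp]; push_cast; linarith
  have h9 : v.valuation K (algebraMap O K (a + y₀ ^ 2 + y₀)) < 1 := by
    have e : algebraMap O K (a + y₀ ^ 2 + y₀) = (algebraMap O K a + z ^ 2 + z) -
        (z - algebraMap O K y₀) * (z + algebraMap O K y₀ + 1) := by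
      rw [map_add, map_add, map_pow]; ring
    rw [e]
    refine (Valuation.map_sub_lt _ hz ?_)
    rw [map_mul]
    refine mul_lt_one_of_lt_of_le hy₀ ?_
    refine Valuation.map_add_le _ (Valuation.map_add_le _ hz1 (v.valuation_le_one _)) ?_
    rw [map_one]
  rw [HeightOneSpectrum.valuation_lt_one_iff_mem] at h9
  have h10 : φ (a + y₀ ^ 2 + y₀) = 0 := h9
  rw [map_add, map_add, map_pow] at h10
  exact ⟨φ y₀, by linear_combination h10 - (φ a + φ y₀) * h2⟩

/-- Comparison of logarithmic densities. -/
theorem logd {k : Type} [Field k] [Finite k] (f f' : Pr k → ℝ) (h : ∀ Q, 2 * f Q ≤ f' Q)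
    (hf : LogD f 1) (hf' : LogD f' 1) : False := by
  obtain ⟨C₁, hC⟩ := hf
  obtain ⟨C₂, hC'⟩ := hf'
  have hq : (1 : ℝ) < Nat.card k := by exact_mod_cast Finite.one_lt_card (α := k)
  have hq0 : (0 : ℝ) < Nat.card k := by linarith
  set m : ℝ := |C₂| + 2 * |C₁| + 1 with hm
  have hm0 : 0 < m := by positivity
  set u : ℝ := (1 - Real.exp (-m)) / Nat.card k with hu
  have he : Real.exp (-m) < 1 := by
    rw [Real.exp_lt_one_iff]; linarith
  have hu0 : 0 < u := div_pos (by linarith) hq0
  have hqu : (Nat.card k : ℝ) * u = 1 - Real.exp (-m) := by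
    rw [hu]; field_simp
  have hqu1 : (Nat.card k : ℝ) * u < 1 := by
    rw [hqu]; linarith [Real.exp_pos (-m)]
  obtain ⟨s1, b1⟩ := hC u hu0 hqu1
  obtain ⟨s2, b2⟩ := hC' u hu0 hqu1
  have hlog : Real.log (1 / (1 - Nat.card k * u)) = m := by
    rw [hqu, sub_sub_cancel, one_div, ← Real.exp_neg, neg_neg, Real.log_exp]
  rw [hlog] at b1 b2
  have h3 : 2 * ∑' Q : Pr k, f Q * u ^ Q.1.natDegree ≤ ∑' Q : Pr k, f' Q * u ^ Q.1.natDegree := by
    rw [← tsum_mul_left]
    refine Summable.tsum_le_tsum (fun Q => ?_) (s1.mul_left 2) s2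
    have h4 : 0 < u ^ Q.1.natDegree := pow_pos hu0 _
    have h5 := mul_le_mul_of_nonneg_right (h Q) h4.le
    linarith
  rw [abs_le] at b1 b2
  have h6 := le_abs_self C₁
  have h7 := le_abs_self C₂
  linarith [b1.1, b2.2]

theorem fin_Kp {k : Type} [Field k] [Finite k] (Q : Pr k) : Finite (Kp Q) := by
  have h1 : Module.Finite k (AdjoinRoot Q.1) := (AdjoinRoot.powerBasis Q.2.2.ne_zero).finite
  have : Finite (AdjoinRoot Q.1) := Module.finite_of_finite k
  exact this

section main

variable (k K₀ K O : Type) [Field k] [Finite k] [CharP k 2] [Field K₀]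
  [Algebra k[X] K₀] [IsFractionRing k[X] K₀] [Field K] [Algebra K₀ K] [FiniteDimensional K₀ K]
  [Algebra.IsSeparable K₀ K] [Algebra k[X] K] [IsScalarTower k[X] K₀ K] [CommRing O]
  [IsDedekindDomain O] [Algebra O K] [IsFractionRing O K] [Algebra k[X] O]
  [IsScalarTower k[X] O K] [IsIntegralClosure O k[X] K]

include k K₀ in
/-- If `a` is not of the form `z ^ 2 + z` then there is a place at which this is not the case for the
reduction of `a`. -/
theorem loc [CharP K 2] (hZ : S_ZETA) (a : O) (ha : ¬ AS (algebraMap O K a)) :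
    ∃ v : HeightOneSpectrum O, ∀ z : K, ¬ v.valuation K (algebraMap O K a + z ^ 2 + z) < 1 := by
  by_contra hcon
  push Not at hcon
  have c2 : (2 : K) = 0 := CharTwo.two_eq_zero
  haveI : Fact (∀ r : K, r ^ 2 ≠ algebraMap O K a + 1 * r) :=
    ⟨fun r hr => ha ⟨r, by linear_combination hr - (r ^ 2 - algebraMap O K a) * c2 ⟩⟩
  letI := (mp O K a).toAlgebra
  haveI := tower (k := k) (O := O) (K := K) a
  haveI := intcl (k := k) (O := O) (K := K) a
  haveI := sep (K := K) (a := algebraMap O K a)
  haveI : FiniteDimensional K₀ (QuadraticAlgebra K (algebraMap O K a) 1) :=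
    FiniteDimensional.trans K₀ K _
  haveI : Algebra.IsSeparable K₀ (QuadraticAlgebra K (algebraMap O K a) 1) :=
    Algebra.IsSeparable.trans K₀ K _
  have h1 := hZ k K₀ K O
  have h2 := hZ k K₀ (QuadraticAlgebra K (algebraMap O K a) 1) (QuadraticAlgebra O a 1)
  refine logd _ _ (fun Q => ?_) h1 h2
  haveI := fin_Kp Q
  have k2 : (2 : k) = 0 := CharTwo.two_eq_zero
  have p2 : (2 : k[X]) = 0 := by
    have : (2 : k[X]) = C (2 : k) := by rw [map_ofNat]
    rw [this, k2, map_zero]
  have b2 : (2 : Kp Q) = 0 := by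
    have : (2 : Kp Q) = algebraMap k[X] (Kp Q) 2 := by rw [map_ofNat]
    rw [this, p2, map_zero]
  have h3 := card_le (R := k[X]) (O := O) (B := Kp Q) b2 a (fun φ => by
    refine root (K := K) b2 φ.toRingHom ?_ a hcon
    intro hbot
    have h4 : algebraMap k[X] O Q.1 ∈ RingHom.ker φ.toRingHom := by
      rw [RingHom.mem_ker]
      show φ (algebraMap k[X] O Q.1) = 0
      rw [AlgHom.commutes]
      exact Ideal.Quotient.eq_zero_iff_mem.2 (Ideal.mem_span_singleton_self _)
    rw [hbot, Ideal.mem_bot] at h4
    have h5 : algebraMap k[X] K Q.1 = 0 := by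
      rw [IsScalarTower.algebraMap_apply k[X] O K, h4, map_zero]
    rw [IsScalarTower.algebraMap_apply k[X] K₀ K, map_eq_zero,
      IsFractionRing.to_map_eq_zero_iff] at h5
    exact Q.2.2.ne_zero h5)
  exact_mod_cast h3

end main

theorem unr : S_UNR := by
  intro k K₀ K O _ _ _ _ _ _ _ _ _ _ _ _ _ _ _ _ _ _ _ w hw hF hZ
  haveI : CharP K 2 := by
    haveI : CharP K₀ 2 := by
      haveI : CharP k[X] 2 := inferInstance
      exact charP_of_injective_algebraMap (IsFractionRing.injective k[X] K₀) 2
    exact charP_of_injective_algebraMap (algebraMap K₀ K).injective 2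
  have c2 : (2 : K) = 0 := CharTwo.two_eq_zero
  obtain ⟨N, hN⟩ := hF.near
  set M : ℤ := 2 * |N| with hM
  have hfin := hF.fin M
  -- the places
  let pick : O → Finset (HeightOneSpectrum O) := fun a =>
    if h : ¬ AS (algebraMap O K a) then {(loc k K₀ K O hZ a h).choose} else ∅
  refine ⟨hfin.toFinset.biUnion pick, fun s hs α h1 h2 h3 => ?_⟩
  have step : ∀ v : HeightOneSpectrum O, ∃ z : K, v.valuation K (α + z ^ 2 + z) ≤ 1 ∧
      (v.valuation K α ≤ 1 → z = 0) := by
    intro v
    by_cases hv : v.valuation K α ≤ 1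
    · exact ⟨0, by simpa using hv, fun _ => rfl⟩
    · by_cases hvs : v ∈ s
      · obtain ⟨z, hz⟩ := h2 v hvs
        exact ⟨z, hz.le, fun h => absurd h hv⟩
      · obtain ⟨z, hz⟩ := h1 v hvs
        exact ⟨z, hz, fun h => absurd h hv⟩
  choose z hz1 hz2 using step
  have hfz : {v | z v ≠ 0}.Finite := by
    refine (HeightOneSpectrum.Support.finite O α).subset fun v hv => ?_
    show 1 < v.valuation K α
    by_contra h
    exact hv (hz2 v (not_lt.1 h))
  obtain ⟨g, hg⟩ := Pool.Agent.H467.CT.Intg.cousin (K := K) z hfz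
  obtain ⟨p, hp⟩ := HeightOneSpectrum.mem_integers_of_valuation_le_one K (α + g ^ 2 + g) (R := O)
    (fun v => by
      have e : α + g ^ 2 + g = (α + z v ^ 2 + z v) + ((g - z v) ^ 2 + (g - z v)) := by
        linear_combination (-z v ^ 2 + g * z v) * c2
      rw [e]
      refine (Valuation.map_add_le _ (hz1 v) ?_)
      refine (Valuation.map_add_le _ ?_ (hg v))
      rw [map_pow]
      exact pow_le_one' (hg v) 2)
  obtain ⟨y, hy⟩ := h3
  obtain ⟨g', hg'⟩ := hN (y + g)
  have ea : algebraMap O K (p + g' ^ 2 + g') =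
      α + (g + algebraMap O K g') ^ 2 + (g + algebraMap O K g') := by
    rw [map_add, map_add, map_pow, hp]
    linear_combination (-g * algebraMap O K g') * c2
  have hMN : N ≤ M := by
    rw [hM]; have := le_abs_self N; have := abs_nonneg N; linarith
  have hMN2 : 2 * N ≤ M := by
    rw [hM]; have := le_abs_self N; linarith
  have hM0 : 0 ≤ M := by
    rw [hM]; have := abs_nonneg N; linarith
  have ha : p + g' ^ 2 + g' ∈ hfin.toFinset := by
    rw [Set.Finite.mem_toFinset, Set.mem_setOf_eq]
    have e : algebraMap O K (p + g' ^ 2 + g') = (α + y ^ 2 + y) +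
        ((y + g - algebraMap O K g') ^ 2 + (y + g - algebraMap O K g')) := by
      rw [ea]
      linear_combination (-y ^ 2 - y - y * g + y * algebraMap O K g' +
        2 * g * algebraMap O K g' + algebraMap O K g') * c2
    rw [e]
    refine Valuation.map_add_le _ (hy.le.trans ?_) (Valuation.map_add_le _ ?_ (hg'.trans ?_))
    · rw [← exp_zero, exp_le_exp]; exact hM0
    · rw [map_pow]
      calc w (y + g - algebraMap O K g') ^ 2 ≤ (exp N) ^ 2 := pow_le_pow_left' hg' 2
        _ = exp (2 * N) := by rw [← exp_nsmul]; simp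
        _ ≤ exp M := by rw [exp_le_exp]; exact hMN2
    · rw [exp_le_exp]; exact hMN
  by_cases has : AS (algebraMap O K (p + g' ^ 2 + g'))
  · obtain ⟨x, hx⟩ := has
    refine ⟨x + (g + algebraMap O K g'), ?_⟩
    rw [ea] at hx
    linear_combination hx - ((g + algebraMap O K g') ^ 2 + (g + algebraMap O K g') +
      x * (g + algebraMap O K g')) * c2
  · exfalso
    have hmem : (loc k K₀ K O hZ _ has).choose ∈ hfin.toFinset.biUnion pick := by
      rw [Finset.mem_biUnion]
      refine ⟨_, ha, ?_⟩
      show _ ∈ (if h : ¬ AS (algebraMap O K (p + g' ^ 2 + g')) then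
        {(loc k K₀ K O hZ _ h).choose} else ∅ : Finset (HeightOneSpectrum O))
      rw [dif_pos has]
      exact Finset.mem_singleton_self _
    obtain ⟨x, hx⟩ := h2 _ (hs hmem)
    refine (loc k K₀ K O hZ _ has).choose_spec (x + (g + algebraMap O K g')) ?_
    have e : algebraMap O K (p + g' ^ 2 + g') + (x + (g + algebraMap O K g')) ^ 2 +
        (x + (g + algebraMap O K g')) = α + x ^ 2 + x := by
      rw [ea]
      linear_combination ((g + algebraMap O K g') ^ 2 + (g + algebraMap O K g') +
        x * (g + algebraMap O K g')) * c2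
    rw [e]
    exact hx

end Pool.Agent.H467.GK.Unr
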