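import Pool.Agent.H467.GK.Cnt
import Pool.Agent.H467.GK.Infb
import Pool.Agent.H467.GK.Cls
import Pool.Agent.H467.GK.Bas
import Pool.Agent.H467.GK.Hen
import Pool.Agent.H467.GK.Resk
import Pool.Agent.H467.GK.Uni
import Pool.Agent.H467.GK.Unr
import Pool.Agent.H467.GK.Eqk
import Pool.Agent.H467.GK.Bgk
import Pool.Agent.H467.GK.Fink
import Pool.Agent.H467.MR.Zeta

/-!
# Descent in characteristic two over a global function field: assembly

Project GK (helper467).
-/

set_option autoImplicit false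
set_option linter.all false

open Polynomial IsDedekindDomain WeierstrassCurve WeierstrassCurve.Affine WithZero Filter
open Pool.Agent.TH115.GD
open Pool.Agent.H467.CT
open scoped Classical

namespace Pool.Agent.H467.GK

/-- The elements of `K` with poles of order at most `N` at the places in `S` and no other poles. -/
def VS {K : Type} [Field K] (S : Finset (Vl K)) (N : ℕ) : Set K :=
  {a | (∀ u ∈ S, u a ≤ exp (N : ℤ)) ∧ ∀ u : Vl K, Function.Surjective u → u ∉ S → u a ≤ 1}

section asm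

variable {k K₀ K O : Type} [Field k] [Finite k] [CharP k 2] [Field K₀]
  [Algebra k[X] K₀] [IsFractionRing k[X] K₀] [Field K] [CharP K 2] [Algebra K₀ K]
  [FiniteDimensional K₀ K]
  [Algebra.IsSeparable K₀ K] [Algebra k[X] K] [IsScalarTower k[X] K₀ K] [CommRing O]
  [IsDedekindDomain O] [Algebra O K] [IsFractionRing O K] [Algebra k[X] O]
  [IsScalarTower k[X] O K] [IsIntegralClosure O k[X] K]

omit [Finite k] [CharP k 2] [Field K₀] [Field k]
  [Algebra k[X] K₀] [IsFractionRing k[X] K₀] [CharP K 2] [Algebra K₀ K]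
  [FiniteDimensional K₀ K]
  [Algebra.IsSeparable K₀ K] [Algebra k[X] K] [IsScalarTower k[X] K₀ K] [Algebra k[X] O]
  [IsScalarTower k[X] O K] [IsIntegralClosure O k[X] K] in
theorem val_inj : Function.Injective (fun v : HeightOneSpectrum O => (v.valuation K : Vl K)) := by
  intro v v' h
  apply HeightOneSpectrum.ext
  ext x
  have h1 : v.valuation K (algebraMap O K x) = v'.valuation K (algebraMap O K x) := by
    have := congrArg (fun u : Vl K => u (algebraMap O K x)) h
    exact this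
  rw [HeightOneSpectrum.valuation_of_algebraMap, HeightOneSpectrum.valuation_of_algebraMap] at h1
  rw [← v.intValuation_lt_one_iff_mem, ← v'.intValuation_lt_one_iff_mem, h1]

/-- The finite places of `S`. -/
noncomputable def fS (O : Type) [CommRing O] [IsDedekindDomain O] [Algebra O K]
    [IsFractionRing O K] (S : Finset (Vl K)) : Finset (HeightOneSpectrum O) :=
  S.preimage (fun v : HeightOneSpectrum O => (v.valuation K : Vl K)) (val_inj.injOn)

theorem mem_fS {S : Finset (Vl K)} {v : HeightOneSpectrum O} :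
    v ∈ fS O S ↔ (v.valuation K : Vl K) ∈ S := by
  unfold fS
  rw [Finset.mem_preimage]

theorem w_ne {w : Vl K} (hf : Facts k K₀ O w) (v : HeightOneSpectrum O) : w ≠ v.valuation K := by
  rintro rfl
  have h1 := hf.t_gt
  have h2 : v.valuation K (algebraMap k[X] K X) ≤ 1 := by
    rw [IsScalarTower.algebraMap_apply k[X] O K]
    exact v.valuation_le_one _
  exact absurd h1 (not_lt.2 h2)

theorem card_S (hcls : S_CLS) {w : Vl K} (hinf : Inf k K₀ w) (hf : Facts k K₀ O w)
    {S : Finset (Vl K)} (hS : ∀ u ∈ S, Function.Surjective u) (hw : w ∈ S) :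
    S.card = (fS O S).card + 1 := by
  have e : S = insert w ((fS O S).image (fun v : HeightOneSpectrum O => (v.valuation K : Vl K))) := by
    ext u
    rw [Finset.mem_insert, Finset.mem_image]
    constructor
    · intro hu
      rcases hcls k K₀ K O w hinf u (hS u hu) with h | ⟨v, h⟩
      · exact Or.inl h
      · exact Or.inr ⟨v, mem_fS.2 (by rw [← h]; exact hu), h.symm⟩
    · rintro (h | ⟨v, hv, h⟩)
      · rw [h]; exact hw
      · rw [← h]; exact mem_fS.1 hv
  conv_lhs => rw [e]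
  rw [Finset.card_insert_of_notMem, Finset.card_image_of_injective _ val_inj]
  rw [Finset.mem_image]
  rintro ⟨v, -, h⟩
  exact w_ne (K₀ := K₀) hf v h.symm

theorem vs_eq (hcls : S_CLS) {w : Vl K} (hinf : Inf k K₀ w) (hf : Facts k K₀ O w)
    {S : Finset (Vl K)} (hS : ∀ u ∈ S, Function.Surjective u) (hw : w ∈ S) (N : ℕ) :
    VS S N = VK w (fS O S) N := by
  ext a
  constructor
  · rintro ⟨h1, h2⟩
    exact ⟨h1 w hw, fun v hv => h1 _ (mem_fS.1 hv), fun v hv =>
      h2 _ (v.valuation_surjective K) (fun h => hv (mem_fS.2 h))⟩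
  · rintro ⟨h1, h2, h3⟩
    refine ⟨fun u hu => ?_, fun u hu hu' => ?_⟩
    · rcases hcls k K₀ K O w hinf u (hS u hu) with h | ⟨v, h⟩
      · rw [h]; exact h1
      · rw [h]; exact h2 v (mem_fS.2 (by rw [← h]; exact hu))
    · rcases hcls k K₀ K O w hinf u hu with h | ⟨v, h⟩
      · exact absurd hw (by rw [← h]; exact hu')
      · rw [h]
        exact h3 v (fun h' => hu' (by rw [h]; exact mem_fS.1 h'))

/-- The number of the elements of `VK` tends to infinity. -/
theorem vk_inf (hbg : S_BGK) {w : Vl K} (hinf : Inf k K₀ w) (hf : Facts k K₀ O w)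
    {s : Finset (HeightOneSpectrum O)} (hfin : ∀ N : ℕ, (VK w s N).Finite) :
    Tendsto (fun N : ℕ => ((VK w s N).ncard : ℝ)) atTop atTop := by
  have h1 := hbg k K₀ K O w hinf hf s hfin 0 none
  rw [tendsto_atTop]
  intro B
  have h2 := h1.eventually (gt_mem_nhds (show (0 : ℝ) < 1 / (|B| + 1) by positivity))
  filter_upwards [h2] with N hN
  have hpos : 0 < (VK w s N).ncard := (Set.ncard_pos (hfin N)).2 ⟨0, vk_zero w s N⟩
  have hpos' : (0 : ℝ) < ((VK w s N).ncard : ℝ) := by exact_mod_cast hpos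
  have h3 : 1 ≤ {a ∈ VK w s N | ∃ z : K, plc w ((none : Option s).map Subtype.val)
      (a + z ^ 2 + z) ≤ 0}.ncard := by
    have : 0 < {a ∈ VK w s N | ∃ z : K, plc w ((none : Option s).map Subtype.val)
      (a + z ^ 2 + z) ≤ 0}.ncard := by
      refine (Set.ncard_pos ((hfin N).subset fun a ha => ha.1)).2
        ⟨0, vk_zero w s N, 0, ?_⟩
      simp
    exact this
  have h4 : (1 : ℝ) ≤ ({a ∈ VK w s N | ∃ z : K, plc w ((none : Option s).map Subtype.val)
      (a + z ^ 2 + z) ≤ 0}.ncard : ℝ) := by exact_mod_cast h3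
  rw [div_lt_iff₀ hpos'] at hN
  have h5 : (1 : ℝ) < 1 / (|B| + 1) * ((VK w s N).ncard : ℝ) := lt_of_le_of_lt h4 hN
  have h6 : (0 : ℝ) < |B| + 1 := by positivity
  rw [one_div, inv_mul_eq_div, lt_div_iff₀ h6, one_mul] at h5
  linarith [le_abs_self B]

/-- Elements without zeros and poles are roots of unity. -/
theorem root_of (hf : True) {w : Vl K} (hF : Facts k K₀ O w) {b : K}
    (hb : ∀ v : HeightOneSpectrum O, v.valuation K b = 1) (hw : w b = 1) :
    ∃ n : ℕ, 0 < n ∧ b ^ n = 1 := by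
  obtain ⟨β, hβ⟩ := HeightOneSpectrum.mem_integers_of_valuation_le_one (R := O) K b
    fun v => (hb v).le
  have hb0 : b ≠ 0 := by
    rintro rfl
    rw [map_zero] at hw
    exact zero_ne_one hw
  have hfin := hF.fin 0
  have hmem : ∀ n : ℕ, β ^ n ∈ {x : O | w (algebraMap O K x) ≤ exp (0 : ℤ)} := by
    intro n
    show w (algebraMap O K (β ^ n)) ≤ exp (0 : ℤ)
    rw [map_pow, hβ, map_pow, hw, one_pow, exp_zero]
  obtain ⟨i, -, j, -, hij, he⟩ := Set.infinite_univ.exists_ne_map_eq_of_mapsTo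
    (f := fun n : ℕ => β ^ n) (fun n _ => hmem n) hfin
  have key : ∀ i j : ℕ, i < j → β ^ i = β ^ j → ∃ n : ℕ, 0 < n ∧ b ^ n = 1 := by
    intro i j hij he
    refine ⟨j - i, by omega, ?_⟩
    have h1 : b ^ i = b ^ j := by
      rw [← hβ, ← map_pow, ← map_pow, he]
    have h2 : b ^ j = b ^ (j - i) * b ^ i := by
      rw [← pow_add]
      congr 1
      omega
    rw [h2] at h1
    exact (mul_right_cancel₀ (pow_ne_zero i hb0) (by rw [one_mul, ← h1])).symm
  rcases lt_or_gt_of_ne hij with h | h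
  · exact key i j h he
  · exact key j i h he.symm

/-- The theorem for a presentation of `K`. -/
theorem internal (O : Type) [CommRing O]
    [IsDedekindDomain O] [Algebra O K] [IsFractionRing O K] [Algebra k[X] O]
    [IsScalarTower k[X] O K] [IsIntegralClosure O k[X] K] {w : Vl K} (hinf : Inf k K₀ w) :
    (∀ b : K, (∀ u : Vl K, Function.Surjective u → u b = 1) → ∃ n : ℕ, 0 < n ∧ b ^ n = 1) ∧
    (∀ a b : K, b ≠ 0 → (∀ P : Pt (cc a b) K, ∃ Q, Q + Q = P) →
            (∀ P : Pt (cc a b) K, P + P = 0 → P = 0) → Finite (Pt (cc a b) K)) ∧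
    ∃ S₁ : Finset (Vl K), (∀ u ∈ S₁, Function.Surjective u) ∧
      ∀ S : Finset (Vl K), S₁ ⊆ S → (∀ u ∈ S, Function.Surjective u) →
        (∀ N, (VS S N).Finite) ∧
        Tendsto (fun N : ℕ => ((VS S N).ncard : ℝ)) atTop atTop ∧
        ∀ b : K, ¬ IsSquare b → (∀ u : Vl K, Function.Surjective u → u ∉ S → u b = 1) →
          S.card - 1 ≠ 0 ∧ ∀ R : K → Prop,
          (∀ a : K, (∀ P : Pt (cc a b) K, ∃ Q, Q + Q = P) →
            (∀ P : Pt (cc a b) K, P + P = 0 → P = 0) → ShaTwoA (cc a b) → R a) →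
          ∀ c : ℝ, c < pm (S.card - 1) → ∀ᶠ N : ℕ in atTop,
            c * ((VS S N).ncard : ℝ) ≤ ({a ∈ VS S N | R a}.ncard : ℝ) := by
  have hf := Infb.infb k K₀ K O w hinf
  obtain ⟨s₁, hs₁⟩ := Uni.uni k K₀ K O w hinf hf
  obtain ⟨s₂, hs₂⟩ := Unr.unr k K₀ K O w hinf hf Pool.Agent.H467.MR.Zeta.zeta
  obtain ⟨ht, s₃, hs₃⟩ := Bas.bas k K₀ K O
  obtain ⟨ρ⟩ := Resk.resk k K₀ K O w hinf hf (Res.res k K₀)
  refine ⟨fun b hb => root_of (k := k) (K₀ := K₀) trivial hf
    (fun v => hb _ (v.valuation_surjective K)) (hb w hinf.surj),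
    fun a b hb h1 h2 => Fink.fink k K₀ K O w hinf hf inferInstance _ _ _
      (std_bc (Ω := K) (a := a) (b := b) hb) h1 h2,
    insert w ((s₁ ∪ s₂ ∪ s₃).image (fun v : HeightOneSpectrum O =>
    (v.valuation K : Vl K))), ?_, ?_⟩
  · intro u hu
    rcases Finset.mem_insert.1 hu with h | h
    · rw [h]; exact hinf.surj
    · obtain ⟨v, -, h⟩ := Finset.mem_image.1 h
      rw [← h]; exact v.valuation_surjective K
  intro S hS1 hS
  have hw : w ∈ S := hS1 (Finset.mem_insert_self _ _)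
  have hsub : s₁ ∪ s₂ ∪ s₃ ⊆ fS O S := by
    intro v hv
    rw [mem_fS]
    exact hS1 (Finset.mem_insert_of_mem (Finset.mem_image_of_mem _ hv))
  obtain ⟨u, hunb⟩ := hs₁ (fS O S) (fun v hv => hsub
    (Finset.mem_union_left _ (Finset.mem_union_left _ hv)))
  have hunr := hs₂ (fS O S) (fun v hv => hsub
    (Finset.mem_union_left _ (Finset.mem_union_right _ hv)))
  have hder : ∀ v : HeightOneSpectrum O, v ∉ fS O S → ∀ p q : K,
      v.valuation K (p ^ 2 + algebraMap k[X] K X * q ^ 2) ≤ 1 → v.valuation K q ≤ 1 :=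
    fun v hv => hs₃ v (fun h => hv (hsub (Finset.mem_union_right _ h)))
  obtain ⟨τ, hτ⟩ := Eqd.tau k
  have hfin := (Eqk.eqk k K₀ K O w hinf hf ht ρ τ hτ (fS O S) hder u hunb).1
  have hVS := vs_eq (k := k) (K₀ := K₀) (O := O) Cls.cls hinf hf hS hw
  have hcard := card_S (k := k) (K₀ := K₀) (O := O) Cls.cls hinf hf hS hw
  refine ⟨fun N => by rw [hVS]; exact hfin N, ?_, ?_⟩
  · simp only [hVS]
    exact vk_inf Bgk.bgk hinf hf hfin
  · intro b hb hbS
    have hbs : ∀ v : HeightOneSpectrum O, v ∉ fS O S → v.valuation K b = 1 :=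
      fun v hv => hbS _ (v.valuation_surjective K) (fun h => hv (mem_fS.2 h))
    refine ⟨?_, ?_⟩
    · rw [hcard, Nat.add_sub_cancel]
      intro h0
      rw [Finset.card_eq_zero] at h0
      have hb0 : b ≠ 0 := by
        rintro rfl
        exact hb ⟨0, by simp⟩
      obtain ⟨β, y, hy, hby⟩ := hunb.gen b hb0 (fun v hv => by
        rw [hbs v hv]; exact ev_one)
      apply hb
      rw [hby]
      have hβ : β = 0 := by
        funext i
        exact absurd i.2 (by simp [h0])
      rw [hβ]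
      exact ⟨y, by simp [sq]⟩
    · intro R hR c hc
      have h := (countK Hen.hen Eqk.eqk Bgk.bgk hinf hf ρ ht hder hunr hunb hb
        hbs R hR).2 c
        (by rw [hcard, Nat.add_sub_cancel] at hc; exact hc)
      simp only [hVS]
      exact h

end asm

section final

variable {K : Type} [Field K]

theorem VS_add {S : Finset (Vl K)} {N : ℕ} {a a' : K} (h : a ∈ VS S N) (h' : a' ∈ VS S N) :
    a + a' ∈ VS S N :=
  ⟨fun u hu => Valuation.map_add_le _ (h.1 u hu) (h'.1 u hu),
    fun u hu hu' => Valuation.map_add_le _ (h.2 u hu hu') (h'.2 u hu hu')⟩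

theorem VS_shift [CharP K 2] {S : Finset (Vl K)} {N : ℕ} {a₀ : K} (h : a₀ ∈ VS S N)
    (R : K → Prop) :
    {a ∈ VS S N | R (a₀ + a)}.ncard = {a ∈ VS S N | R a}.ncard := by
  have h2 : (2 : K) = 0 := CharTwo.two_eq_zero
  have e : {a ∈ VS S N | R a} = (fun a => a₀ + a) '' {a ∈ VS S N | R (a₀ + a)} := by
    ext a
    constructor
    · rintro ⟨h1, h3⟩
      have e2 : a₀ + (a₀ + a) = a := by linear_combination a₀ * h2
      exact ⟨a₀ + a, ⟨VS_add h h1, by rw [e2]; exact h3⟩, e2⟩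
    · rintro ⟨c, ⟨h1, h3⟩, rfl⟩
      exact ⟨VS_add h h1, h3⟩
  rw [e, Set.ncard_image_of_injective _ (add_right_injective a₀)]

theorem VS_mem {S : Finset (Vl K)} {a₀ : K}
    (h : ∀ u : Vl K, Function.Surjective u → u ∉ S → u a₀ ≤ 1) :
    ∃ N₀ : ℕ, ∀ N ≥ N₀, a₀ ∈ VS S N := by
  have h1 : ∀ S' : Finset (Vl K), ∃ N₀ : ℕ, ∀ N : ℕ, N₀ ≤ N → ∀ u ∈ S', u a₀ ≤ exp (N : ℤ) := by
    intro S'
    induction S' using Finset.induction_on with
    | empty => exact ⟨0, by simp⟩
    | insert u S' hu ih =>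
      obtain ⟨N₀, hN₀⟩ := ih
      refine ⟨max N₀ (log (u a₀)).natAbs, fun N hN u' hu' => ?_⟩
      rcases Finset.mem_insert.1 hu' with e | e
      · rw [e]
        by_cases h0 : u a₀ = 0
        · rw [h0]; exact zero_le'
        · rw [← exp_log h0, exp_le_exp]
          have := le_max_right N₀ (log (u a₀)).natAbs
          omega
      · exact hN₀ N (le_trans (le_max_left _ _) hN) u' e
  obtain ⟨N₀, hN₀⟩ := h1 S
  exact ⟨N₀, fun N hN => ⟨hN₀ N hN, h⟩⟩

/-- The largest `n` such that `b` is a `2 ^ n`-th power. -/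
theorem dec_powK {b : K} (hb : b ≠ 0) {v : Vl K} (hv : v b ≠ 1) :
    ∃ (n : ℕ) (b₀ : K), ¬ IsSquare b₀ ∧ b = b₀ ^ 2 ^ n := by
  by_contra hc
  push Not at hc
  have key : ∀ n : ℕ, ∃ b₀ : K, b = b₀ ^ 2 ^ n := by
    intro n
    induction n with
    | zero => exact ⟨b, by simp⟩
    | succ n ih =>
      obtain ⟨b₀, hb₀⟩ := ih
      obtain ⟨c, hcc⟩ : IsSquare b₀ := by
        by_contra hs
        exact hc n b₀ hs hb₀
      exact ⟨c, by rw [hb₀, hcc, ← sq, ← pow_mul, pow_succ']⟩
  have hlog : log (v b) ≠ 0 := by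
    intro h0
    apply hv
    have h1 := exp_log ((Valuation.ne_zero_iff v).2 hb)
    rw [← h1, h0, exp_zero]
  set M := (log (v b)).natAbs with hM
  have hM0 : M ≠ 0 := by
    rw [hM]; omega
  obtain ⟨b₀, hb₀⟩ := key M
  have hb₀0 : b₀ ≠ 0 := by
    rintro rfl
    apply hb
    rw [hb₀, zero_pow (by positivity)]
  have h1 := exp_log ((Valuation.ne_zero_iff v).2 hb₀0)
  have h2 : log (v b) = 2 ^ M * log (v b₀) := by
    rw [hb₀, map_pow, ← h1, ← exp_nsmul, log_exp, log_exp]
    simp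
  have h3 : M = 2 ^ M * (log (v b₀)).natAbs := by
    have := congrArg Int.natAbs h2
    rw [Int.natAbs_mul, Int.natAbs_pow] at this
    exact this
  rcases Nat.eq_zero_or_pos (log (v b₀)).natAbs with h0 | h0
  · rw [h0, mul_zero] at h3
    exact hM0 h3
  · have h4 : M < 2 ^ M := Nat.lt_two_pow_self
    nlinarith

end final

end Pool.Agent.H467.GK
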