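import Pool.Agent.H467.GK.Gen
import Pool.Agent.H467.CT.Cnt2

/-!
# Descent in characteristic two over a global function field: counting the general twists

Project GK (helper467).
-/

set_option autoImplicit false
set_option linter.all false

open Polynomial IsDedekindDomain WeierstrassCurve WeierstrassCurve.Affine WithZero Filter
open Pool.Agent.TH115.GD
open Pool.Agent.H467.CT
open scoped Classical

namespace Pool.Agent.H467.GK

section cnt

variable {k K₀ K O : Type} [Field k] [Finite k] [CharP k 2] [Field K₀]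
  [Algebra k[X] K₀] [IsFractionRing k[X] K₀] [Field K] [CharP K 2] [Algebra K₀ K]
  [FiniteDimensional K₀ K]
  [Algebra.IsSeparable K₀ K] [Algebra k[X] K] [IsScalarTower k[X] K₀ K] [CommRing O]
  [IsDedekindDomain O] [Algebra O K] [IsFractionRing O K] [Algebra k[X] O]
  [IsScalarTower k[X] O K] [IsIntegralClosure O k[X] K]

omit [Finite k] [CharP k 2] [Field K₀]
  [Algebra k[X] K₀] [IsFractionRing k[X] K₀] [CharP K 2] [Algebra K₀ K]
  [FiniteDimensional K₀ K]
  [Algebra.IsSeparable K₀ K] [Algebra k[X] K] [IsScalarTower k[X] K₀ K] [Algebra k[X] O]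
  [IsScalarTower k[X] O K] [IsIntegralClosure O k[X] K] in
theorem vk_zero (w : Vl K) (s : Finset (HeightOneSpectrum O)) (N : ℕ) : (0 : K) ∈ VK w s N := by
  refine ⟨by rw [map_zero]; exact zero_le', fun v _ => by rw [map_zero]; exact zero_le',
    fun v _ => by rw [map_zero]; exact zero_le'⟩

theorem big_of (hen : S_HEN) {u : Vl K} (hu : Function.Surjective u) {a : K}
    {γ : WithZero (Multiplicative ℤ)} (hγ : 1 ≤ γ) (h : ¬ ∃ z : K, u (a + z ^ 2 + z) ≤ γ)
    (z : Cm u) : γ < vc u (algebraMap K (Cm u) a + z ^ 2 + z) := by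
  by_contra hc
  rw [not_lt] at hc
  exact h (apx_le hen hu hγ hc)

/-- The counting argument. -/
theorem countK (hen : S_HEN) (heq : S_EQK) (hbg : S_BGK) {w : Vl K} (hinf : Inf k K₀ w)
    (hf : Facts k K₀ O w) (ρ : ResK k O w) (ht : Bas (algebraMap k[X] K X))
    {s : Finset (HeightOneSpectrum O)}
    (hder : ∀ v : HeightOneSpectrum O, v ∉ s → ∀ p q : K,
      v.valuation K (p ^ 2 + algebraMap k[X] K X * q ^ 2) ≤ 1 → v.valuation K q ≤ 1)
    (hunr : ∀ α : K,
      (∀ v : HeightOneSpectrum O, v ∉ s → ∃ z : K, v.valuation K (α + z ^ 2 + z) ≤ 1) →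
      (∀ v ∈ s, ∃ z : K, v.valuation K (α + z ^ 2 + z) < 1) →
      (∃ z : K, w (α + z ^ 2 + z) < 1) → AS α)
    {u : s → K} (hunb : Unb s u) {b : K} (hbsq : ¬ IsSquare b)
    (hbs : ∀ v : HeightOneSpectrum O, v ∉ s → v.valuation K b = 1) (R : K → Prop)
    (hR : ∀ a : K, (∀ P : Pt (cc a b) K, ∃ Q, Q + Q = P) →
      (∀ P : Pt (cc a b) K, P + P = 0 → P = 0) → ShaTwoA (cc a b) → R a) :
    (∀ N, (VK w s N).Finite) ∧ ∀ c : ℝ, c < pm s.card → ∀ᶠ N : ℕ in atTop,
      c * ((VK w s N).ncard : ℝ) ≤ ({a ∈ VK w s N | R a}.ncard : ℝ) := by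
  obtain ⟨τ, hτ⟩ := Eqd.tau k
  obtain ⟨hVfin, hrow, N₀, hN₀⟩ := heq k K₀ K O w hinf hf ht ρ τ hτ s hder u hunb
  refine ⟨hVfin, ?_⟩
  intro c hc
  have hb0 : b ≠ 0 := by
    rintro rfl
    exact hbsq ⟨0, by simp⟩
  obtain ⟨β, y, hy, hby⟩ := hunb.gen b hb0 (fun v hv => by
    rw [hbs v hv]; exact ev_one)
  have hβ : β ≠ 0 := by
    rintro rfl
    apply hbsq
    rw [hby]
    exact ⟨y, by simp [sq]⟩
  have hcard : s.card ≠ 0 := by
    intro h0
    rw [Finset.card_eq_zero] at h0
    apply hβ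
    funext i
    exact absurd i.2 (by simp [h0])
  have hbig := fun γ j => hbg k K₀ K O w hinf hf s hVfin γ j
  have hpos : ∀ N, (0 : ℝ) < ((VK w s N).ncard : ℝ) := by
    intro N
    have : 0 < (VK w s N).ncard := (Set.ncard_pos (hVfin N)).2 ⟨0, vk_zero w s N⟩
    exact_mod_cast this
  -- the good elements
  set G : ℕ → Set K := fun N => {a ∈ VK w s N | Good β (matK ρ τ u a)} with hG
  have hGc : ∀ N ≥ N₀, pm s.card * ((VK w s N).ncard : ℝ) ≤ ((G N).ncard : ℝ) := by
    intro N hN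
    set 𝒯 : Set (s → Option s → ZMod 2) := {T | (∀ i, ∑ j, T i j = 0) ∧ Good β T} with h𝒯
    have h𝒯c : 𝒯.ncard = gm s.card := by
      have := Mat.matc s β hβ
      rw [Fintype.card_coe] at this
      exact this
    have h𝒯f : 𝒯.Finite := Set.toFinite _
    have hGf : (G N).Finite := (hVfin N).subset fun a ha => ha.1
    have h1 : ∑ T ∈ h𝒯f.toFinset, {a ∈ VK w s N | matK ρ τ u a = T}.ncard ≤ (G N).ncard :=
      sum_fib (hVfin N) (fun a => matK ρ τ u a) h𝒯f.toFinset (fun a haV haT =>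
        ⟨haV, ((Set.Finite.mem_toFinset h𝒯f).1 haT).2⟩) hGf
    have h3 : (∑ T ∈ h𝒯f.toFinset, {a ∈ VK w s N | matK ρ τ u a = T}.ncard) *
        2 ^ (s.card ^ 2) = gm s.card * (VK w s N).ncard := by
      rw [Finset.sum_mul, Finset.sum_congr rfl (fun T hT => hN₀ N hN T
        ((Set.Finite.mem_toFinset h𝒯f).1 hT).1), Finset.sum_const, smul_eq_mul,
        ← Set.ncard_eq_toFinset_card _ h𝒯f, h𝒯c]
    have h4 : gm s.card * (VK w s N).ncard ≤ (G N).ncard * 2 ^ (s.card ^ 2) := by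
      rw [← h3]
      exact Nat.mul_le_mul_right _ h1
    have h5 : ((gm s.card : ℕ) : ℝ) * ((VK w s N).ncard : ℝ) ≤
        ((G N).ncard : ℝ) * 2 ^ (s.card ^ 2) := by exact_mod_cast h4
    rw [gm_eq _ hcard] at h5
    have h6 : (0 : ℝ) < 2 ^ (s.card ^ 2) := by positivity
    nlinarith [h5, h6]
  -- the elements which are not big
  set Bq : Option s → ℕ → Set K := fun j N => {a ∈ VK w s N |
    ∃ z : K, plc w (j.map Subtype.val) (a + z ^ 2 + z) ≤
      max 1 (pj w j b)} with hBq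
  have hlim : Tendsto (fun N : ℕ => (∑ j : Option s, ((Bq j N).ncard : ℝ) /
      ((VK w s N).ncard : ℝ))) atTop (nhds 0) := by
    have h1 : Tendsto (fun N : ℕ => (∑ j : Option s, ((Bq j N).ncard : ℝ) /
        ((VK w s N).ncard : ℝ))) atTop (nhds (∑ j : Option s, (0 : ℝ))) :=
      tendsto_finset_sum _ fun j _ => hbig (max 1 (pj w j b)) j
    rw [Finset.sum_const_zero] at h1
    exact h1
  have hev := (hlim.eventually (gt_mem_nhds (sub_pos.2 hc)))
  filter_upwards [hev, eventually_ge_atTop N₀] with N hN1 hN2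
  have hsub : G N ⊆ {a ∈ VK w s N | R a} ∪ (⋃ j ∈ (Finset.univ : Finset (Option s)), Bq j N) := by
    intro a ha
    by_cases hq : a ∈ ⋃ j ∈ (Finset.univ : Finset (Option s)), Bq j N
    · exact Or.inr hq
    left
    refine ⟨ha.1, ?_⟩
    have hq' : ∀ j : Option s, ¬ ∃ z : K, pj w j (a + z ^ 2 + z) ≤ max 1 (pj w j b) := by
      intro j h
      apply hq
      rw [Set.mem_iUnion₂]
      exact ⟨j, Finset.mem_univ _, ha.1, h⟩
    have hd : GdK ρ τ u a b β y := {
      hw := hinf.surj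
      tau := hτ
      bas := ht
      der := hder
      unb := hunb
      unr := hunr
      b_eq := hby
      b_ns := hbsq
      b_out := hbs
      a_out := ha.1.2.2
      big := by
        intro j z
        have hs := pj_surj (O := O) (s := s) hinf.surj j
        have h := big_of hen hs (le_max_left 1 _) (hq' j) z
        rw [(hen K (pj w j) hs).1]
        exact h
      good := ha.2 }
    obtain ⟨h1, h2, h3⟩ := gen_main hen Asc.asc Mat.matl hd
    exact hR a h1 h2 h3
  have hUf : (⋃ j ∈ (Finset.univ : Finset (Option s)), Bq j N).Finite := by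
    refine (hVfin N).subset ?_
    intro a ha
    rw [Set.mem_iUnion₂] at ha
    obtain ⟨Q, -, h⟩ := ha
    exact h.1
  have hRf : {a ∈ VK w s N | R a}.Finite := (hVfin N).subset fun a ha => ha.1
  have h1 := Set.ncard_le_ncard hsub (hRf.union hUf)
  have h2 := Set.ncard_union_le {a ∈ VK w s N | R a}
    (⋃ j ∈ (Finset.univ : Finset (Option s)), Bq j N)
  have h4 : (⋃ j ∈ (Finset.univ : Finset (Option s)), Bq j N).ncard ≤
      ∑ j : Option s, (Bq j N).ncard := Finset.set_ncard_biUnion_le _ _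
  have h5 : (((G N).ncard : ℕ) : ℝ) ≤ ({a ∈ VK w s N | R a}.ncard : ℝ) +
      (∑ j : Option s, ((Bq j N).ncard : ℝ)) := by
    have : (G N).ncard ≤ {a ∈ VK w s N | R a}.ncard + (∑ j : Option s, (Bq j N).ncard) := by
      omega
    exact_mod_cast this
  have h6 := hGc N hN2
  rw [← Finset.sum_div, div_lt_iff₀ (hpos N)] at hN1
  nlinarith [h5, h6, hN1]

end cnt

end Pool.Agent.H467.GK
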