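import Pool.Agent.H467.GK.Spec

/-!
# Presentations of global function fields: statements

Project GK (helper467).
-/

set_option autoImplicit false
set_option linter.all false

open Polynomial IsDedekindDomain WithZero
open Pool.Agent.TH115.GD
open scoped Classical

namespace Pool.Agent.H467.GK

/-- There is an element with exactly one pole. -/
def S_DRA : Prop := ∀ (k K₀ K O : Type) [Field k] [Finite k] [Field K₀]
  [Algebra k[X] K₀] [IsFractionRing k[X] K₀] [Field K] [Algebra K₀ K] [FiniteDimensional K₀ K]
  [Algebra.IsSeparable K₀ K] [Algebra k[X] K] [IsScalarTower k[X] K₀ K] [CommRing O]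
  [IsDedekindDomain O] [Algebra O K] [IsFractionRing O K] [Algebra k[X] O]
  [IsScalarTower k[X] O K] [IsIntegralClosure O k[X] K],
  ∃ w : Vl K, Function.Surjective w ∧ ∃ f : K, 1 < w f ∧
    ∀ u : Vl K, Function.Surjective u → u ≠ w → u f ≤ 1

/-- If `f` has exactly one pole `w` and is not a square then `K` is a finite separable extension of
`k(f)` in which `f = ∞` has exactly one extension. -/
def S_DRB : Prop := ∀ (k K : Type) [Field k] [Finite k] [CharP k 2] [Field K] [Algebra k K],
  IsFF k K → ∀ w : Vl K, Function.Surjective w → ∀ f : K, 1 < w f →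
  (∀ u : Vl K, Function.Surjective u → u ≠ w → u f ≤ 1) → ¬ IsSquare f →
  ∃ φ : RatFunc k →+* K, (∀ c : k, φ (RatFunc.C c) = algebraMap k K c) ∧
    (letI := φ.toAlgebra
     FiniteDimensional (RatFunc k) K ∧ Algebra.IsSeparable (RatFunc k) K ∧ Inf k (RatFunc k) w)

end Pool.Agent.H467.GK
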