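import Pool.Agent.H467.GK.Spec
import Pool.Agent.H467.GK.SpecD
import Pool.Graph.R_seed8.H525R3.FFp.Riemann

/-!
# A function with exactly one pole (project GK, part DRA)
-/

set_option autoImplicit false
set_option linter.all false

open Polynomial IsDedekindDomain WithZero
open Pool.Agent.TH115.GD
open scoped Classical

namespace Pool.Agent.H467.GK.Dra

open Pool.Agent.H525R3.FFp FF

section ff

variable {k K : Type} [Field k] [Field K] [Algebra k K]

/-- valuations are trivial on finite fields -/
theorem val_const [Finite k] (u : Vl K) (c : k) (hc : c ≠ 0) : u (algebraMap k K c) = 1 := by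
  have : Fintype k := Fintype.ofFinite k
  have h1 : c ^ (Fintype.card k - 1) = 1 := FiniteField.pow_card_sub_one_eq_one c hc
  have h2 : (u (algebraMap k K c)) ^ (Fintype.card k - 1) = 1 := by
    rw [← map_pow, ← map_pow, h1, map_one, map_one]
  have h3 : Fintype.card k - 1 ≠ 0 := by
    have := Fintype.one_lt_card (α := k)
    omega
  exact (pow_eq_one_iff_left h3).1 h2

/-- the place of a surjective valuation -/
noncomputable def toPl [Finite k] (u : Vl K) (hu : Function.Surjective u) : Place k K :=
  Place.ofVal u (hu _) (fun c hc => val_const u c hc)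

theorem toPl_ord [Finite k] (u : Vl K) (hu : Function.Surjective u) (f : K) :
    (toPl (k := k) u hu).ord f = - WithZero.log (u f) := rfl

/-- the valuation of a place -/
noncomputable def vl (P : Place k K) : Vl K where
  toFun f := if f = 0 then 0 else WithZero.exp (- P.ord f)
  map_zero' := by simp
  map_one' := by simp [P.ord_one]
  map_mul' := by
    intro f g
    by_cases hf : f = 0
    · simp [hf]
    by_cases hg : g = 0
    · simp [hg]
    rw [if_neg hf, if_neg hg, if_neg (mul_ne_zero hf hg), P.ord_mul hf hg, ← WithZero.exp_add]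
    congr 1
    ring
  map_add_le_max' := by
    intro f g
    by_cases hf : f = 0
    · simp [hf]
    by_cases hg : g = 0
    · simp [hg]
    by_cases hfg : f + g = 0
    · simp [hfg]
    have h := P.ord_add hf hg hfg
    simp only [hf, hg, hfg, if_false]
    rw [le_max_iff, WithZero.exp_le_exp, WithZero.exp_le_exp]
    rcases min_le_iff.1 h with h | h
    · left; omega
    · right; omega

theorem vl_apply (P : Place k K) {f : K} (hf : f ≠ 0) : vl P f = WithZero.exp (- P.ord f) :=
  if_neg hf

theorem vl_surj (P : Place k K) : Function.Surjective (vl P) := by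
  intro y
  by_cases hy : y = 0
  · exact ⟨0, by rw [hy, map_zero]⟩
  · obtain ⟨t, ht0, ht⟩ := P.surj
    refine ⟨t ^ (- WithZero.log y), ?_⟩
    rw [vl_apply P (zpow_ne_zero _ ht0), P.ord_zpow, ht, mul_one, neg_neg, WithZero.exp_log hy]

theorem toPl_ne [Finite k] (P : Place k K) (u : Vl K) (hu : Function.Surjective u) (h : u ≠ vl P) :
    toPl (k := k) u hu ≠ P := by
  intro h1
  apply h
  ext f
  by_cases hf : f = 0
  · simp [hf]
  · rw [vl_apply P hf, ← h1, toPl_ord, neg_neg, WithZero.exp_log ((Valuation.ne_zero_iff u).2 hf)]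

theorem one_pole [Finite k] [FF.IsFF k K] : ∃ w : Vl K, Function.Surjective w ∧ ∃ f : K, 1 < w f ∧
    ∀ u : Vl K, Function.Surjective u → u ≠ w → u f ≤ 1 := by
  obtain ⟨P, -⟩ := exists_place (k := k) (K := K)
  obtain ⟨γ, N, h1, -⟩ := riemann k K
  have hdeg : 0 < P.deg := deg_pos P
  obtain ⟨f, hf, hP⟩ : ∃ f : K, f ≠ 0 ∧ P.ord f < 0 ∧ ∀ Q : Place k K, Q ≠ P → 0 ≤ Q.ord f := by
    by_contra hc
    push Not at hc
    set n : ℕ := (ell (0 : Place k K →₀ ℤ) + γ + 1).toNat with hn
    set D : Place k K →₀ ℤ := Finsupp.single P (n : ℤ) with hD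
    have h2 : LL D ≤ LL (0 : Place k K →₀ ℤ) := by
      intro f hf
      rcases hf with hf | hf
      · exact Or.inl hf
      by_cases hf0 : f = 0
      · exact Or.inl hf0
      right
      intro Q
      rw [Finsupp.coe_zero, Pi.zero_apply, neg_zero]
      have hQ : ∀ Q : Place k K, Q ≠ P → 0 ≤ Q.ord f := by
        intro Q hQ
        have := hf Q
        rwa [hD, Finsupp.single_eq_of_ne hQ, neg_zero] at this
      by_cases hQP : Q = P
      · subst hQP
        by_contra hlt
        push Not at hlt
        obtain ⟨Q', h3, h4⟩ := hc f hf0 hlt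
        exact absurd (hQ Q' h3) (not_le.2 h4)
      · exact hQ Q hQP
    have h3 : ell D ≤ ell (0 : Place k K →₀ ℤ) := by
      unfold ell
      exact_mod_cast Submodule.finrank_mono h2
    have h4 := h1 D
    rw [hD, ddeg_single, ← hD] at h4
    have h5 : (n : ℤ) * 1 ≤ (n : ℤ) * P.deg :=
      mul_le_mul_of_nonneg_left (by exact_mod_cast hdeg) (Int.natCast_nonneg _)
    have h6 := Int.self_le_toNat (ell (0 : Place k K →₀ ℤ) + γ + 1)
    rw [← hn] at h6
    linarith
  refine ⟨vl P, vl_surj P, f, ?_, ?_⟩
  · rw [vl_apply P hf, ← WithZero.exp_zero, WithZero.exp_lt_exp]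
    omega
  · intro u hu hne
    have h2 := hP.2 _ (toPl_ne P u hu hne)
    rw [toPl_ord] at h2
    have h3 := (Valuation.ne_zero_iff u).2 hf
    rw [← WithZero.exp_log h3, ← WithZero.exp_zero, WithZero.exp_le_exp]
    omega

end ff

open IntermediateField in
/-- finite extensions of `k(t)` are function fields -/
theorem isFF (k K L : Type) [Field k] [Field K] [Algebra k[X] K]
    [IsFractionRing k[X] K] [Field L] [Algebra K L] [FiniteDimensional K L]
    [Algebra k[X] L] [IsScalarTower k[X] K L] [Algebra k L] [IsScalarTower k k[X] L] :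
    FF.IsFF k L := by
  let x : L := algebraMap k[X] L X
  have hinj : Function.Injective (algebraMap k[X] L) := by
    rw [IsScalarTower.algebraMap_eq k[X] K L]
    exact (algebraMap K L).injective.comp (IsFractionRing.injective k[X] K)
  have htr : Transcendental k x := (transcendental_algebraMap_iff hinj).2 (transcendental_X k)
  refine IsFF.of_finite htr ?_
  have hp : ∀ p : k[X], algebraMap k[X] L p ∈ k⟮x⟯ := by
    intro p
    have : algebraMap k[X] L p = aeval x p := by
      have h := (aeval_algebraMap_apply L (X : k[X]) p)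
      rw [aeval_X_left_apply] at h
      exact h.symm
    rw [this]
    have h2 : x ∈ k⟮x⟯.toSubalgebra := mem_adjoin_simple_self k x
    exact Algebra.adjoin_le (S := k⟮x⟯.toSubalgebra) (Set.singleton_subset_iff.2 h2)
      (aeval_mem_adjoin_singleton k x)
  have hc : ∀ c : K, algebraMap K L c ∈ k⟮x⟯ := by
    intro c
    obtain ⟨p, q, hq, rfl⟩ := IsFractionRing.div_surjective (A := k[X]) c
    rw [map_div₀, ← IsScalarTower.algebraMap_apply, ← IsScalarTower.algebraMap_apply]
    exact div_mem (hp p) (hp q)
  letI : Algebra K k⟮x⟯ := ((algebraMap K L).codRestrict k⟮x⟯ hc).toAlgebra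
  haveI : IsScalarTower K k⟮x⟯ L := IsScalarTower.of_algebraMap_eq (fun _ => rfl)
  exact FiniteDimensional.right K k⟮x⟯ L

theorem dra : S_DRA := by
  intro k K₀ K O _ _ _ _ _ _ _ _ _ _ _ _ _ _ _ _ _ _
  letI : Algebra k K := ((algebraMap k[X] K).comp (C : k →+* k[X])).toAlgebra
  haveI : IsScalarTower k k[X] K := IsScalarTower.of_algebraMap_eq (fun _ => rfl)
  haveI : FF.IsFF k K := isFF k K₀ K
  exact one_pole (k := k) (K := K)

end Pool.Agent.H467.GK.Dra
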