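import Pool.Agent.H467.GK.Spec
import Pool.Agent.H467.GK.SpecD
import Pool.Agent.H467.CT.Res
import Pool.Graph.R_seed8.H525R3.FFp.Sep

/-!
# Presentations of global function fields by a function with exactly one pole

Project GK (helper467), part DRB.
-/

set_option autoImplicit false
set_option linter.all false

open Polynomial IsDedekindDomain WithZero
open Pool.Agent.TH115.GD
open scoped Classical

namespace Pool.Agent.H467.GK.Drb

/-! ### Extensions of a discrete valuation -/

/-- If all extensions of the valuation `V` to `K` are equal to `w` then the valuation ring of `w` is the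
integral closure of the valuation ring of `V`. -/
theorem abs_int {K₀ K : Type} [Field K₀] [Field K] [Algebra K₀ K] [FiniteDimensional K₀ K]
    [Algebra.IsSeparable K₀ K] (V : Valuation K₀ (WithZero (Multiplicative ℤ)))
    (hV : ∃ a : K₀, a ≠ 0 ∧ V a ≠ 1)
    (w : Valuation K (WithZero (Multiplicative ℤ)))
    (hw : ∀ u : Valuation K (WithZero (Multiplicative ℤ)), Function.Surjective u →
      (∀ a : K₀, V a < 1 → u (algebraMap K₀ K a) < 1) → u = w) (x : K) (hx : w x ≤ 1) (i : ℕ) :
    V ((minpoly K₀ x).coeff i) ≤ 1 := by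
  have : Nontrivial (MonoidWithZeroHom.valueGroup (MonoidWithZeroHom.ofClass V)) := by
    obtain ⟨a, ha, ha1⟩ := hV
    have : V.IsNontrivial := ⟨⟨a, by simpa using ha, ha1⟩⟩
    infer_instance
  let A := V.valuationSubring
  let C := integralClosure A K
  have : IsDedekindDomain C := integralClosure.isDedekindDomain A K₀ K
  have : IsFractionRing C K := integralClosure.isFractionRing_of_finite_extension K₀ K
  have hC : x ∈ (algebraMap C K).range := by
    apply HeightOneSpectrum.mem_integers_of_valuation_le_one K x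
    intro P
    have h1 : P.valuation K = w := by
      apply hw _ (P.valuation_surjective K)
      intro a ha
      have ha' : a ∈ A := ha.le
      have h2 : (⟨a, ha'⟩ : A) ∈ IsLocalRing.maximalIdeal A := by
        rw [Valuation.mem_maximalIdeal_iff]
        exact ha
      have h3 : (P.asIdeal.comap (algebraMap A C)).IsMaximal := by
        have := P.isMaximal
        exact Ideal.isMaximal_comap_of_isIntegral_of_isMaximal P.asIdeal
      have h4 : P.asIdeal.comap (algebraMap A C) = IsLocalRing.maximalIdeal A := IsLocalRing.eq_maximalIdeal h3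
      rw [← h4] at h2
      have h5 : algebraMap K₀ K a = algebraMap C K (algebraMap A C ⟨a, ha'⟩) := rfl
      rw [h5]
      exact (P.valuation_lt_one_iff_mem _).2 h2
    rw [h1]
    exact hx
  obtain ⟨c, rfl⟩ := hC
  have hint : IsIntegral A (algebraMap C K c) := c.2
  rw [minpoly.isIntegrallyClosed_eq_field_fractions' K₀ hint, coeff_map]
  exact ((minpoly A (algebraMap C K c)).coeff i).2

/-! ### Valuations of values of polynomials -/

/-- The leading term dominates. -/
theorem dom {K : Type} [Field K] (w : Vl K) (P : K[X]) (hP : w P.leadingCoeff = 1)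
    (hc : ∀ i, w (P.coeff i) ≤ 1) {x : K} (hx : 1 < w x) : w (P.eval x) = w x ^ P.natDegree := by
  have hx0 : w x ≠ 0 := (zero_lt_one.trans hx).ne'
  rw [eval_eq_sum_range, Finset.sum_range_succ]
  have h1 : w (P.coeff P.natDegree * x ^ P.natDegree) = w x ^ P.natDegree := by
    rw [map_mul, map_pow, coeff_natDegree, hP, one_mul]
  rw [← h1]
  apply Valuation.map_add_eq_of_lt_right
  rw [h1]
  apply Valuation.map_sum_lt _ (pow_ne_zero _ hx0)
  intro i hi
  rw [map_mul, map_pow]
  calc w (P.coeff i) * w x ^ i ≤ 1 * w x ^ i := mul_le_mul_left (hc i) _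
    _ = w x ^ i := one_mul _
    _ < w x ^ P.natDegree := pow_lt_pow_right₀ hx (Finset.mem_range.1 hi)

theorem const_one {k K : Type} [Field k] [Finite k] [Field K] [Algebra k K] (w : Vl K) (c : k)
    (hc : c ≠ 0) : w (algebraMap k K c) = 1 := by
  have := Fintype.ofFinite k
  have h1 : c ^ (Fintype.card k - 1) = 1 := FiniteField.pow_card_sub_one_eq_one c hc
  have h2 : w (algebraMap k K c) ^ (Fintype.card k - 1) = 1 := by
    rw [← map_pow, ← map_pow, h1, map_one, map_one]
  have h3 : Fintype.card k - 1 ≠ 0 := by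
    have := Fintype.one_lt_card (α := k)
    omega
  exact (pow_eq_one_iff.1 h2).resolve_right h3

theorem const_le {k K : Type} [Field k] [Finite k] [Field K] [Algebra k K] (w : Vl K) (c : k) :
    w (algebraMap k K c) ≤ 1 := by
  by_cases hc : c = 0
  · rw [hc, map_zero, map_zero]
    exact zero_le_one
  · rw [const_one w c hc]

/-- The values of the polynomials at `f`. -/
theorem val_aeval {k K : Type} [Field k] [Finite k] [Field K] [Algebra k K] (w : Vl K) {f : K}
    (hf : 1 < w f) (p : k[X]) (hp : p ≠ 0) : w (aeval f p) = w f ^ p.natDegree := by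
  have h := dom w (p.map (algebraMap k K)) (by
    rw [leadingCoeff_map]
    exact const_one w _ (leadingCoeff_ne_zero.2 hp)) (fun i => by
    rw [coeff_map]
    exact const_le w _) hf
  rw [natDegree_map, eval_map_algebraMap] at h
  exact h

theorem tr_of_val {k K : Type} [Field k] [Finite k] [Field K] [Algebra k K] (w : Vl K) {f : K}
    (hf : 1 < w f) : Transcendental k f := by
  rw [transcendental_iff]
  intro p hp
  by_contra h
  have h1 := val_aeval w hf p h
  rw [hp, map_zero] at h1
  exact pow_ne_zero p.natDegree (zero_lt_one.trans hf).ne' h1.symm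

/-! ### The valuation at infinity -/

section infinity

variable (k : Type) {K₀ : Type} [Field k] [Field K₀] [Algebra k[X] K₀] [IsFractionRing k[X] K₀]

/-- The valuation at infinity of `k(t)`. -/
noncomputable def Vi : Valuation K₀ (WithZero (Multiplicative ℤ)) where
  toFun f := CT.vinf k f
  map_zero' := map_zero (CT.Res.vi k (K := K₀))
  map_one' := map_one (CT.Res.vi k (K := K₀))
  map_mul' x y := map_mul (CT.Res.vi k (K := K₀)) x y
  map_add_le_max' x y := (CT.Res.vi k (K := K₀)).map_add_le_max' x y

theorem V_apply (f : K₀) : Vi k f = CT.vinf k f := rfl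

theorem V_poly {p : k[X]} (hp : p ≠ 0) :
    Vi k (algebraMap k[X] K₀ p) = exp (p.natDegree : ℤ) := CT.Res.vi_poly hp

end infinity

/-! ### Separability -/

/-- The elements `a ^ 2 + x b ^ 2`. -/
def Sq {K : Type} [Field K] (x : K) (y : K) : Prop := ∃ a b : K, y = a ^ 2 + x * b ^ 2

section sq

variable {K : Type} [Field K] [CharP K 2] {x : K}

theorem Sq.add {y z : K} (hy : Sq x y) (hz : Sq x z) : Sq x (y + z) := by
  obtain ⟨a, b, rfl⟩ := hy
  obtain ⟨c, d, rfl⟩ := hz
  have h2 : (2 : K) = 0 := CharTwo.two_eq_zero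
  exact ⟨a + c, b + d, by linear_combination (-(a * c) - x * b * d) * h2⟩

theorem Sq.mul {y z : K} (hy : Sq x y) (hz : Sq x z) : Sq x (y * z) := by
  obtain ⟨a, b, rfl⟩ := hy
  obtain ⟨c, d, rfl⟩ := hz
  have h2 : (2 : K) = 0 := CharTwo.two_eq_zero
  exact ⟨a * c + x * b * d, a * d + b * c, by
    linear_combination (-(a * c * x * b * d) - x * a * b * c * d) * h2⟩

omit [CharP K 2] in
theorem Sq.sq (y : K) : Sq x (y ^ 2) := ⟨y, 0, by ring⟩

theorem Sq.inv {y : K} (hy : Sq x y) : Sq x y⁻¹ := by
  by_cases h : y = 0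
  · rw [h, inv_zero]
    exact ⟨0, 0, by ring⟩
  · have e : y⁻¹ = y * (y⁻¹) ^ 2 := by
      field_simp
    rw [e]
    exact hy.mul (Sq.sq _)

end sq

section sep

variable {k K : Type} [Field k] [Finite k] [CharP k 2] [Field K] [Algebra k K] [CharP K 2]

theorem sq_all {x : K} (hx : Algebra.IsSeparable (IntermediateField.adjoin k {x}) K) (y : K) :
    Sq x y := by
  have h1 : ∀ r ∈ IntermediateField.adjoin k {x}, Sq x r := by
    intro r hr
    induction hr using IntermediateField.adjoin_induction with
    | mem y hy =>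
      rw [Set.mem_singleton_iff] at hy
      subst hy
      exact ⟨0, 1, by ring⟩
    | algebraMap c =>
      obtain ⟨d, hd⟩ := (frobeniusEquiv k 2).surjective c
      rw [← hd, frobeniusEquiv_apply, frobenius_def, map_pow]
      exact Sq.sq _
    | add a b _ _ ha hb => exact ha.add hb
    | mul a b _ _ ha hb => exact ha.mul hb
    | inv a _ ha => exact ha.inv
  have h2 : Submodule.span (IntermediateField.adjoin k {x}) (Set.range (fun z : K => z)) = ⊤ := by
    rw [Set.range_id']
    exact Submodule.span_univ
  have : CharP (IntermediateField.adjoin k {x}) 2 :=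
    charP_of_injective_algebraMap (algebraMap k (IntermediateField.adjoin k {x})).injective 2
  have : ExpChar (IntermediateField.adjoin k {x}) 2 := ExpChar.prime Nat.prime_two
  have h3 := Field.span_map_pow_expChar_pow_eq_top_of_isSeparable
    (F := IntermediateField.adjoin k {x}) (E := K) 2 1 h2
  have h4 : y ∈ Submodule.span (IntermediateField.adjoin k {x}) (Set.range fun z : K => z ^ 2 ^ 1) := by
    rw [h3]
    trivial
  induction h4 using Submodule.span_induction with
  | mem y hy =>
    obtain ⟨z, rfl⟩ := hy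
    exact Sq.sq z
  | zero => exact ⟨0, 0, by ring⟩
  | add a b _ _ ha hb => exact ha.add hb
  | smul c y _ hy =>
    rw [IntermediateField.smul_def, smul_eq_mul]
    exact (h1 _ c.2).mul hy

theorem D_sq (a : K) : KaehlerDifferential.D k K (a ^ 2) = 0 := by
  rw [Derivation.leibniz_pow]
  have h2 : (2 : K) = 0 := CharTwo.two_eq_zero
  rw [← Nat.cast_smul_eq_nsmul K]
  push_cast
  rw [h2, zero_smul]

theorem sep_of_not_sq [FF.IsFF k K] {f : K} (hf : ¬ IsSquare f) :
    Algebra.IsSeparable (IntermediateField.adjoin k {f}) K := by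
  obtain ⟨x, hx, hsep⟩ := Pool.Agent.H525R3.FFp.exists_sep (k := k) (K := K)
  refine (Pool.Agent.H525R3.FFp.sep_of_D_ne ?_).2
  have hDx : KaehlerDifferential.D k K x ≠ 0 := by
    intro h0
    obtain ⟨y, hy⟩ := Pool.Agent.H525R3.FFp.exists_D_ne k K
    obtain ⟨c, hc⟩ := Submodule.mem_span_singleton.1
      (Pool.Agent.H525R3.FFp.span_D hsep (KaehlerDifferential.D k K y))
    rw [h0, smul_zero] at hc
    exact hy hc.symm
  obtain ⟨a, b, rfl⟩ := sq_all hsep f
  have hb : b ≠ 0 := by
    rintro rfl
    exact hf ⟨a, by ring⟩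
  rw [map_add, D_sq, zero_add, Derivation.leibniz, D_sq, smul_zero, zero_add]
  exact smul_ne_zero (pow_ne_zero 2 hb) hDx

end sep

/-! ### The theorem -/

section main

variable {k K : Type} [Field k] [Finite k] [Field K] [Algebra k K]

theorem pow_le_iff {γ : WithZero (Multiplicative ℤ)} (hγ : 1 < γ) (m n : ℕ) :
    γ ^ m / γ ^ n ≤ 1 ↔ m ≤ n := by
  have h0 : 0 < γ := zero_lt_one.trans hγ
  rw [div_le_one₀ (pow_pos h0 n)]
  exact pow_le_pow_iff_right₀ hγ

/-- The valuation `w` on `k(f)`. -/
theorem base [Algebra (RatFunc k) K] {w : Vl K} {f : K} (hf : 1 < w f)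
    (hφ : ∀ p : k[X], algebraMap (RatFunc k) K (algebraMap k[X] (RatFunc k) p) = aeval f p)
    (g : RatFunc k) : w (algebraMap (RatFunc k) K g) ≤ 1 ↔ Vi k g ≤ 1 := by
  obtain ⟨p, q, hq, rfl⟩ := IsFractionRing.div_surjective (A := k[X]) g
  have hq0 : q ≠ 0 := nonZeroDivisors.ne_zero hq
  by_cases hp : p = 0
  · rw [hp, map_zero, zero_div, map_zero, map_zero, map_zero]
  · rw [map_div₀, map_div₀, map_div₀, hφ, hφ, val_aeval w hf p hp, val_aeval w hf q hq0,
      V_poly k hp, V_poly k hq0, pow_le_iff hf, ← exp_sub, ← exp_zero, exp_le_exp]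
    omega

theorem inf_of [Algebra (RatFunc k) K] [FiniteDimensional (RatFunc k) K]
    [Algebra.IsSeparable (RatFunc k) K] {w : Vl K} (hw : Function.Surjective w) {f : K}
    (hf : 1 < w f)
    (hφ : ∀ p : k[X], algebraMap (RatFunc k) K (algebraMap k[X] (RatFunc k) p) = aeval f p)
    (hu : ∀ u : Vl K, Function.Surjective u → u ≠ w → u f ≤ 1) : Inf k (RatFunc k) w := by
  have hX : Vi k (algebraMap k[X] (RatFunc k) X) = exp 1 := by
    rw [V_poly k X_ne_zero, natDegree_X]
    rfl
  refine ⟨hw, fun x => ⟨fun hx i => ?_, fun hx => ?_⟩⟩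
  · refine abs_int (Vi k) ⟨algebraMap k[X] (RatFunc k) X, ?_, ?_⟩ w (fun u hus hua => ?_) x hx i
    · rw [Ne, ← Valuation.zero_iff (Vi k), hX]
      exact exp_ne_zero
    · rw [hX, ← exp_zero, Ne, exp_inj]
      norm_num
    · by_contra hne
      have h1 := hu u hus hne
      have h2 := hua (algebraMap k[X] (RatFunc k) X)⁻¹ (by
        rw [map_inv₀, hX, ← exp_neg, ← exp_zero, exp_lt_exp]
        norm_num)
      rw [map_inv₀, hφ, aeval_X, map_inv₀] at h2
      have h3 : u f ≠ 0 := by
        rw [Ne, Valuation.zero_iff]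
        rintro rfl
        rw [map_zero] at hf
        exact absurd hf (not_lt.2 zero_le_one)
      have h4 : 0 < u f := zero_lt_iff.2 h3
      exact absurd h2 (not_lt.2 ((one_le_inv₀ h4).2 h1))
  · by_contra hc
    have hc := not_le.1 hc
    have hint : IsIntegral (RatFunc k) x := Algebra.IsIntegral.isIntegral x
    have h1 := dom w ((minpoly (RatFunc k) x).map (algebraMap (RatFunc k) K)) (by
      rw [leadingCoeff_map, (minpoly.monic hint).leadingCoeff, map_one, map_one]) (fun i => by
      rw [coeff_map, base hf hφ]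
      exact hx i) hc
    rw [eval_map_algebraMap, minpoly.aeval, map_zero] at h1
    exact pow_ne_zero _ (zero_lt_one.trans hc).ne' h1.symm

end main

/-- `K` is a finite separable extension of `k(f)` if `f` is a function with exactly one pole. -/
theorem drb : S_DRB := by
  intro k K _ _ _ _ _ hFF w hw f hf hu hsq
  have hFF' : FF.IsFF k K := by
    obtain ⟨t, ht, hfin⟩ := hFF
    exact FF.IsFF.of_finite ht hfin
  have htr : Transcendental k f := tr_of_val w hf
  have : CharP K 2 := charP_of_injective_algebraMap (algebraMap k K).injective 2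
  have hsep := sep_of_not_sq (k := k) hsq
  have hfin := FF.IsFF.finite htr
  let e := RatFunc.algEquivOfTranscendental f htr
  let φ : RatFunc k →+* K :=
    (algebraMap (IntermediateField.adjoin k {f}) K).comp e.toRingEquiv.toRingHom
  have hφ : ∀ p : k[X], φ (algebraMap k[X] (RatFunc k) p) = aeval f p := by
    intro p
    show algebraMap (IntermediateField.adjoin k {f}) K (e (algebraMap k[X] (RatFunc k) p)) = _
    rw [RatFunc.algEquivOfTranscendental_algebraMap]
    simp
  refine ⟨φ, fun c => ?_, ?_⟩
  · have := hφ (C c)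
    rw [aeval_C] at this
    exact this
  · letI := φ.toAlgebra
    have hcomp : (algebraMap (RatFunc k) K).comp e.symm.toRingEquiv.toRingHom =
        (RingEquiv.refl K).toRingHom.comp (algebraMap (IntermediateField.adjoin k {f}) K) := by
      ext x
      show algebraMap (IntermediateField.adjoin k {f}) K (e (e.symm x)) = _
      rw [e.apply_symm_apply]
      rfl
    have h1 : FiniteDimensional (RatFunc k) K :=
      Module.Finite.of_equiv_equiv e.symm.toRingEquiv (RingEquiv.refl K) hcomp
    have h2 : Algebra.IsSeparable (RatFunc k) K :=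
      Algebra.IsSeparable.of_equiv_equiv e.symm.toRingEquiv (RingEquiv.refl K) hcomp
    exact ⟨h1, h2, inf_of hw hf hφ hu⟩

end Pool.Agent.H467.GK.Drb
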