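import Pool.Agent.H467.GK.SpecD

/-!
# Presentations of global function fields: assembly

Project GK (helper467), part DRC (helper120).
-/

set_option autoImplicit false
set_option linter.all false

open Polynomial IsDedekindDomain WithZero
open Pool.Agent.TH115.GD
open scoped Classical

namespace Pool.Agent.H467.GK.Drc

open IntermediateField

/-- a separating element -/
theorem exists_sep (k K : Type) [Field k] [Finite k] [Field K] [Algebra k K] (h : IsFF k K) :
    ∃ t : K, Transcendental k t ∧ FiniteDimensional (adjoin k {t}) K ∧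
      Algebra.IsSeparable (adjoin k {t}) K := by
  obtain ⟨t, ht, hfin⟩ := h
  have e1 : Algebra.EssFiniteType k (adjoin k {t}) :=
    essFiniteType_iff.2 (fg_adjoin_of_finite (Set.finite_singleton t))
  have e2 : Algebra.EssFiniteType k K := Algebra.EssFiniteType.comp k (adjoin k {t}) K
  obtain ⟨s, hs, hsep⟩ := exists_isTranscendenceBasis_and_isSeparable_of_perfectField k K
  -- `t` is a transcendence basis
  have hb : IsTranscendenceBasis k (fun _ : Unit => t) := by
    rw [isTranscendenceBasis_iff_algebraicIndependent_isAlgebraic]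
    refine ⟨algebraicIndependent_unique_type_iff.2 ht, ?_⟩
    rw [Set.range_const]
    have : Algebra.IsAlgebraic (adjoin k {t}) K := inferInstance
    rwa [isAlgebraic_adjoin_iff_top] at this
  have hcard := hs.cardinalMk_eq hb
  have hs1 : s.card = 1 := by
    rw [Cardinal.mk_coe_finset, Cardinal.mk_fintype, Fintype.card_unit] at hcard
    exact_mod_cast hcard
  obtain ⟨t0, rfl⟩ := Finset.card_eq_one.1 hs1
  rw [Finset.coe_singleton] at hsep
  have ht0 : Transcendental k t0 := by
    have := hs.1
    exact this.transcendental ⟨t0, Finset.mem_singleton_self t0⟩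
  refine ⟨t0, ht0, ?_, hsep⟩
  have e3 : Algebra.EssFiniteType (adjoin k {t0}) K := Algebra.EssFiniteType.of_comp k _ K
  have e4 : Algebra.IsAlgebraic (adjoin k {t0}) K := inferInstance
  exact Algebra.finite_of_essFiniteType_of_isAlgebraic

/-- `S_DRA` for the integral closure -/
theorem core (h : S_DRA) (k K₀ K : Type) [Field k] [Finite k] [Field K₀]
    [Algebra k[X] K₀] [IsFractionRing k[X] K₀] [Field K] [Algebra K₀ K] [FiniteDimensional K₀ K]
    [Algebra.IsSeparable K₀ K] [Algebra k[X] K] [IsScalarTower k[X] K₀ K] :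
    ∃ w : Vl K, Function.Surjective w ∧ ∃ f : K, 1 < w f ∧
      ∀ u : Vl K, Function.Surjective u → u ≠ w → u f ≤ 1 := by
  have i1 : IsDedekindDomain (integralClosure k[X] K) :=
    integralClosure.isDedekindDomain k[X] K₀ K
  have i2 : IsFractionRing (integralClosure k[X] K) K :=
    integralClosure.isFractionRing_of_finite_extension K₀ K
  exact h k K₀ K (integralClosure k[X] K)

/-- the same for a separating element -/
theorem core' (h : S_DRA) (k K : Type) [Field k] [Finite k] [Field K] [Algebra k K] (t : K)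
    (ht : Transcendental k t) (hfin : FiniteDimensional (adjoin k {t}) K)
    (hsep : Algebra.IsSeparable (adjoin k {t}) K) :
    ∃ w : Vl K, Function.Surjective w ∧ ∃ f : K, 1 < w f ∧
      ∀ u : Vl K, Function.Surjective u → u ≠ w → u f ≤ 1 := by
  let a1 : Algebra k[X] K := ((aeval t : k[X] →ₐ[k] K) : k[X] →+* K).toAlgebra
  let a2 : Algebra k[X] (adjoin k {t}) :=
    ((aeval (AdjoinSimple.gen k t) : k[X] →ₐ[k] (adjoin k {t})) :
      k[X] →+* (adjoin k {t})).toAlgebra
  have hco : ∀ p : k[X], ((aeval (AdjoinSimple.gen k t) p : adjoin k {t}) : K) = aeval t p := by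
    intro p
    have h1 := Polynomial.aeval_algHom_apply (adjoin k {t}).val (AdjoinSimple.gen k t) p
    have h2 : (adjoin k {t}).val (AdjoinSimple.gen k t) = t := rfl
    rw [h2] at h1
    exact h1.symm
  have i1 : IsScalarTower k[X] (adjoin k {t}) K := by
    refine IsScalarTower.of_algebraMap_eq fun p => ?_
    exact (hco p).symm
  have inj : Function.Injective (algebraMap k[X] (adjoin k {t})) := by
    rw [injective_iff_map_eq_zero]
    intro p hp
    have h1 : aeval t p = 0 := by
      rw [← hco p]
      have h2 : (aeval (AdjoinSimple.gen k t) p : adjoin k {t}) = 0 := hp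
      rw [h2]
      rfl
    exact (transcendental_iff.1 ht) p h1
  have i2 : FaithfulSMul k[X] (adjoin k {t}) := (faithfulSMul_iff_algebraMap_injective _ _).2 inj
  have i3 : IsFractionRing k[X] (adjoin k {t}) := by
    refine IsFractionRing.of_field k[X] (adjoin k {t}) fun z => ?_
    obtain ⟨r, s, hrs⟩ := (mem_adjoin_simple_iff k (z : K)).1 z.2
    refine ⟨r, s, Subtype.ext ?_⟩
    rw [hrs, ← hco r, ← hco s]
    rfl
  exact core h k (adjoin k {t}) K

/-- a function with one pole which is not a square -/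
theorem nonsq {K : Type} [Field K] (w : Vl K) : ∀ (N : ℕ) (f : K), w f = exp (N : ℤ) → 0 < N →
    (∀ u : Vl K, Function.Surjective u → u ≠ w → u f ≤ 1) →
    ∃ g : K, 1 < w g ∧ (∀ u : Vl K, Function.Surjective u → u ≠ w → u g ≤ 1) ∧ ¬ IsSquare g := by
  intro N
  induction N using Nat.strong_induction_on with
  | _ N ih =>
    intro f hf hN hu
    by_cases hsq : IsSquare f
    · obtain ⟨h, rfl⟩ := hsq
      rw [map_mul] at hf
      have h0 : w h ≠ 0 := by
        intro h0
        rw [h0, mul_zero] at hf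
        exact exp_ne_zero hf.symm
      obtain ⟨m, hm⟩ : ∃ m : ℤ, w h = exp m := ⟨log (w h), (exp_log h0).symm⟩
      rw [hm, ← exp_add, exp_inj] at hf
      obtain ⟨m', rfl⟩ : ∃ m' : ℕ, m = m' := ⟨m.toNat, by omega⟩
      refine ih m' (by omega) h hm (by omega) fun u hu1 hu2 => ?_
      have h2 := hu u hu1 hu2
      rw [map_mul] at h2
      by_contra hcon
      rw [not_le] at hcon
      exact absurd h2 (not_le.2 (one_lt_mul'' hcon hcon))
    · refine ⟨f, ?_, hu, hsq⟩
      rw [hf, ← exp_zero, exp_lt_exp]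
      exact_mod_cast hN

end Pool.Agent.H467.GK.Drc

namespace Pool.Agent.H467.GK.Drc

theorem dri : S_DRA → S_DRB → S_DRI := by
  intro hA hB k K _ _ _ _ _ hFF
  obtain ⟨t, ht, hfin, hsep⟩ := exists_sep k K hFF
  obtain ⟨w, hw, f, hf, hu⟩ := core' hA k K t ht hfin hsep
  have hf0 : w f ≠ 0 := by
    intro h0
    rw [h0] at hf
    exact absurd hf (not_lt.2 zero_le_one)
  obtain ⟨m, hm⟩ : ∃ m : ℤ, w f = exp m := ⟨log (w f), (exp_log hf0).symm⟩
  have hm0 : 0 < m := by
    rw [hm, ← exp_zero, exp_lt_exp] at hf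
    exact hf
  obtain ⟨N, rfl⟩ : ∃ N : ℕ, m = N := ⟨m.toNat, by omega⟩
  obtain ⟨g, hg1, hg2, hg3⟩ := nonsq w N f hm (by omega) hu
  obtain ⟨φ, hφ, h1, h2, h3⟩ := hB k K hFF w hw g hg1 hg2 hg3
  exact ⟨φ, hφ, h1, h2, w, h3⟩

end Pool.Agent.H467.GK.Drc
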