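import Pool.Agent.H467.GK.Main
import Pool.Agent.H467.CT.Infg

/-!
# Descent in characteristic two over a global function field: general twists

Project GK (helper467).
-/

set_option autoImplicit false
set_option linter.all false

open Polynomial IsDedekindDomain WeierstrassCurve WeierstrassCurve.Affine WithZero
open Pool.Agent.TH115.GD
open Pool.Agent.H467.CT
open scoped Classical

namespace Pool.Agent.H467.GK

section dlog

variable {K : Type} [Field K] [CharP K 2] {t : K}

theorem bas_uniq (ht : Bas t) {p q p' q' : K} (e : p ^ 2 + t * q ^ 2 = p' ^ 2 + t * q' ^ 2) :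
    q = q' := by
  have c2 : (2 : K) = 0 := CharTwo.two_eq_zero
  by_contra hne
  apply ht.ns
  have hs : q + q' ≠ 0 := fun e2 => hne (by linear_combination e2 - q' * c2)
  refine ⟨(p + p') / (q + q'), ?_⟩
  field_simp
  linear_combination e + (t * q * q' + t * q' ^ 2 - p ^ 2 - p * p') * c2

theorem qq_spec (ht : Bas t) (x : K) : ∃ p : K, x = p ^ 2 + t * qq t x ^ 2 := by
  have h : ∃ q p : K, x = p ^ 2 + t * q ^ 2 := by
    obtain ⟨u, w, h⟩ := ht.dec x
    exact ⟨w, u, h⟩
  have h2 : qq t x = h.choose := by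
    unfold qq
    rw [dif_pos h]
  rw [h2]
  exact h.choose_spec

theorem qq_eq (ht : Bas t) {x p q : K} (h : x = p ^ 2 + t * q ^ 2) : qq t x = q := by
  obtain ⟨p', hp'⟩ := qq_spec ht x
  exact bas_uniq ht (by rw [← hp', ← h])

theorem dl_mul (ht : Bas t) {x y : K} (hx : x ≠ 0) (hy : y ≠ 0) :
    dl t (x * y) = dl t x + dl t y := by
  have c2 : (2 : K) = 0 := CharTwo.two_eq_zero
  obtain ⟨p, hp⟩ := qq_spec ht x
  obtain ⟨p', hp'⟩ := qq_spec ht y
  have h : qq t (x * y) = p * qq t y + qq t x * p' := by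
    apply qq_eq ht (p := p * p' + t * qq t x * qq t y)
    conv_lhs => rw [hp, hp']
    linear_combination (-(p * p' * t * qq t x * qq t y) - t * p * qq t y * qq t x * p') * c2
  unfold dl
  rw [h]
  have e : (p * qq t y + qq t x * p') ^ 2 = qq t x ^ 2 * y + qq t y ^ 2 * x := by
    linear_combination (-(qq t x ^ 2)) * hp' - qq t y ^ 2 * hp +
      (p * qq t y * qq t x * p' - t * qq t x ^ 2 * qq t y ^ 2) * c2
  rw [e]
  field_simp

theorem dl_sq (ht : Bas t) (y : K) : dl t (y ^ 2) = 0 := by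
  unfold dl
  rw [qq_eq ht (x := y ^ 2) (p := y) (q := 0) (by ring)]
  simp

theorem dl_one (ht : Bas t) : dl t 1 = 0 := by
  have := dl_sq ht 1
  rwa [one_pow] at this

theorem dl_prod (ht : Bas t) {ι : Type} [Fintype ι] {u : ι → K} (hu : ∀ i, u i ≠ 0)
    (e : ι → ZMod 2) (f : K → ZMod 2) (hf : ∀ x y, f (x + y) = f x + f y) (a : K) :
    f (a * dl t (∏ i, u i ^ (e i).val)) = ∑ i, e i * f (a * dl t (u i)) := by
  have hf0 : f 0 = 0 := by
    have := hf 0 0
    rw [add_zero] at this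
    exact left_eq_add.1 this
  have h1 : ∀ s : Finset ι, f (a * dl t (∏ i ∈ s, u i ^ (e i).val)) =
      ∑ i ∈ s, e i * f (a * dl t (u i)) := by
    intro s
    induction s using Finset.induction_on with
    | empty => simp [dl_one ht, hf0]
    | insert i s hi ih =>
      rw [Finset.prod_insert hi, Finset.sum_insert hi, dl_mul ht (pow_ne_zero _ (hu i))
        (Finset.prod_ne_zero_iff.2 fun j _ => pow_ne_zero _ (hu j)), mul_add, hf, ih]
      congr 1
      have h2 : e i = 0 ∨ e i = 1 := by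
        generalize e i = x
        revert x; decide
      rcases h2 with h2 | h2
      · rw [h2]
        simp [dl_one ht, hf0]
      · rw [h2]
        have : (1 : ZMod 2).val = 1 := rfl
        rw [this, pow_one, one_mul]
  exact h1 Finset.univ

end dlog

section gen

variable {k K₀ K O : Type} [Field k] [Finite k] [CharP k 2] [Field K₀]
  [Algebra k[X] K₀] [IsFractionRing k[X] K₀] [Field K] [CharP K 2] [Algebra K₀ K]
  [FiniteDimensional K₀ K]
  [Algebra.IsSeparable K₀ K] [Algebra k[X] K] [IsScalarTower k[X] K₀ K] [CommRing O]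
  [IsDedekindDomain O] [Algebra O K] [IsFractionRing O K] [Algebra k[X] O]
  [IsScalarTower k[X] O K] [IsIntegralClosure O k[X] K]

/-- The place `j`. -/
noncomputable def pj (w : Vl K) {s : Finset (HeightOneSpectrum O)} (j : Option s) : Vl K :=
  plc w (j.map Subtype.val)

/-- Integrality modulo `z ^ 2 + z` at a set of places. -/
theorem intgsK (good : HeightOneSpectrum O → Prop) (α : K)
    (hα : ∀ v, good v → ∃ z : K, v.valuation K (α + z ^ 2 + z) ≤ 1) :
    ∃ g : K, ∀ v, good v → v.valuation K (α + g ^ 2 + g) ≤ 1 := by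
  have h2 : (2 : K) = 0 := CharTwo.two_eq_zero
  have step : ∀ v : HeightOneSpectrum O, ∃ z : K,
      (good v → v.valuation K (α + z ^ 2 + z) ≤ 1) ∧ (v.valuation K α ≤ 1 → z = 0) := by
    intro v
    by_cases hv : v.valuation K α ≤ 1
    · exact ⟨0, fun _ => by simpa using hv, fun _ => rfl⟩
    · by_cases hg : good v
      · obtain ⟨z, hz⟩ := hα v hg
        exact ⟨z, fun _ => hz, fun h => absurd h hv⟩
      · exact ⟨0, fun h => absurd h hg, fun _ => rfl⟩
  choose z hz1 hz2 using step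
  have hfin : {v | z v ≠ 0}.Finite := by
    refine (HeightOneSpectrum.Support.finite O α).subset fun v hv => ?_
    show 1 < v.valuation K α
    by_contra h
    exact hv (hz2 v (not_lt.1 h))
  obtain ⟨g, hg⟩ := Intg.cousin (K := K) z hfin
  refine ⟨g, fun v hv => ?_⟩
  have e : α + g ^ 2 + g = (α + z v ^ 2 + z v) + ((g - z v) ^ 2 + (g - z v)) := by
    linear_combination (-z v ^ 2 + g * z v) * h2
  rw [e]
  refine (Valuation.map_add_le _ (hz1 v hv) ?_)
  refine (Valuation.map_add_le _ ?_ (hg v))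
  rw [map_pow]
  exact pow_le_one' (hg v) 2

omit [Finite k] [CharP k 2] [Algebra K₀ K] [FiniteDimensional K₀ K] [Algebra.IsSeparable K₀ K]
  [Algebra k[X] K] [Algebra k[X] K₀] [IsFractionRing k[X] K₀] [Field K₀] [Field k] [CommRing O]
  [IsDedekindDomain O] [Algebra O K] [IsFractionRing O K] in
/-- Approximation of `z` in the completion, for `z ^ 2 + z`. -/
theorem apx (hen : S_HEN) {u : Vl K} (hu : Function.Surjective u) (α : K) (z : Cm u) :
    ∃ (z₀ : K) (ε : Cm u), vc u ε < 1 ∧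
      algebraMap K (Cm u) (α + z₀ ^ 2 + z₀) = algebraMap K (Cm u) α + z ^ 2 + z + ε := by
  obtain ⟨h1, -, h3⟩ := hen K u hu
  obtain ⟨z₀, hz₀⟩ := h3 z 1 one_ne_zero
  rw [map_one, map_one] at hz₀
  have c2 : (2 : Cm u) = 0 := CharTwo.two_eq_zero
  refine ⟨z₀, (z - algebraMap K (Cm u) z₀) ^ 2 + (z - algebraMap K (Cm u) z₀), ?_, ?_⟩
  · refine lt_of_le_of_lt (Valuation.map_add _ _ _) (max_lt ?_ hz₀)
    rw [map_pow]
    exact pow_lt_one₀ zero_le' hz₀ two_ne_zero
  · rw [map_add, map_add, map_pow]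
    linear_combination (-z ^ 2 - z + z * algebraMap K (Cm u) z₀ +
      algebraMap K (Cm u) z₀) * c2

theorem apx_le (hen : S_HEN) {u : Vl K} (hu : Function.Surjective u) {α : K} {z : Cm u}
    {γ : WithZero (Multiplicative ℤ)} (hγ : 1 ≤ γ)
    (h : vc u (algebraMap K (Cm u) α + z ^ 2 + z) ≤ γ) : ∃ z₀ : K, u (α + z₀ ^ 2 + z₀) ≤ γ := by
  obtain ⟨z₀, ε, h1, h2⟩ := apx hen hu α z
  refine ⟨z₀, ?_⟩
  rw [← (hen K u hu).1, h2]
  exact Valuation.map_add_le _ h (h1.le.trans hγ)

theorem apx_AS (hen : S_HEN) {u : Vl K} (hu : Function.Surjective u) {α : K}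
    (h : AS (algebraMap K (Cm u) α)) : ∃ z₀ : K, u (α + z₀ ^ 2 + z₀) < 1 := by
  obtain ⟨z, hz⟩ := h
  have c2 : (2 : Cm u) = 0 := CharTwo.two_eq_zero
  obtain ⟨z₀, ε, h1, h2⟩ := apx hen hu α z
  refine ⟨z₀, ?_⟩
  have e : algebraMap K (Cm u) α + z ^ 2 + z = 0 := by
    rw [hz]; linear_combination (z ^ 2 + z) * c2
  rw [← (hen K u hu).1, h2, e, zero_add]
  exact h1

/-- The data of the general theorem. -/
structure GdK {w : Vl K} (ρ : ResK k O w) (τ : k → ZMod 2) {s : Finset (HeightOneSpectrum O)}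
    (u : s → K) (a b : K) (β : s → ZMod 2) (y : K) : Prop where
  hw : Function.Surjective w
  tau : IsTau τ
  bas : Bas (algebraMap k[X] K X)
  der : ∀ v : HeightOneSpectrum O, v ∉ s → ∀ p q : K,
    v.valuation K (p ^ 2 + algebraMap k[X] K X * q ^ 2) ≤ 1 → v.valuation K q ≤ 1
  unb : Unb s u
  unr : ∀ α : K,
    (∀ v : HeightOneSpectrum O, v ∉ s → ∃ z : K, v.valuation K (α + z ^ 2 + z) ≤ 1) →
    (∀ v ∈ s, ∃ z : K, v.valuation K (α + z ^ 2 + z) < 1) →
    (∃ z : K, w (α + z ^ 2 + z) < 1) → AS α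
  b_eq : b = (∏ i, u i ^ (β i).val) * y ^ 2
  b_ns : ¬ IsSquare b
  b_out : ∀ v : HeightOneSpectrum O, v ∉ s → v.valuation K b = 1
  a_out : ∀ v : HeightOneSpectrum O, v ∉ s → v.valuation K a ≤ 1
  big : ∀ (j : Option s) (z : Cm (pj w j)),
    max 1 (vc (pj w j) (algebraMap K (Cm (pj w j)) b)) <
      vc (pj w j) (algebraMap K (Cm (pj w j)) a + z ^ 2 + z)
  good : Good β (matK ρ τ u a)

section lemmas

variable {w : Vl K} {ρ : ResK k O w} {τ : k → ZMod 2} {s : Finset (HeightOneSpectrum O)}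
    {u : s → K} {a b : K} {β : s → ZMod 2} {y : K}

theorem pj_surj (hw : Function.Surjective w) (j : Option s) : Function.Surjective (pj w j) := by
  rcases j with _ | j
  · exact hw
  · exact j.1.valuation_surjective K

/-- The residues at a place of `s` or at infinity. -/
noncomputable def rr (ρ : ResK k O w) (τ : k → ZMod 2) (j : Option s) (x : K) : ZMod 2 :=
  τ (ρ.r (j.map Subtype.val) x)

/-- `AS` in the completion at a place of `s` or at infinity. -/
def ASj (w : Vl K) (j : Option s) (x : K) : Prop := AS (algebraMap K (Cm (pj w j)) x)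

/-- `a + d s ^ 2` is of the form `z ^ 2 + z` in the completion. -/
def ASd (w : Vl K) (j : Option s) (a d : K) : Prop :=
  ∃ r : Cm (pj w j), AS (algebraMap K (Cm (pj w j)) a + algebraMap K (Cm (pj w j)) d * r ^ 2)

theorem rr_add (hτ : IsTau τ) (j : Option s) (x x' : K) :
    rr ρ τ j (x + x') = rr ρ τ j x + rr ρ τ j x' := by
  unfold rr
  rw [ρ.add, hτ.add]

theorem rr_norm (hen : S_HEN) (hw : Function.Surjective w) (hτ : IsTau τ)
    (ht : Bas (algebraMap k[X] K X)) (j : Option s) {x d : K} (hd : d ≠ 0)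
    (h : ASd w j x d) : rr ρ τ j (x * dl (algebraMap k[X] K X) d) = 0 := by
  obtain ⟨p, hp⟩ := qq_spec ht d
  obtain ⟨h1, -, h3⟩ := hen K (pj w j) (pj_surj hw j)
  obtain ⟨c0, hc0, hc⟩ : ∃ c0 : K, c0 ≠ 0 ∧ ∀ x : K, pj w j x ≤ pj w j c0 →
      ρ.r (j.map Subtype.val) x = 0 := by
    rcases j with _ | j
    · exact ρ.intw
    · refine ⟨1, one_ne_zero, fun x hx => ρ.int j.1 x ?_⟩
      rw [map_one] at hx
      exact hx
  have h4 := norm_abs (ρ.r (j.map Subtype.val)) (ρ.add _) (ρ.sq _) (algebraMap k[X] K X)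
    (ρ.sqt _) (vc (pj w j)) (algebraMap K (Cm (pj w j))) h3 c0 hc0
    (fun x hx => hc x (by rwa [h1, h1] at hx)) (d := d) (u := p)
    (v := qq (algebraMap k[X] K X) d) hp hd (a := x) h
  unfold rr dl
  rw [← mul_div_assoc, hτ.zero]
  exact h4

theorem ASd_of (j : Option s) {x d : K} (h : ASj w j x) : ASd w j x d :=
  ⟨0, by simpa [ASj] using h⟩

theorem ASd_mul (j : Option s) {x d y : K} (h : ASd w j x (d * y ^ 2)) : ASd w j x d := by
  obtain ⟨r, hr⟩ := h
  refine ⟨algebraMap K (Cm (pj w j)) y * r, ?_⟩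
  rw [map_mul, map_pow] at hr
  rw [mul_pow, ← mul_assoc]
  exact hr

theorem ASj_add (j : Option s) {x x' : K} (h : ASj w j x) (h' : ASj w j x') :
    ASj w j (x + x') := by
  unfold ASj
  rw [map_add]
  exact AS_add h h'

theorem ASj_glob (j : Option s) {x : K} (h : AS x) : ASj w j x := by
  obtain ⟨z, hz⟩ := h
  exact ⟨algebraMap K (Cm (pj w j)) z, by rw [hz, map_add, map_pow]⟩

theorem rr_sum (hτ : IsTau τ) {x : K}
    (hx : ∀ v : HeightOneSpectrum O, v ∉ s → v.valuation K x ≤ 1) :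
    ∑ j : Option s, rr ρ τ j x = 0 := by
  have hτ0 : τ 0 = 0 := (hτ.zero 0).2 ⟨0, by ring⟩
  have hτs : ∀ (s' : Finset (HeightOneSpectrum O)) (f : HeightOneSpectrum O → k),
      τ (∑ v ∈ s', f v) = ∑ v ∈ s', τ (f v) := by
    intro s' f
    induction s' using Finset.induction_on with
    | empty => simpa using hτ0
    | insert v s' hv ih => rw [Finset.sum_insert hv, Finset.sum_insert hv, hτ.add, ih]
  rw [Fintype.sum_option]
  have h1 : rr ρ τ (none : Option s) x = τ (∑ v ∈ s, ρ.r (some v) x) := by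
    show τ (ρ.r none x) = _
    rw [ρ.sum x s hx]
  rw [h1, hτs, ← Finset.sum_coe_sort s]
  exact CharTwo.add_self_eq_zero _

theorem mat_rr (a : K) (i : s) (j : Option s) :
    matK ρ τ u a i j = rr ρ τ j (a * dl (algebraMap k[X] K X) (u i)) := rfl

theorem sum_mat (hτ : IsTau τ) (ht : Bas (algebraMap k[X] K X)) (hu : ∀ i, u i ≠ 0)
    (e : s → ZMod 2) (a : K) (j : Option s) :
    ∑ i, e i * matK ρ τ u a i j =
      rr ρ τ j (a * dl (algebraMap k[X] K X) (∏ i, u i ^ (e i).val)) :=
  (dl_prod ht hu e (rr ρ τ j) (rr_add hτ j) a).symm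

theorem dl_int (hunb : Unb s u) (ht : Bas (algebraMap k[X] K X))
    (hder : ∀ v : HeightOneSpectrum O, v ∉ s → ∀ p q : K,
      v.valuation K (p ^ 2 + algebraMap k[X] K X * q ^ 2) ≤ 1 → v.valuation K q ≤ 1)
    {x : K} (hx : ∀ v : HeightOneSpectrum O, v ∉ s → v.valuation K x ≤ 1) (i : s)
    (v : HeightOneSpectrum O) (hv : v ∉ s) :
    v.valuation K (x * dl (algebraMap k[X] K X) (u i)) ≤ 1 := by
  obtain ⟨p, hp⟩ := qq_spec ht (u i)
  have h1 := hunb.unit i v hv
  have h2 := hder v hv p _ (by rw [← hp, h1])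
  unfold dl
  rw [map_mul, map_div₀, h1, div_one, map_pow]
  exact mul_le_one' (hx v hv) (pow_le_one' h2 2)

/-- The class of `α`. -/
theorem gen_V (hen : S_HEN) (h : GdK ρ τ u a b β y) {α : K}
    (hα : AllVA a b α) : AS α := by
  have c2 : (2 : K) = 0 := CharTwo.two_eq_zero
  have hτ := h.tau
  have hb0 : b ≠ 0 := by
    rintro rfl
    exact h.b_ns ⟨0, by simp⟩
  have hprod : (∏ i, u i ^ (β i).val) ≠ 0 :=
    Finset.prod_ne_zero_iff.2 fun j _ => pow_ne_zero _ (h.unb.ne j)
  -- integrality outside `s`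
  have hint : ∀ v : HeightOneSpectrum O, v ∉ s → ∃ z : K, v.valuation K (α + z ^ 2 + z) ≤ 1 := by
    intro v hv
    have hs := v.valuation_surjective K
    have h1 := hα (v.valuation K) hs
    obtain ⟨h2, -, -⟩ := hen K (v.valuation K) hs
    obtain ⟨z, hz⟩ := L1 (w := vc (v.valuation K)) (by rw [h2]; exact h.a_out v hv)
      (by rw [h2]; exact (h.b_out v hv).le) h1
    exact apx_le hen hs le_rfl hz
  obtain ⟨g, hg⟩ := intgsK (fun v => v ∉ s) α hint
  set α' := α + g ^ 2 + g with hα'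
  -- the local conditions in `s`
  have hloc : ∀ j : Option s, ASj w j α ∨ (ASj w j (α + a) ∧ ASd w j a b) := by
    intro j
    have hs := pj_surj h.hw j
    have h1 := hα (pj w j) hs
    rcases LS (w := vc (pj w j)) (fun x hx => (hen K (pj w j) hs).2.1 x hx)
      ((_root_.map_ne_zero _).2 hb0) (h.big j) h1 with h2 | ⟨h2, h3⟩
    · exact Or.inl h2
    · refine Or.inr ⟨?_, h3⟩
      show AS (algebraMap K (Cm (pj w j)) (α + a))
      rw [map_add]; exact h2
  set ε : Option s → ZMod 2 := fun j => if ASj w j α then 0 else 1 with hε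
  have hε0 : ε = 0 := by
    apply h.good.inj
    · intro j hj
      by_contra hne
      apply hj
      have h1 : ¬ ASj w j α := by
        intro h2
        apply hne
        rw [hε]; simp [h2]
      obtain ⟨-, h3⟩ := (hloc j).resolve_left h1
      rw [sum_mat hτ h.bas h.unb.ne]
      apply rr_norm hen h.hw hτ h.bas j hprod
      rw [h.b_eq] at h3
      exact ASd_mul j h3
    · intro i
      have key : ∀ j, ε j * matK ρ τ u a i j =
          rr ρ τ j (α' * dl (algebraMap k[X] K X) (u i)) := by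
        intro j
        rw [mat_rr]
        have hd := h.unb.ne i
        by_cases h1 : ASj w j α
        · have h2 : ε j = 0 := by rw [hε]; simp [h1]
          have h3 : ASj w j α' := by
            have : α' = α + (g ^ 2 + g) := by rw [hα']; ring
            rw [this]
            exact ASj_add j h1 (ASj_glob j (AS_sq g))
          rw [h2, zero_mul, rr_norm hen h.hw hτ h.bas j hd (ASd_of j h3)]
        · have h2 : ε j = 1 := by rw [hε]; simp [h1]
          obtain ⟨h3, -⟩ := (hloc j).resolve_left h1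
          have h4 : ASj w j (α' + a) := by
            have : α' + a = (α + a) + (g ^ 2 + g) := by rw [hα']; ring
            rw [this]
            exact ASj_add j h3 (ASj_glob j (AS_sq g))
          have h5 := rr_norm (ρ := ρ) hen h.hw hτ h.bas j hd (ASd_of j (d := u i) h4)
          rw [add_mul, rr_add hτ] at h5
          rw [h2, one_mul]
          exact (CharTwo.add_eq_zero.1 h5).symm
      rw [Finset.sum_congr rfl (fun j _ => key j)]
      have h6 : ∀ v : HeightOneSpectrum O, v ∉ s →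
          v.valuation K (α' * dl (algebraMap k[X] K X) (u i)) ≤ 1 :=
        fun v hv => dl_int h.unb h.bas h.der hg i v hv
      exact rr_sum (ρ := ρ) (s := s) hτ h6
  have hall : ∀ j : Option s, ASj w j α := by
    intro j
    by_contra h1
    have h2 : ε j = 1 := by rw [hε]; simp [h1]
    rw [hε0] at h2
    exact one_ne_zero h2.symm
  refine h.unr α hint (fun v hv => ?_) ?_
  · exact apx_AS hen (pj_surj h.hw (some ⟨v, hv⟩)) (hall (some ⟨v, hv⟩))
  · exact apx_AS hen h.hw (hall none)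

/-- The class of `d`. -/
theorem gen_F (hen : S_HEN) (hmatl : S_MATL) (h : GdK ρ τ u a b β y)
    {d : K} (hd : d ≠ 0) (hdF : AllFA a b d) : IsSquare d ∨ IsSquare (d * b) := by
  have hτ := h.tau
  have hb0 : b ≠ 0 := by
    rintro rfl
    exact h.b_ns ⟨0, by simp⟩
  have hprod : ∀ e : s → ZMod 2, (∏ i, u i ^ (e i).val) ≠ 0 := fun e =>
    Finset.prod_ne_zero_iff.2 fun j _ => pow_ne_zero _ (h.unb.ne j)
  obtain ⟨e, x, hx, he⟩ := h.unb.gen d hd (by
    intro v hv
    have hs := v.valuation_surjective K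
    have h1 := hdF (v.valuation K) hs
    obtain ⟨h2, -, -⟩ := hen K (v.valuation K) hs
    have hb1 : vc (v.valuation K) (algebraMap K (Cm (v.valuation K)) b) = 1 := by
      rw [h2]; exact h.b_out v hv
    have := F1 (w := vc (v.valuation K)) (by rw [h2]; exact h.a_out v hv) hb1.le
      (by rw [hb1]; exact ev_one)
      ((_root_.map_ne_zero _).2 hb0) ((_root_.map_ne_zero _).2 hd)
      (fun hlt => absurd hb1 hlt.ne) h1
    rwa [h2] at this)
  have hβ : β ≠ 0 := by
    intro h0
    apply h.b_ns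
    rw [h.b_eq, h0]
    exact ⟨y, by simp [sq]⟩
  have hloc : ∀ j : Option s, ASd w j a d ∨ ASd w j a (d * b) := by
    intro j
    have hs := pj_surj h.hw j
    have h1 := hdF (pj w j) hs
    rcases FS (w := vc (pj w j)) (fun x hx => (hen K (pj w j) hs).2.1 x hx)
      ((_root_.map_ne_zero _).2 hb0) ((_root_.map_ne_zero _).2 hd) (h.big j) h1 with h2 | h2
    · exact Or.inl h2
    · right
      obtain ⟨r, hr⟩ := h2
      exact ⟨r, by rw [map_mul]; exact hr⟩
  have ht := h.bas
  rcases hmatl s β hβ (matK ρ τ u a) h.good e (by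
    intro j hj
    rw [sum_mat hτ ht h.unb.ne] at hj
    rw [sum_mat hτ ht h.unb.ne]
    rcases hloc j with h1 | h1
    · apply rr_norm hen h.hw hτ ht j (hprod e)
      rw [he] at h1
      exact ASd_mul j h1
    · have h2 : ASd w j a ((∏ i, u i ^ (e i).val) * ∏ i, u i ^ (β i).val) := by
        apply ASd_mul j (y := x * y)
        have e2 : ((∏ i, u i ^ (e i).val) * ∏ i, u i ^ (β i).val) * (x * y) ^ 2 = d * b := by
          rw [he, h.b_eq]; ring
        rw [e2]; exact h1
      have h3 := rr_norm (ρ := ρ) hen h.hw hτ ht j (mul_ne_zero (hprod e) (hprod β)) h2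
      rw [dl_mul ht (hprod e) (hprod β), mul_add, rr_add hτ, hj, add_zero] at h3
      exact h3) with h1 | h1
  · left
    rw [he, h1]
    exact ⟨x, by simp [sq]⟩
  · right
    refine ⟨(∏ i, u i ^ (β i).val) * x * y, ?_⟩
    rw [he, h.b_eq, h1]
    ring

/-- The main theorem for general twists. -/
theorem gen_main (hen : S_HEN) (hasc : S_ASC) (hmatl : S_MATL)
    (h : GdK ρ τ u a b β y) :
    (∀ P : Pt (cc a b) K, ∃ Q, Q + Q = P) ∧ (∀ P : Pt (cc a b) K, P + P = 0 → P = 0) ∧
    ShaTwoA (cc a b) := by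
  have hM : ∀ (c' : (Sep K ≃ₐ[K] Sep K) → Pt (cc a b) (Sep K))
      (R' : Pt (cc a b) (Sep K)), IsCoc _ c' →
      LTA _ c' → (∀ σ, c' σ + c' σ = act _ (rs K σ) R' - R') →
      ∃ S0 : Pt (cc a b) (Sep K), S0 + S0 = R' ∧
        ∀ σ, c' σ = act _ (rs K σ) S0 - S0 := by
    intro c' R' h1 h2 h3
    exact thmMA hasc h.b_ns h.bas (fun α hα => gen_V hen h hα)
      (fun d hd hdF => gen_F hen hmatl h hd hdF) h1 h2 h3
  exact ⟨half_ofA hM, two_K h.b_ns, sha_ofA hM⟩

end lemmas

end gen

end Pool.Agent.H467.GK
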