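import Pool.Agent.H467.GK.Spec
import Pool.Agent.H467.CT.Asc

/-!
# Descent in characteristic two over an arbitrary field with places

Project GK (helper467).
-/

set_option autoImplicit false
set_option linter.all false

open Polynomial IsDedekindDomain WeierstrassCurve WeierstrassCurve.Affine WithZero
open Pool.Agent.TH115.GD
open Pool.Agent.H467.CT
open scoped Classical

namespace Pool.Agent.H467.GK

section main

variable {K : Type} [Field K] [CharP K 2] {a b : K}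

instance charCm (u : Vl K) : CharP (Cm u) 2 :=
  charP_of_injective_algebraMap (algebraMap K (Cm u)).injective 2

/-- The local conditions on `α` at all places. -/
def AllVA (a b α : K) : Prop := ∀ u : Vl K, Function.Surjective u →
  LV (algebraMap K (Cm u) a) (algebraMap K (Cm u) b) (algebraMap K (Cm u) α)

/-- The local conditions on `d` at all places. -/
def AllFA (a b d : K) : Prop := ∀ u : Vl K, Function.Surjective u →
  LF (algebraMap K (Cm u) a) (algebraMap K (Cm u) b) (algebraMap K (Cm u) d)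

theorem partFA (hb : b ≠ 0) {t : K} (ht : Bas t)
    (HF : ∀ d : K, d ≠ 0 → AllFA a b d → IsSquare d ∨ IsSquare (d * b))
    {c : (Sep K ≃ₐ[K] Sep K) → Pt (cc a b) (Sep K)}
    {R : Pt (cc a b) (Sep K)} {S : Pt (cc (a ^ 2) (b ^ 2)) (Sep K)}
    (hR : S + S = Fr a b (Sep K) R)
    (hS : ∀ σ : Sep K ≃ₐ[K] Sep K, Fr a b (Sep K) (c σ) = act _ (rs K σ) S - S)
    (hloc : LTA (cc a b) c) :
    ∃ S0 : Pt (cc a b) (Sep K), S0 + S0 = R ∧ ∀ σ, c σ = act (cc a b) (rs K σ) S0 - S0 := by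
  obtain ⟨d, w, hd0, hw, hd⟩ := exists_dd hb ht hS
  exact finish hb hR hS hw hd (HF d hd0 fun u hu => F_loc hb hS hw hd (hloc u hu))

/-- The main theorem of the descent. -/
theorem thmMA (hasc : S_ASC) (hb : ¬ IsSquare b) {t : K} (ht : Bas t)
    (HV : ∀ α : K, AllVA a b α → AS α)
    (HF : ∀ d : K, d ≠ 0 → AllFA a b d → IsSquare d ∨ IsSquare (d * b))
    {c : (Sep K ≃ₐ[K] Sep K) → Pt (cc a b) (Sep K)} {R : Pt (cc a b) (Sep K)}
    (hc : IsCoc (cc a b) c) (hloc : LTA (cc a b) c)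
    (h2 : ∀ σ, c σ + c σ = act (cc a b) (rs K σ) R - R) :
    ∃ S0 : Pt (cc a b) (Sep K), S0 + S0 = R ∧ ∀ σ, c σ = act (cc a b) (rs K σ) S0 - S0 := by
  have hb0 : b ≠ 0 := fun h => hb ⟨0, by rw [h]; ring⟩
  obtain ⟨S, ζ, α, h⟩ := exists_dat hasc hb hc h2
  exact partFA hb0 ht HF h.dbl (h.kill (HV α fun u hu => h.V hb0 (hloc u hu))) hloc

omit [CharP K 2] in
theorem lta_zero (W : WeierstrassCurve K) :
    LTA W (fun _ : Sep K ≃ₐ[K] Sep K => 0) :=
  fun v _ => locTriv_zero W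

omit [CharP K 2] in
theorem LTA.nsmul {W : WeierstrassCurve K} {f : (Sep K ≃ₐ[K] Sep K) → Pt W (Sep K)}
    (h : LTA W f) (m : ℕ) : LTA W (fun σ => m • f σ) :=
  fun v hv => LocTriv.nsmul W (h v hv) m

omit [CharP K 2] in
theorem IsCoc.nsmulA {W : WeierstrassCurve K} {f : (Sep K ≃ₐ[K] Sep K) → Pt W (Sep K)}
    (h : IsCoc W f) (m : ℕ) : IsCoc W (fun σ => m • f σ) := by
  refine ⟨h.lc.comp _, fun σ τ => ?_⟩
  show m • f (σ * τ) = m • f σ + act W (rs K σ) (m • f τ)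
  rw [h.mul, map_nsmul, smul_add]

omit [CharP K 2] in
/-- The 2-primary part of the Tate-Shafarevich group. -/
theorem sha_ofA {W : WeierstrassCurve K}
    (hM : ∀ (c : (Sep K ≃ₐ[K] Sep K) → Pt W (Sep K)) (R : Pt W (Sep K)), IsCoc W c →
      LTA W c → (∀ σ, c σ + c σ = act W (rs K σ) R - R) →
      ∃ S0 : Pt W (Sep K), S0 + S0 = R ∧ ∀ σ, c σ = act W (rs K σ) S0 - S0) : ShaTwoA W := by
  intro f hf hloc ⟨n, R, hR⟩
  induction n generalizing R with
  | zero => exact ⟨R, fun σ => by rw [← hR, pow_zero, one_smul]⟩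
  | succ n ih =>
    obtain ⟨S0, -, hS0⟩ := hM (fun σ => 2 ^ n • f σ) R (IsCoc.nsmulA hf _)
      (LTA.nsmul hloc _) (fun σ => by
        rw [← hR σ, pow_succ, mul_comm, mul_smul, two_smul])
    exact ih S0 hS0

omit [CharP K 2] in
/-- Divisibility by two of the points over `K`. -/
theorem half_ofA {W : WeierstrassCurve K}
    (hM : ∀ (c : (Sep K ≃ₐ[K] Sep K) → Pt W (Sep K)) (R : Pt W (Sep K)), IsCoc W c →
      LTA W c → (∀ σ, c σ + c σ = act W (rs K σ) R - R) →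
      ∃ S0 : Pt W (Sep K), S0 + S0 = R ∧ ∀ σ, c σ = act W (rs K σ) S0 - S0) (P : Pt W K) :
    ∃ Q : Pt W K, Q + Q = P := by
  obtain ⟨S0, h1, h2⟩ := hM (fun _ => 0) (act W (incl K K (Sep K)) P)
    ⟨IsLocallyConstant.const _, fun σ τ => by rw [map_zero, add_zero]⟩ (lta_zero W)
    (fun σ => by rw [rs_act_incl, sub_self, add_zero])
  obtain ⟨Q, hQ⟩ := fixed_point (K := K) (F := K) W S0 (fun τ => (sub_eq_zero.1 (h2 τ).symm))
  refine ⟨Q, act_inj W (incl K K (Sep K)) ?_⟩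
  rw [map_add, hQ, h1]

end main

end Pool.Agent.H467.GK
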