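import Pool.Agent.H467.CT.Gen
import Pool.Agent.H467.MR.Spec

/-!
# Descent in characteristic two over an arbitrary global function field: statements of the parts

Project GK (helper467). `K` is a finite separable extension of `K₀ = k(t)` in which the place `t = ∞`
has exactly one extension `w`; `O` is the integral closure of `k[t]` in `K`.
-/

set_option autoImplicit false
set_option linter.all false

open Polynomial IsDedekindDomain WeierstrassCurve WeierstrassCurve.Affine WithZero
open Pool.Agent.TH115.GD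
open Pool.Agent.H467.CT (AS Bas vinf Res IsTau Good Std Ev)
open scoped Classical

namespace Pool.Agent.H467.GK

/-- Valuations with values in `ℤ` (written multiplicatively) and zero. -/
abbrev Vl (K : Type) [Field K] : Type := Valuation K (WithZero (Multiplicative ℤ))

section completion

variable {K : Type} [Field K]

/-- The completion of `K`. -/
def Cm (u : Vl K) : Type := u.Completion

noncomputable instance cmField (u : Vl K) : Field (Cm u) := (inferInstance : Field u.Completion)

noncomputable instance cmAlgebra (u : Vl K) : Algebra K (Cm u) :=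
  ((algebraMap (WithVal u) u.Completion).comp (WithVal.equiv u).symm.toRingHom).toAlgebra

/-- The valuation of the completion. -/
noncomputable def vc (u : Vl K) : Valuation (Cm u) (WithZero (Multiplicative ℤ)) :=
  (Valued.v : Valuation u.Completion (WithZero (Multiplicative ℤ)))

/-- Completions: the valuation, elements of the maximal ideal are of the form `z ^ 2 + z`, `K` is
dense. -/
def S_HEN : Prop := ∀ (K : Type) [Field K] [CharP K 2] (u : Vl K), Function.Surjective u →
  (∀ x : K, vc u (algebraMap K (Cm u) x) = u x) ∧ (∀ x : Cm u, vc u x < 1 → AS x) ∧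
  ∀ (x : Cm u) (g : K), g ≠ 0 → ∃ f : K, vc u (x - algebraMap K (Cm u) f) <
    vc u (algebraMap K (Cm u) g)

/-- Local triviality at all places. -/
def LTA (W : WeierstrassCurve K) (f : (Sep K ≃ₐ[K] Sep K) → Pt W (Sep K)) : Prop :=
  ∀ u : Vl K, Function.Surjective u → LocTriv W (Cm u) (Sep (Cm u)) f

/-- The 2-primary part of the Tate-Shafarevich group is zero. -/
def ShaTwoA (W : WeierstrassCurve K) : Prop :=
  ∀ f : (Sep K ≃ₐ[K] Sep K) → Pt W (Sep K), IsCoc W f → LTA W f →
    (∃ (n : ℕ) (R : Pt W (Sep K)), ∀ σ, 2 ^ n • f σ = act W (rs K σ) R - R) →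
    ∃ R : Pt W (Sep K), ∀ σ, f σ = act W (rs K σ) R - R

end completion

section inf

variable (k K₀ : Type) {K : Type} [Field k] [Field K₀] [Algebra k[X] K₀] [IsFractionRing k[X] K₀]
  [Field K] [Algebra K₀ K]

/-- `w` is the only place of `K` above `t = ∞`: the valuation ring of `w` is the integral closure
of the local ring of `k(t)` at `t = ∞`. -/
structure Inf (w : Vl K) : Prop where
  surj : Function.Surjective w
  iff : ∀ x : K, w x ≤ 1 ↔ ∀ i : ℕ, vinf k ((minpoly K₀ x).coeff i) ≤ 1

variable (O : Type) [Algebra k[X] K] [CommRing O] [Algebra O K]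

/-- The facts on the place at infinity. -/
structure Facts (w : Vl K) : Prop where
  base : ∀ f : K₀, w (algebraMap K₀ K f) ≤ 1 ↔ vinf k f ≤ 1
  tr : ∀ x : K, w x ≤ 1 → vinf k (Algebra.trace K₀ K x) ≤ 1
  t_gt : 1 < w (algebraMap k[X] K X)
  fin : ∀ N : ℤ, {x : O | w (algebraMap O K x) ≤ exp N}.Finite
  ge_one : ∀ x : O, x ≠ 0 → 1 ≤ w (algebraMap O K x)
  near : ∃ N : ℤ, ∀ z : K, ∃ g : O, w (z - algebraMap O K g) ≤ exp N

end inf

/-- The facts on the place at infinity hold. -/
def S_INFB : Prop := ∀ (k K₀ K O : Type) [Field k] [Finite k] [CharP k 2] [Field K₀]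
  [Algebra k[X] K₀] [IsFractionRing k[X] K₀] [Field K] [Algebra K₀ K] [FiniteDimensional K₀ K]
  [Algebra.IsSeparable K₀ K] [Algebra k[X] K] [IsScalarTower k[X] K₀ K] [CommRing O]
  [IsDedekindDomain O] [Algebra O K] [IsFractionRing O K] [Algebra k[X] O]
  [IsScalarTower k[X] O K] [IsIntegralClosure O k[X] K] (w : Vl K), Inf k K₀ w →
  Facts k K₀ O w

/-- Classification of the places of `K`. -/
def S_CLS : Prop := ∀ (k K₀ K O : Type) [Field k] [Finite k] [CharP k 2] [Field K₀]
  [Algebra k[X] K₀] [IsFractionRing k[X] K₀] [Field K] [Algebra K₀ K] [FiniteDimensional K₀ K]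
  [Algebra.IsSeparable K₀ K] [Algebra k[X] K] [IsScalarTower k[X] K₀ K] [CommRing O]
  [IsDedekindDomain O] [Algebra O K] [IsFractionRing O K] [Algebra k[X] O]
  [IsScalarTower k[X] O K] [IsIntegralClosure O k[X] K] (w : Vl K), Inf k K₀ w →
  ∀ u : Vl K, Function.Surjective u → u = w ∨ ∃ v : HeightOneSpectrum O, u = v.valuation K

/-- `K` is the direct sum of `K ^ 2` and `t K ^ 2`, and the derivation with respect to `t` preserves
integrality at almost all places. -/
def S_BAS : Prop := ∀ (k K₀ K O : Type) [Field k] [Finite k] [CharP k 2] [Field K₀]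
  [Algebra k[X] K₀] [IsFractionRing k[X] K₀] [Field K] [Algebra K₀ K] [FiniteDimensional K₀ K]
  [Algebra.IsSeparable K₀ K] [Algebra k[X] K] [IsScalarTower k[X] K₀ K] [CommRing O]
  [IsDedekindDomain O] [Algebra O K] [IsFractionRing O K] [Algebra k[X] O]
  [IsScalarTower k[X] O K] [IsIntegralClosure O k[X] K],
  Bas (algebraMap k[X] K X) ∧ ∃ s₁ : Finset (HeightOneSpectrum O), ∀ v, v ∉ s₁ → ∀ p q : K,
    v.valuation K (p ^ 2 + algebraMap k[X] K X * q ^ 2) ≤ 1 → v.valuation K q ≤ 1

section data

variable (k : Type) {K : Type} [Field k] [Field K] [Algebra k[X] K]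

/-- Residues: `r j f` is the trace to `k` of the residue of `f dt` at the place `j` (`none` is the
place `w` above `t = ∞`). -/
structure ResK (O : Type) [CommRing O] [IsDedekindDomain O] [Algebra O K] [IsFractionRing O K]
    (w : Vl K) where
  r : Option (HeightOneSpectrum O) → K → k
  add : ∀ j f g, r j (f + g) = r j f + r j g
  smul : ∀ j (c : k) f, r j (algebraMap k[X] K (C c) * f) = c * r j f
  /-- No residue if `f` is integral at `v`. -/
  int : ∀ (v : HeightOneSpectrum O) f, v.valuation K f ≤ 1 → r (some v) f = 0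
  /-- No residue at infinity if `f` is small. -/
  intw : ∃ c : K, c ≠ 0 ∧ ∀ f, w f ≤ w c → r none f = 0
  sq : ∀ j h, r j (h ^ 2) = 0
  sqt : ∀ j h, r j (h ^ 2 * algebraMap k[X] K X) = r j h ^ 2
  /-- The residue theorem. -/
  sum : ∀ (f : K) (s : Finset (HeightOneSpectrum O)), (∀ v, v ∉ s → v.valuation K f ≤ 1) →
    r none f = ∑ v ∈ s, r (some v) f
  /-- The residues are not all zero. -/
  nd : ∀ v : HeightOneSpectrum O, ∃ f, r (some v) f ≠ 0

/-- The element `q` with `x = p ^ 2 + t q ^ 2`. -/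
noncomputable def qq {K : Type} [Field K] (t x : K) : K :=
  if h : ∃ q p : K, x = p ^ 2 + t * q ^ 2 then h.choose else 0

/-- The logarithmic derivative of `x` with respect to `t`. -/
noncomputable def dl {K : Type} [Field K] (t x : K) : K := qq t x ^ 2 / x

end data

/-- Existence of residues. -/
def S_RESK : Prop := ∀ (k K₀ K O : Type) [Field k] [Finite k] [CharP k 2] [Field K₀]
  [Algebra k[X] K₀] [IsFractionRing k[X] K₀] [Field K] [Algebra K₀ K] [FiniteDimensional K₀ K]
  [Algebra.IsSeparable K₀ K] [Algebra k[X] K] [IsScalarTower k[X] K₀ K] [CommRing O]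
  [IsDedekindDomain O] [Algebra O K] [IsFractionRing O K] [Algebra k[X] O]
  [IsScalarTower k[X] O K] [IsIntegralClosure O k[X] K] (w : Vl K), Inf k K₀ w →
  Facts k K₀ O w → Nonempty (Res k K₀) → Nonempty (ResK k O w)

section units

variable {K O : Type} [Field K] [CommRing O] [IsDedekindDomain O] [Algebra O K]
  [IsFractionRing O K]

/-- `u` is a basis of the group of the `s`-units (`s` and `w` together) modulo squares, and all
elements with even valuations outside `s` are `s`-units up to squares. -/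
structure Unb (s : Finset (HeightOneSpectrum O)) (u : s → K) : Prop where
  ne : ∀ i, u i ≠ 0
  unit : ∀ i, ∀ v : HeightOneSpectrum O, v ∉ s → v.valuation K (u i) = 1
  gen : ∀ d : K, d ≠ 0 → (∀ v : HeightOneSpectrum O, v ∉ s → Ev (v.valuation K d)) →
    ∃ (e : s → ZMod 2) (y : K), y ≠ 0 ∧ d = (∏ i, u i ^ (e i).val) * y ^ 2
  ind : ∀ e : s → ZMod 2, IsSquare (∏ i, u i ^ (e i).val) → e = 0

/-- The places: `none` is `w`. -/
noncomputable def plc (w : Vl K) : Option (HeightOneSpectrum O) → Vl K
  | none => w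
  | some v => v.valuation K

/-- The elements of `K` with poles of order at most `N` at the places of `s` and at `w`, and no other
poles. -/
def VK (w : Vl K) (s : Finset (HeightOneSpectrum O)) (N : ℕ) : Set K :=
  {a | w a ≤ exp (N : ℤ) ∧ (∀ v ∈ s, v.valuation K a ≤ exp (N : ℤ)) ∧
    ∀ v : HeightOneSpectrum O, v ∉ s → v.valuation K a ≤ 1}

/-- The matrix of the residues of `a dlog (u i)` at the places in `s` and at `w` (`none`). -/
noncomputable def matK {k : Type} [Field k] [Algebra k[X] K] {w : Vl K} (ρ : ResK k O w)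
    (τ : k → ZMod 2) {s : Finset (HeightOneSpectrum O)} (u : s → K) (a : K) (i : s)
    (j : Option s) : ZMod 2 :=
  τ (ρ.r (j.map Subtype.val) (a * dl (algebraMap k[X] K X) (u i)))

end units

/-- The units. -/
def S_UNI : Prop := ∀ (k K₀ K O : Type) [Field k] [Finite k] [CharP k 2] [Field K₀]
  [Algebra k[X] K₀] [IsFractionRing k[X] K₀] [Field K] [Algebra K₀ K] [FiniteDimensional K₀ K]
  [Algebra.IsSeparable K₀ K] [Algebra k[X] K] [IsScalarTower k[X] K₀ K] [CommRing O]
  [IsDedekindDomain O] [Algebra O K] [IsFractionRing O K] [Algebra k[X] O]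
  [IsScalarTower k[X] O K] [IsIntegralClosure O k[X] K] (w : Vl K), Inf k K₀ w →
  Facts k K₀ O w → ∃ s₁ : Finset (HeightOneSpectrum O), ∀ s, s₁ ⊆ s → ∃ u : s → K, Unb s u

/-- There are no unramified quadratic extensions in which all places of `s` and `w` split. -/
def S_UNR : Prop := ∀ (k K₀ K O : Type) [Field k] [Finite k] [CharP k 2] [Field K₀]
  [Algebra k[X] K₀] [IsFractionRing k[X] K₀] [Field K] [Algebra K₀ K] [FiniteDimensional K₀ K]
  [Algebra.IsSeparable K₀ K] [Algebra k[X] K] [IsScalarTower k[X] K₀ K] [CommRing O]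
  [IsDedekindDomain O] [Algebra O K] [IsFractionRing O K] [Algebra k[X] O]
  [IsScalarTower k[X] O K] [IsIntegralClosure O k[X] K] (w : Vl K), Inf k K₀ w →
  Facts k K₀ O w → Pool.Agent.H467.MR.S_ZETA →
  ∃ s₁ : Finset (HeightOneSpectrum O), ∀ s, s₁ ⊆ s → ∀ α : K,
    (∀ v : HeightOneSpectrum O, v ∉ s → ∃ z : K, v.valuation K (α + z ^ 2 + z) ≤ 1) →
    (∀ v ∈ s, ∃ z : K, v.valuation K (α + z ^ 2 + z) < 1) →
    (∃ z : K, w (α + z ^ 2 + z) < 1) → AS α

/-- Equidistribution of the matrices. -/
def S_EQK : Prop := ∀ (k K₀ K O : Type) [Field k] [Finite k] [CharP k 2] [Field K₀]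
  [Algebra k[X] K₀] [IsFractionRing k[X] K₀] [Field K] [Algebra K₀ K] [FiniteDimensional K₀ K]
  [Algebra.IsSeparable K₀ K] [Algebra k[X] K] [IsScalarTower k[X] K₀ K] [CommRing O]
  [IsDedekindDomain O] [Algebra O K] [IsFractionRing O K] [Algebra k[X] O]
  [IsScalarTower k[X] O K] [IsIntegralClosure O k[X] K] (w : Vl K), Inf k K₀ w →
  Facts k K₀ O w → Bas (algebraMap k[X] K X) → ∀ (ρ : ResK k O w) (τ : k → ZMod 2), IsTau τ →
  ∀ s : Finset (HeightOneSpectrum O), (∀ v, v ∉ s → ∀ p q : K,
    v.valuation K (p ^ 2 + algebraMap k[X] K X * q ^ 2) ≤ 1 → v.valuation K q ≤ 1) →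
  ∀ u : s → K, Unb s u →
  (∀ N : ℕ, (VK w s N).Finite) ∧ (∀ a N, a ∈ VK w s N → ∀ i, ∑ j, matK ρ τ u a i j = 0) ∧
  ∃ N₀ : ℕ, ∀ N ≥ N₀, ∀ T : s → Option s → ZMod 2, (∀ i, ∑ j, T i j = 0) →
    {a ∈ VK w s N | matK ρ τ u a = T}.ncard * 2 ^ (s.card ^ 2) = (VK w s N).ncard

/-- Most of the elements of `VK` have large poles modulo `z ^ 2 + z`. -/
def S_BGK : Prop := ∀ (k K₀ K O : Type) [Field k] [Finite k] [CharP k 2] [Field K₀]
  [Algebra k[X] K₀] [IsFractionRing k[X] K₀] [Field K] [Algebra K₀ K] [FiniteDimensional K₀ K]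
  [Algebra.IsSeparable K₀ K] [Algebra k[X] K] [IsScalarTower k[X] K₀ K] [CommRing O]
  [IsDedekindDomain O] [Algebra O K] [IsFractionRing O K] [Algebra k[X] O]
  [IsScalarTower k[X] O K] [IsIntegralClosure O k[X] K] (w : Vl K), Inf k K₀ w →
  Facts k K₀ O w → ∀ s : Finset (HeightOneSpectrum O), (∀ N : ℕ, (VK w s N).Finite) →
  ∀ (γ : WithZero (Multiplicative ℤ)) (j : Option s),
  Filter.Tendsto (fun N : ℕ => ({a ∈ VK w s N |
    ∃ z : K, plc w (j.map Subtype.val) (a + z ^ 2 + z) ≤ γ}.ncard : ℝ) /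
      ((VK w s N).ncard : ℝ)) Filter.atTop (nhds 0)

/-- If multiplication by two is bijective on the points over `K` then there are only finitely many
points. -/
def S_FINK : Prop := ∀ (k K₀ K O : Type) [Field k] [Finite k] [CharP k 2] [Field K₀]
  [Algebra k[X] K₀] [IsFractionRing k[X] K₀] [Field K] [Algebra K₀ K] [FiniteDimensional K₀ K]
  [Algebra.IsSeparable K₀ K] [Algebra k[X] K] [IsScalarTower k[X] K₀ K] [CommRing O]
  [IsDedekindDomain O] [Algebra O K] [IsFractionRing O K] [Algebra k[X] O]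
  [IsScalarTower k[X] O K] [IsIntegralClosure O k[X] K] (w : Vl K), Inf k K₀ w →
  Facts k K₀ O w → CharP K 2 → ∀ (W : Affine K) (a b : K), Std W a b →
  (∀ P : W.Point, ∃ Q, Q + Q = P) → (∀ P : W.Point, P + P = 0 → P = 0) → Finite W.Point

/-- `K` is a function field of one variable over `k`: a finite extension of `k(t)`, `t` an element of
`K` transcendental over `k`. -/
def IsFF (k K : Type) [Field k] [Field K] [Algebra k K] : Prop :=
  ∃ t : K, Transcendental k t ∧ FiniteDimensional (IntermediateField.adjoin k {t}) K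

/-- Every global function field is a finite separable extension of some `k(t)` in which `t = ∞` has
exactly one extension. -/
def S_DRI : Prop := ∀ (k K : Type) [Field k] [Finite k] [CharP k 2] [Field K] [Algebra k K],
  IsFF k K → ∃ φ : RatFunc k →+* K, (∀ c : k, φ (RatFunc.C c) = algebraMap k K c) ∧
    (letI := φ.toAlgebra
     FiniteDimensional (RatFunc k) K ∧ Algebra.IsSeparable (RatFunc k) K ∧
       ∃ w : Vl K, Inf k (RatFunc k) w)

end Pool.Agent.H467.GK
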